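import Pool.Agent.N686.EL.Ener3
set_option autoImplicit false

/-!
The reduction of the energies on the ellipse to averages over the interval `[-2, 2]`.
-/

namespace Pool.Agent.N686.EL

open MeasureTheory Set Filter Topology Metric Polynomial

open Pool.Agent.TH826.MK (circ norm_circ circ_add_one contDiff_circ hasDerivAt_circ circ_eq)

open Pool.Agent.Y775.CC

set_option maxHeartbeats 400000

theorem swap_cont {E : Type*} [NormedAddCommGroup E] [NormedSpace ℝ E]
    {F : ℝ → ℝ → E} (hF : Continuous (Function.uncurry F)) :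
    ∫ x in (0 : ℝ)..1, ∫ y in (0 : ℝ)..1, F x y = ∫ y in (0 : ℝ)..1, ∫ x in (0 : ℝ)..1, F x y := by
  refine intervalIntegral_intervalIntegral_swap ?_
  refine (hF.continuousOn.integrableOn_compact (isCompact_Icc.prod isCompact_Icc)).mono_set
    (t := Icc (0 : ℝ) 1 ×ˢ Icc (0 : ℝ) 1) ?_
  rw [uIoc_of_le zero_le_one]
  exact prod_mono Ioc_subset_Icc_self Ioc_subset_Icc_self

theorem re_int2 {A : ℝ → ℝ → ℂ} (hA : Continuous (Function.uncurry A)) {f g : ℝ → ℝ}
    (hf : Continuous f) (hg : Continuous g) :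
    (∫ θ in (0 : ℝ)..1, (∫ t in (0 : ℝ)..1, A θ t * f t) * g θ).re =
      ∫ θ in (0 : ℝ)..1, (∫ t in (0 : ℝ)..1, (A θ t).re * f t) * g θ := by
  have h1 : Continuous (Function.uncurry fun θ t => A θ t * (f t : ℂ)) :=
    hA.mul (Complex.continuous_ofReal.comp (hf.comp continuous_snd))
  have h2 : Continuous fun θ => ∫ t in (0 : ℝ)..1, A θ t * (f t : ℂ) :=
    intervalIntegral.continuous_parametric_intervalIntegral_of_continuous' (μ := volume) h1 0 1
  have h3 : Continuous fun θ => (∫ t in (0 : ℝ)..1, A θ t * (f t : ℂ)) * (g θ : ℂ) :=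
    h2.mul (Complex.continuous_ofReal.comp hg)
  have h4 := Complex.reCLM.intervalIntegral_comp_comm (h3.intervalIntegrable (μ := volume) 0 1)
  simp only [Complex.reCLM_apply] at h4
  rw [← h4]
  refine intervalIntegral.integral_congr fun θ _ => ?_
  rw [Complex.re_mul_ofReal]
  congr 1
  have h5 : Continuous fun t => A θ t * (f t : ℂ) := by
    have h6 : Continuous fun t : ℝ => ((θ, t) : ℝ × ℝ) := continuous_const.prodMk continuous_id
    have h7 := h1.comp h6
    exact h7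
  have h8 := Complex.reCLM.intervalIntegral_comp_comm (h5.intervalIntegrable (μ := volume) 0 1)
  simp only [Complex.reCLM_apply] at h8
  rw [← h8]
  refine intervalIntegral.integral_congr fun t _ => ?_
  rw [Complex.re_mul_ofReal]

section

variable {V : Set ℂ} {q : ℝ} (hq : 1 < q)
  (hV : ∀ z : ℂ, 1 ≤ ‖z‖ → ‖z‖ ≤ q → z + z⁻¹ ∈ V)

/-- the property of a density `f` on the ellipse of being equal, on analytic functions, to `c`
times the density `F` on the interval -/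
def Rep (V : Set ℂ) (q : ℝ) (f F : ℝ → ℝ) (c : ℂ) : Prop :=
  ∀ g : ℂ → ℂ, DifferentiableOn ℂ g V →
    ∫ t in (0 : ℝ)..1, g (uu q t) * f t = c * ∫ t in (0 : ℝ)..1, g (uu 1 t) * F t

include hq hV

theorem two_step {A : ℂ → ℂ → ℂ} (hA : ContinuousOn (fun p : ℂ × ℂ => A p.1 p.2) (V ×ˢ V))
    (hA1 : ∀ t ∈ V, DifferentiableOn ℂ (fun s => A s t) V)
    (hA2 : ∀ s ∈ V, DifferentiableOn ℂ (fun t => A s t) V) {f g F G : ℝ → ℝ}
    (hg : Continuous g) (hF : Continuous F) (hG : Continuous G) {c d : ℂ}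
    (h1 : Rep V q f F c) (h2 : Rep V q g G d) :
    ∫ θ in (0 : ℝ)..1, (∫ t in (0 : ℝ)..1, A (uu q t) (uu q θ) * f t) * g θ =
      c * d * ∫ θ in (0 : ℝ)..1, (∫ t in (0 : ℝ)..1, A (uu 1 t) (uu 1 θ) * F t) * G θ := by
  have hq0 : 0 < q := by linarith
  have hm := uu_mem hq.le hV
  have hm1 := uu_one_mem' hq.le hV
  have hcq : Continuous fun p : ℝ × ℝ => A (uu 1 p.2) (uu q p.1) :=
    hA.comp_continuous (f := fun p : ℝ × ℝ => (uu 1 p.2, uu q p.1))
      (((continuous_uu one_pos).comp continuous_snd).prodMk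
        ((continuous_uu hq0).comp continuous_fst)) fun p => ⟨hm1 _, hm _⟩
  have hc1 : Continuous fun p : ℝ × ℝ => A (uu 1 p.2) (uu 1 p.1) :=
    hA.comp_continuous (f := fun p : ℝ × ℝ => (uu 1 p.2, uu 1 p.1))
      (((continuous_uu one_pos).comp continuous_snd).prodMk
        ((continuous_uu one_pos).comp continuous_fst)) fun p => ⟨hm1 _, hm1 _⟩
  have e1 : ∀ θ, (∫ t in (0 : ℝ)..1, A (uu q t) (uu q θ) * f t) * g θ =
      c * ∫ t in (0 : ℝ)..1, A (uu 1 t) (uu q θ) * F t * g θ := by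
    intro θ
    rw [h1 (fun s => A s (uu q θ)) (hA1 _ (hm θ)), intervalIntegral.integral_mul_const]
    ring
  have hs1 : Continuous (Function.uncurry fun θ t => A (uu 1 t) (uu q θ) * (F t : ℂ) * (g θ : ℂ)) :=
    (hcq.mul (Complex.continuous_ofReal.comp (hF.comp continuous_snd))).mul
      (Complex.continuous_ofReal.comp (hg.comp continuous_fst))
  have e2 : ∀ t, ∫ θ in (0 : ℝ)..1, A (uu 1 t) (uu q θ) * F t * g θ =
      d * ∫ θ in (0 : ℝ)..1, A (uu 1 t) (uu 1 θ) * F t * G θ := by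
    intro t
    have h3 : ∀ θ, A (uu 1 t) (uu q θ) * F t * g θ = F t * (A (uu 1 t) (uu q θ) * g θ) :=
      fun θ => by ring
    have h4 : ∀ θ, A (uu 1 t) (uu 1 θ) * F t * G θ = F t * (A (uu 1 t) (uu 1 θ) * G θ) :=
      fun θ => by ring
    simp only [h3, h4]
    rw [intervalIntegral.integral_const_mul, intervalIntegral.integral_const_mul,
      h2 (fun s => A (uu 1 t) s) (hA2 _ (hm1 t))]
    ring
  have hs2 : Continuous (Function.uncurry fun θ t => A (uu 1 t) (uu 1 θ) * (F t : ℂ) * (G θ : ℂ)) :=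
    (hc1.mul (Complex.continuous_ofReal.comp (hF.comp continuous_snd))).mul
      (Complex.continuous_ofReal.comp (hG.comp continuous_fst))
  have e3 : ∀ θ, (∫ t in (0 : ℝ)..1, A (uu 1 t) (uu 1 θ) * F t) * G θ =
      ∫ t in (0 : ℝ)..1, A (uu 1 t) (uu 1 θ) * F t * G θ := fun θ => by
    rw [intervalIntegral.integral_mul_const]
  simp only [e1, e3]
  rw [intervalIntegral.integral_const_mul, swap_cont hs1, swap_cont hs2]
  simp only [e2]
  rw [intervalIntegral.integral_const_mul, mul_assoc]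

end

theorem rep_f1 {V : Set ℂ} (hVo : IsOpen V) {q : ℝ} (hq : 1 < q)
    (hV : ∀ z : ℂ, 1 ≤ ‖z‖ → ‖z‖ ≤ q → z + z⁻¹ ∈ V) (a : ℕ → ℝ) (M : ℕ) :
    Rep V q (f1 q a M) (fun t => 1 + bet a M t) 1 := by
  intro g hg
  rw [avg_f1 hVo hq hV hg a M, one_mul]

theorem rep_f2 {V : Set ℂ} (hVo : IsOpen V) {q : ℝ} (hq : 1 < q)
    (hV : ∀ z : ℂ, 1 ≤ ‖z‖ → ‖z‖ ≤ q → z + z⁻¹ ∈ V) (a : ℕ → ℝ) (M : ℕ) :
    Rep V q (f2 q a M) (bet a M) Complex.I := by
  intro g hg
  rw [avg_f2 hVo hq hV hg a M]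

section

variable {G : ℂ[X]} {n : ℕ} {V : Set ℂ} {φ : Fin n → ℂ → ℂ} (H : Branches G V φ) {q : ℝ}
  (hq : 1 < q) (hV : ∀ z : ℂ, 1 ≤ ‖z‖ → ‖z‖ ≤ q → z + z⁻¹ ∈ V)

include H

theorem continuous_lp_one (i j : Fin n) : Continuous fun p : ℝ × ℝ => lp φ 1 i j p.2 p.1 := by
  have hm : ∀ t, uu 1 t ∈ V := H.uu_mem
  obtain ⟨A, hA, hre, -, -⟩ := exists_log2 H i j
  have h1 : Continuous fun p : ℝ × ℝ => A (uu 1 p.2) (uu 1 p.1) :=
    hA.comp_continuous (f := fun p : ℝ × ℝ => (uu 1 p.2, uu 1 p.1))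
      (((continuous_uu one_pos).comp continuous_snd).prodMk
        ((continuous_uu one_pos).comp continuous_fst)) fun p => ⟨hm _, hm _⟩
  have h2 : (fun p : ℝ × ℝ => lp φ 1 i j p.2 p.1) = fun p => (A (uu 1 p.2) (uu 1 p.1)).re := by
    funext p
    rw [hre _ (hm _) _ (hm _)]
    rfl
  rw [h2]
  exact Complex.continuous_re.comp h1

include hq hV

theorem eA_eq (i j : Fin n) {f g F F' : ℝ → ℝ} (hf : Continuous f) (hg : Continuous g)
    (hF : Continuous F) (hG : Continuous F') {c d : ℂ} {r : ℝ} (hr : c * d = r)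
    (h1 : Rep V q f F c) (h2 : Rep V q g F' d) :
    eA φ q i j f g = r * eA φ 1 i j F F' := by
  have hq0 : 0 < q := by linarith
  have hm := uu_mem hq.le hV
  have hm1 := uu_one_mem' hq.le hV
  obtain ⟨A, hA, hre, hA1, hA2⟩ := exists_log2 H i j
  have h3 := two_step hq hV hA hA1 hA2 hg hF hG h1 h2
  have hcq : Continuous (Function.uncurry fun θ t => A (uu q t) (uu q θ)) :=
    hA.comp_continuous (f := fun p : ℝ × ℝ => (uu q p.2, uu q p.1))
      (((continuous_uu hq0).comp continuous_snd).prodMk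
        ((continuous_uu hq0).comp continuous_fst)) fun p => ⟨hm _, hm _⟩
  have hc1 : Continuous (Function.uncurry fun θ t => A (uu 1 t) (uu 1 θ)) :=
    hA.comp_continuous (f := fun p : ℝ × ℝ => (uu 1 p.2, uu 1 p.1))
      (((continuous_uu one_pos).comp continuous_snd).prodMk
        ((continuous_uu one_pos).comp continuous_fst)) fun p => ⟨hm1 _, hm1 _⟩
  have h4 := congrArg Complex.re h3
  rw [hr, Complex.re_ofReal_mul, re_int2 hcq hf hg, re_int2 hc1 hF hG] at h4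
  unfold eA lp
  have h5 : ∀ θ t, (A (uu q t) (uu q θ)).re = Real.log ‖psi φ i j (uu q θ) (uu q t)‖ :=
    fun θ t => hre _ (hm t) _ (hm θ)
  have h6 : ∀ θ t, (A (uu 1 t) (uu 1 θ)).re = Real.log ‖psi φ i j (uu 1 θ) (uu 1 t)‖ :=
    fun θ t => hre _ (hm1 t) _ (hm1 θ)
  simp only [h5, h6] at h4
  exact h4

end

end Pool.Agent.N686.EL
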