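import Pool.Agent.N686.EL.Lim
set_option autoImplicit false

/-!
Branches of the inverse of a polynomial without critical values in an ellipse with the foci `±2`.
-/

namespace Pool.Agent.N686.EL

open Polynomial Metric Set Filter Topology

open Pool.Agent.Y775.CC

set_option maxHeartbeats 400000

/-- the interior of the ellipse with the foci `±2` and the sum of distances `ρ` -/
def El (ρ : ℝ) : Set ℂ := {w : ℂ | ‖w - 2‖ + ‖w + 2‖ < ρ}

theorem isOpen_El (ρ : ℝ) : IsOpen (El ρ) := by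
  have h : Continuous fun w : ℂ => ‖w - 2‖ + ‖w + 2‖ := by fun_prop
  exact isOpen_lt h continuous_const

theorem convex_El (ρ : ℝ) : Convex ℝ (El ρ) := by
  intro x hx y hy a b ha hb hab
  have hx' : ‖x - 2‖ + ‖x + 2‖ < ρ := hx
  have hy' : ‖y - 2‖ + ‖y + 2‖ < ρ := hy
  change ‖a • x + b • y - 2‖ + ‖a • x + b • y + 2‖ < ρ
  have hab' : (a : ℂ) + (b : ℂ) = 1 := by exact_mod_cast hab
  have e1 : a • x + b • y - 2 = (a : ℂ) * (x - 2) + (b : ℂ) * (y - 2) := by
    rw [Complex.real_smul, Complex.real_smul]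
    linear_combination (2 : ℂ) * hab'
  have e2 : a • x + b • y + 2 = (a : ℂ) * (x + 2) + (b : ℂ) * (y + 2) := by
    rw [Complex.real_smul, Complex.real_smul]
    linear_combination (-2 : ℂ) * hab'
  have h1 : ‖(a : ℂ) * (x - 2) + (b : ℂ) * (y - 2)‖ ≤ a * ‖x - 2‖ + b * ‖y - 2‖ := by
    refine (norm_add_le _ _).trans (le_of_eq ?_)
    rw [norm_mul, norm_mul, Complex.norm_real, Complex.norm_real, Real.norm_eq_abs,
      Real.norm_eq_abs, abs_of_nonneg ha, abs_of_nonneg hb]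
  have h2 : ‖(a : ℂ) * (x + 2) + (b : ℂ) * (y + 2)‖ ≤ a * ‖x + 2‖ + b * ‖y + 2‖ := by
    refine (norm_add_le _ _).trans (le_of_eq ?_)
    rw [norm_mul, norm_mul, Complex.norm_real, Complex.norm_real, Real.norm_eq_abs,
      Real.norm_eq_abs, abs_of_nonneg ha, abs_of_nonneg hb]
  rw [e1, e2]
  have h3 : a * (‖x - 2‖ + ‖x + 2‖) + b * (‖y - 2‖ + ‖y + 2‖) < ρ := by
    have h4 : ρ = a * ρ + b * ρ := by rw [← add_mul, hab, one_mul]
    rw [h4]
    rcases ha.eq_or_lt with h0 | h0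
    · have hb1 : b = 1 := by linarith
      rw [← h0, hb1]
      linarith
    · have h5 : a * (‖x - 2‖ + ‖x + 2‖) < a * ρ := mul_lt_mul_of_pos_left hx' h0
      have h6 : b * (‖y - 2‖ + ‖y + 2‖) ≤ b * ρ := mul_le_mul_of_nonneg_left hy'.le hb
      linarith
  linarith

theorem seg_mem_El {ρ : ℝ} (hρ : 4 < ρ) {t : ℝ} (ht : |t| ≤ 2) : (t : ℂ) ∈ El ρ := by
  change ‖(t : ℂ) - 2‖ + ‖(t : ℂ) + 2‖ < ρ
  have e1 : (t : ℂ) - 2 = ((t - 2 : ℝ) : ℂ) := by push_cast; ring
  have e2 : (t : ℂ) + 2 = ((t + 2 : ℝ) : ℂ) := by push_cast; ring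
  have h := abs_le.1 ht
  rw [e1, e2, Complex.norm_real, Complex.norm_real, Real.norm_eq_abs, Real.norm_eq_abs,
    abs_of_nonpos (by linarith), abs_of_nonneg (by linarith)]
  linarith

theorem dist_sum {z : ℂ} (hz : z ≠ 0) :
    ‖z + z⁻¹ - 2‖ + ‖z + z⁻¹ + 2‖ = 2 * (‖z‖ + ‖z‖⁻¹) := by
  have hn : 0 < ‖z‖ := norm_pos_iff.2 hz
  have e1 : z + z⁻¹ - 2 = (z - 1) ^ 2 / z := by
    field_simp
    ring
  have e2 : z + z⁻¹ + 2 = (z + 1) ^ 2 / z := by
    field_simp
    ring
  have h := parallelogram_law_with_norm ℝ z 1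
  rw [norm_one] at h
  rw [e1, e2, norm_div, norm_div, norm_pow, norm_pow]
  field_simp
  nlinarith

theorem ellipse_mem {q ρ : ℝ} (hq : 1 < q) (hρ : 2 * (q + q⁻¹) < ρ) (z : ℂ) (h1 : 1 ≤ ‖z‖)
    (h2 : ‖z‖ ≤ q) : z + z⁻¹ ∈ El ρ := by
  have hz : z ≠ 0 := norm_pos_iff.1 (by linarith)
  have hn : 0 < ‖z‖ := by linarith
  have hq0 : 0 < q := by linarith
  change ‖z + z⁻¹ - 2‖ + ‖z + z⁻¹ + 2‖ < ρ
  rw [dist_sum hz]
  have h3 : ‖z‖ + ‖z‖⁻¹ ≤ q + q⁻¹ := by
    have h4 : q + q⁻¹ - (‖z‖ + ‖z‖⁻¹) = (q - ‖z‖) * (1 - (q * ‖z‖)⁻¹) := by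
      field_simp
      ring
    have h5 : (q * ‖z‖)⁻¹ ≤ 1 := inv_le_one_of_one_le₀ (by nlinarith)
    have h6 : 0 ≤ (q - ‖z‖) * (1 - (q * ‖z‖)⁻¹) := mul_nonneg (by linarith) (by linarith)
    linarith
  linarith

theorem four_lt {q : ℝ} (hq : 1 < q) : 4 < 2 * (q + q⁻¹) := by
  have hq0 : 0 < q := by linarith
  have h1 : q + q⁻¹ - 2 = (q - 1) ^ 2 / q := by
    field_simp
    ring
  have h2 : 0 < (q - 1) ^ 2 / q := by
    have : q - 1 ≠ 0 := by linarith
    positivity
  linarith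

/-- Branches on a given convex domain without critical values. -/
theorem exists_branches_on {G : ℂ[X]} (hG : G.Monic) {n : ℕ} (hn : 0 < n)
    (hdeg : G.natDegree = n) {V : Set ℂ} (hVo : IsOpen V) (hVc : Convex ℝ V)
    (hVm : ∀ t : ℝ, |t| ≤ 2 → (t : ℂ) ∈ V) (hVcrit : ∀ x, (derivative G).eval x = 0 →
      G.eval x ∉ V) : ∃ φ : Fin n → ℂ → ℂ, Branches G V φ := by
  classical
  have h0V : (0 : ℂ) ∈ V := by
    have := hVm 0 (by norm_num)
    simpa using this
  have hmon : ∀ u : ℂ, (G - C u).Monic := by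
    intro u
    refine hG.sub_of_left ?_
    rw [degree_eq_natDegree hG.ne_zero, hdeg]
    exact lt_of_le_of_lt degree_C_le (by exact_mod_cast hn)
  have hdegu : ∀ u : ℂ, (G - C u).natDegree = n := fun u => by rw [natDegree_sub_C, hdeg]
  -- the roots over `0`
  have hroots : ∃ x : Fin n → ℂ, Function.Injective x ∧ ∀ i, G.eval (x i) = 0 := by
    have hcard : (G - C (0 : ℂ)).roots.card = n := by
      rw [← hdegu 0]
      exact (IsAlgClosed.splits _).natDegree_eq_card_roots.symm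
    have hnodup : (G - C (0 : ℂ)).roots.Nodup := by
      rw [Multiset.nodup_iff_count_le_one]
      intro x
      rw [count_roots]
      by_contra hcon
      push Not at hcon
      have h1 := (one_lt_rootMultiplicity_iff_isRoot (hmon 0).ne_zero).1 hcon
      have h2 : (derivative G).eval x = 0 := by
        have := h1.2
        rw [derivative_sub, derivative_C, sub_zero] at this
        exact this
      have h3 : G.eval x = 0 := by
        have := h1.1
        rw [IsRoot.def, eval_sub, eval_C, sub_zero] at this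
        exact this
      exact hVcrit x h2 (by rw [h3]; exact h0V)
    set S := (G - C (0 : ℂ)).roots.toFinset with hS
    have hSc : S.card = n := by
      rw [hS, Multiset.toFinset_card_of_nodup hnodup, hcard]
    have hSr : ∀ y ∈ S, G.eval y = 0 := by
      intro y hy
      rw [hS, Multiset.mem_toFinset, mem_roots (hmon 0).ne_zero, IsRoot.def, eval_sub, eval_C,
        sub_zero] at hy
      exact hy
    exact ⟨fun i => ((S.equivFinOfCardEq hSc).symm i : ℂ), fun i j hij =>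
      (S.equivFinOfCardEq hSc).symm.injective (Subtype.ext hij), fun i =>
      hSr _ ((S.equivFinOfCardEq hSc).symm i).2⟩
  obtain ⟨x, hxinj, hx⟩ := hroots
  -- lifts
  have : SimplyConnectedSpace V := by
    have : ContractibleSpace V := hVc.contractibleSpace ⟨0, h0V⟩
    exact SimplyConnectedSpace.ofContractible V
  have : LocallyPathConnectedSpace V := hVo.locallyPathConnectedSpace
  have hcov : IsCoveringMapOn (fun y => G.eval y) V :=
    G.isCoveringMapOn_eval.mono fun u hu => by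
      rintro ⟨y, hy, hyu⟩
      exact hVcrit y hy (by
        have hyu' : G.eval y = u := hyu
        rw [hyu']
        exact hu)
  set ι : C(V, ℂ) := ⟨Subtype.val, continuous_subtype_val⟩ with hι
  have hlift : ∀ (u : V) (y : ℂ), G.eval y = u → ∃! f : C(V, ℂ), f u = y ∧
      (fun y => G.eval y) ∘ f = ι := fun u y hy =>
    hcov.existsUnique_continuousMap_lifts ι hy fun a => a.2
  have hex : ∀ i, ∃ f : C(V, ℂ), f ⟨0, h0V⟩ = x i ∧ (fun y => G.eval y) ∘ f = ι := fun i =>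
    (hlift ⟨0, h0V⟩ (x i) (hx i)).exists
  choose f hf0 hf using hex
  have hfev : ∀ i (u : V), G.eval (f i u) = u := fun i u => congrFun (hf i) u
  set φ : Fin n → ℂ → ℂ := fun i u => if h : u ∈ V then f i ⟨u, h⟩ else 0 with hφ
  have hφV : ∀ i u (hu : u ∈ V), φ i u = f i ⟨u, hu⟩ := fun i u hu => dif_pos hu
  have hφev : ∀ i, ∀ u ∈ V, G.eval (φ i u) = u := fun i u hu => by
    rw [hφV i u hu]
    exact hfev i ⟨u, hu⟩
  have hinj : ∀ u ∈ V, Function.Injective fun i => φ i u := by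
    intro u hu i j hij
    have hij' : f i ⟨u, hu⟩ = f j ⟨u, hu⟩ := by
      rw [← hφV i u hu, ← hφV j u hu]
      exact hij
    have h1 := (hlift ⟨u, hu⟩ (f i ⟨u, hu⟩) (hfev i ⟨u, hu⟩)).unique ⟨rfl, hf i⟩
      ⟨hij'.symm, hf j⟩
    apply hxinj
    rw [← hf0 i, ← hf0 j, h1]
  refine ⟨φ, hVo, hVc, hVm, fun i u hu => ?_, hinj, fun u hu => ?_⟩
  · have hd : (derivative G).eval (φ i u) ≠ 0 := by
      intro h
      apply hVcrit _ h
      rw [hφev i u hu]
      exact hu
    refine ⟨((derivative G).eval (φ i u))⁻¹, inv_ne_zero hd, ?_⟩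
    have hcont : ContinuousAt (φ i) u := by
      have h1 : ContinuousOn (φ i) V := by
        rw [continuousOn_iff_continuous_domRestrict]
        have e : V.domRestrict (φ i) = f i := by
          funext a
          exact hφV i a a.2
        rw [e]
        exact (f i).continuous
      exact h1.continuousAt (hVo.mem_nhds hu)
    refine HasDerivAt.of_local_left_inverse hcont (G.hasDerivAt (φ i u)) hd ?_
    filter_upwards [hVo.mem_nhds hu] with w hw
    exact hφev i w hw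
  · exact Pool.Agent.TH826.UH.eq_prod (hmon u) (hdegu u) (hinj u hu) fun i => by
      rw [eval_sub, eval_C, hφev i u hu, sub_self]

/-- Branches on an ellipse, after a normalisation of the leading coefficient. -/
theorem exists_branches_ellipse {P : ℂ[X]} {n : ℕ} (hn : 0 < n) (hdeg : P.natDegree = n) {q : ℝ}
    (hq : 1 < q) (hcrit : ∀ x, (derivative P).eval x = 0 →
      2 * (q + q⁻¹) < ‖P.eval x - 2‖ + ‖P.eval x + 2‖) :
    ∃ (l : ℂ) (G : ℂ[X]) (V : Set ℂ) (φ : Fin n → ℂ → ℂ), l ≠ 0 ∧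
      (∀ x, P.eval (l * x) = G.eval x) ∧ Branches G V φ ∧
      ∀ z : ℂ, 1 ≤ ‖z‖ → ‖z‖ ≤ q → z + z⁻¹ ∈ V := by
  have hP0 : P ≠ 0 := by
    rintro rfl
    simp at hdeg
    omega
  have hμ : P.leadingCoeff ≠ 0 := leadingCoeff_ne_zero.2 hP0
  obtain ⟨m, hm⟩ := IsAlgClosed.exists_pow_nat_eq P.leadingCoeff hn
  have hm0 : m ≠ 0 := by
    rintro rfl
    rw [zero_pow hn.ne'] at hm
    exact hμ hm.symm
  set l : ℂ := m⁻¹ with hl
  have hl0 : l ≠ 0 := inv_ne_zero hm0
  set G : ℂ[X] := P.comp (C l * X) with hGdef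
  have hdl : (C l * X : ℂ[X]).natDegree = 1 := natDegree_C_mul_X l hl0
  have hGdeg : G.natDegree = n := by rw [hGdef, natDegree_comp, hdl, mul_one, hdeg]
  have hGm : G.Monic := by
    rw [Monic, hGdef, leadingCoeff_comp (by rw [hdl]; exact one_ne_zero), leadingCoeff_C_mul_X,
      hdeg, ← hm, hl, ← mul_pow, mul_inv_cancel₀ hm0, one_pow]
  have hev : ∀ x, P.eval (l * x) = G.eval x := fun x => by
    rw [hGdef, eval_comp, eval_mul, eval_C, eval_X]
  have hder : ∀ x, (derivative G).eval x = l * (derivative P).eval (l * x) := fun x => by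
    rw [hGdef, derivative_comp, eval_mul, eval_comp]
    simp
  have hcrit' : ∀ x, (derivative G).eval x = 0 →
      2 * (q + q⁻¹) < ‖G.eval x - 2‖ + ‖G.eval x + 2‖ := by
    intro x hx
    rw [← hev]
    refine hcrit _ ?_
    rw [hder] at hx
    exact (mul_eq_zero.1 hx).resolve_left hl0
  have hfin := finite_crit (G := G) (by rw [hGdeg]; exact hn)
  obtain ⟨ρ, hρ1, hρ2⟩ : ∃ ρ : ℝ, 2 * (q + q⁻¹) < ρ ∧ ∀ v ∈ (fun x => G.eval x) ''
      {x | (derivative G).eval x = 0}, ρ ≤ ‖v - 2‖ + ‖v + 2‖ := by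
    have h1 : ∀ᶠ ρ : ℝ in 𝓝[>] (2 * (q + q⁻¹)), ∀ v ∈ (fun x => G.eval x) ''
        {x | (derivative G).eval x = 0}, ρ ≤ ‖v - 2‖ + ‖v + 2‖ := by
      rw [hfin.eventually_all]
      rintro _ ⟨x, hx, rfl⟩
      have h2 := hcrit' x hx
      filter_upwards [nhdsWithin_le_nhds (eventually_lt_nhds h2)] with ρ hρ
      exact hρ.le
    obtain ⟨ρ, h3, h4⟩ := (h1.and self_mem_nhdsWithin).exists
    exact ⟨ρ, h4, h3⟩
  obtain ⟨φ, H⟩ := exists_branches_on hGm hn hGdeg (isOpen_El ρ) (convex_El ρ)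
    (fun t ht => seg_mem_El ((four_lt hq).trans hρ1) ht) fun x hx hmem => by
      have h1 := hρ2 _ ⟨x, hx, rfl⟩
      have h2 : ‖G.eval x - 2‖ + ‖G.eval x + 2‖ < ρ := hmem
      linarith
  exact ⟨l, G, El ρ, φ, hl0, hev, H, ellipse_mem hq hρ1⟩

end Pool.Agent.N686.EL
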