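import Pool.Agent.Y775.CC.Mat
set_option autoImplicit false

/-!
Fourier coefficients of analytic functions on confocal ellipses.
-/

namespace Pool.Agent.N686.EL

open MeasureTheory Set Filter Topology Metric

open Pool.Agent.TH826.MK (circ norm_circ circ_add_one contDiff_circ hasDerivAt_circ circ_eq)

open Pool.Agent.Y775.CC

/-- `cos (2 π k t)` -/
noncomputable def cs (k : ℕ) (t : ℝ) : ℝ := Real.cos (2 * Real.pi * k * t)

/-- `sin (2 π k t)` -/
noncomputable def sn (k : ℕ) (t : ℝ) : ℝ := Real.sin (2 * Real.pi * k * t)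

theorem continuous_cs (k : ℕ) : Continuous (cs k) := by
  unfold cs
  fun_prop

theorem continuous_sn (k : ℕ) : Continuous (sn k) := by
  unfold sn
  fun_prop

theorem cs_zero (t : ℝ) : cs 0 t = 1 := by
  simp [cs]

theorem sn_zero (t : ℝ) : sn 0 t = 0 := by
  simp [sn]

theorem circ_zpow {R : ℝ} (m : ℤ) (t : ℝ) :
    circ R t ^ m = (R : ℂ) ^ m * Complex.exp (2 * Real.pi * m * t * Complex.I) := by
  unfold circ
  rw [mul_zpow, ← Complex.exp_int_mul]
  congr 2
  ring

theorem circ_one_pow_nat (k : ℕ) (t : ℝ) :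
    circ 1 t ^ (k : ℤ) = (cs k t : ℂ) + (sn k t : ℂ) * Complex.I := by
  rw [circ_zpow]
  unfold cs sn
  rw [Complex.ofReal_cos, Complex.ofReal_sin, ← Complex.exp_mul_I]
  push_cast
  simp

theorem circ_one_pow_neg (k : ℕ) (t : ℝ) :
    circ 1 t ^ (-(k : ℤ)) = (cs k t : ℂ) - (sn k t : ℂ) * Complex.I := by
  rw [circ_zpow]
  unfold cs sn
  have e : (Real.cos (2 * Real.pi * k * t) : ℂ) - (Real.sin (2 * Real.pi * k * t) : ℂ) * Complex.I =
      Complex.exp (-(2 * Real.pi * k * t) * Complex.I) := by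
    rw [Complex.exp_mul_I, Complex.cos_neg, Complex.sin_neg]
    push_cast
    ring
  rw [e]
  push_cast
  simp

theorem circ_eq_mul (R t : ℝ) : circ R t = (R : ℂ) * circ 1 t := by
  unfold circ
  push_cast
  ring

theorem continuous_circ_zpow {R : ℝ} (hR : 0 < R) (m : ℤ) : Continuous fun t => circ R t ^ m :=
  (contDiff_circ R (n := 0)).continuous.zpow₀ m fun t => Or.inl (circ_ne_zero hR t)

/-- The Fourier coefficients on the circles. -/
theorem avg_zpow {V : Set ℂ} (hVo : IsOpen V) {R : ℝ} (hR : 1 ≤ R)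
    (hV : ∀ z : ℂ, 1 ≤ ‖z‖ → ‖z‖ ≤ R → z + z⁻¹ ∈ V) {g : ℂ → ℂ} (hg : DifferentiableOn ℂ g V)
    (m : ℤ) : ∫ t in (0 : ℝ)..1, g (uu R t) * circ R t ^ m =
      ∫ t in (0 : ℝ)..1, g (uu 1 t) * circ 1 t ^ m := by
  have hR0 : 0 < R := one_pos.trans_le hR
  set f : ℂ → ℂ := fun z => g (z + z⁻¹) * z ^ m with hf
  have hd : ∀ z : ℂ, 1 ≤ ‖z‖ → ‖z‖ ≤ R → DifferentiableAt ℂ f z := by
    intro z h1 h2
    have hz : z ≠ 0 := norm_pos_iff.1 (one_pos.trans_le h1)
    have h3 : DifferentiableAt ℂ g (z + z⁻¹) :=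
      hg.differentiableAt (hVo.mem_nhds (hV z h1 h2))
    exact (h3.comp z (differentiableAt_id.add (differentiableAt_inv hz))).mul
      (differentiableAt_zpow.2 (Or.inl hz))
  have h1 := Complex.circleIntegral_sub_center_inv_smul_eq_of_differentiable_on_annulus_off_countable
    (c := 0) (r := 1) (R := R) one_pos hR (f := f) (s := ∅) countable_empty
    (fun z hz => by
      have h2 : ‖z‖ ≤ R := by simpa using hz.1
      have h3 : 1 ≤ ‖z‖ := by simpa using hz.2
      exact (hd z h3 h2).continuousAt.continuousWithinAt)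
    (fun z hz => by
      have h2 : ‖z‖ < R := by simpa using hz.1.1
      have h3 : 1 < ‖z‖ := by simpa using hz.1.2
      exact hd z h3.le h2.le)
  have h4 := Real.circleAverage_eq_circleIntegral (f := f) (c := 0) hR0.ne'
  have h5 := Real.circleAverage_eq_circleIntegral (f := f) (c := 0) (one_ne_zero (α := ℝ))
  rw [h1, ← h5, circleAverage_eq_circ, circleAverage_eq_circ] at h4
  exact h4

theorem uu_neg (t : ℝ) : uu 1 (-t) = uu 1 t := by
  rw [uu_one, uu_one]
  congr 2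
  rw [mul_neg, Real.cos_neg]

theorem cs_neg (k : ℕ) (t : ℝ) : cs k (-t) = cs k t := by
  unfold cs
  rw [mul_neg, Real.cos_neg]

theorem sn_neg (k : ℕ) (t : ℝ) : sn k (-t) = -sn k t := by
  unfold sn
  rw [mul_neg, Real.sin_neg]

theorem cs_add_one (k : ℕ) (t : ℝ) : cs k (t + 1) = cs k t := by
  unfold cs
  have e : 2 * Real.pi * k * (t + 1) = 2 * Real.pi * k * t + k * (2 * Real.pi) := by ring
  rw [e, Real.cos_add_nat_mul_two_pi]

theorem sn_add_one (k : ℕ) (t : ℝ) : sn k (t + 1) = sn k t := by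
  unfold sn
  have e : 2 * Real.pi * k * (t + 1) = 2 * Real.pi * k * t + k * (2 * Real.pi) := by ring
  rw [e, Real.sin_add_nat_mul_two_pi]

/-- odd periodic functions have mean zero -/
theorem integral_odd {E : Type*} [NormedAddCommGroup E] [NormedSpace ℝ E] {f : ℝ → E}
    (hp : ∀ t, f (t + 1) = f t) (ho : ∀ t, f (-t) = -f t) : ∫ t in (0 : ℝ)..1, f t = 0 := by
  have h1 : ∫ t in (0 : ℝ)..1, f (-t) = ∫ t in (-1 : ℝ)..0, f t := by
    rw [intervalIntegral.integral_comp_neg]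
    simp
  have h2 : ∫ t in (-1 : ℝ)..0, f t = ∫ t in (0 : ℝ)..1, f t := by
    have h3 := (show Function.Periodic f 1 from hp).intervalIntegral_add_eq (-1) 0
    simpa using h3
  have h3 : ∫ t in (0 : ℝ)..1, f (-t) = -∫ t in (0 : ℝ)..1, f t := by
    simp only [ho]
    rw [intervalIntegral.integral_neg]
  have h4 : ∫ t in (0 : ℝ)..1, f t = -∫ t in (0 : ℝ)..1, f t := by
    rw [← h3, h1, h2]
  have h5 : (2 : ℝ) • ∫ t in (0 : ℝ)..1, f t = 0 := by
    rw [two_smul]
    nth_rewrite 1 [h4]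
    exact neg_add_cancel _
  exact (smul_eq_zero.1 h5).resolve_left two_ne_zero

section

variable {V : Set ℂ} (hVo : IsOpen V) {R : ℝ} (hR : 1 ≤ R)
  (hV : ∀ z : ℂ, 1 ≤ ‖z‖ → ‖z‖ ≤ R → z + z⁻¹ ∈ V) {g : ℂ → ℂ} (hg : DifferentiableOn ℂ g V)

include hVo hR hV hg

theorem avg_pow_nat (k : ℕ) : ∫ t in (0 : ℝ)..1, g (uu R t) * circ 1 t ^ (k : ℤ) =
    ((R ^ k)⁻¹ : ℝ) * ∫ t in (0 : ℝ)..1, g (uu 1 t) * cs k t := by
  have hR0 : 0 < R := one_pos.trans_le hR
  have hRc : (R : ℂ) ≠ 0 := by exact_mod_cast hR0.ne'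
  have h1 := avg_zpow hVo hR hV hg (k : ℤ)
  have h2 : ∀ t, g (uu R t) * circ R t ^ (k : ℤ) =
      ((R ^ k : ℝ) : ℂ) * (g (uu R t) * circ 1 t ^ (k : ℤ)) := by
    intro t
    rw [circ_eq_mul R t, mul_zpow]
    push_cast
    rw [zpow_natCast]
    ring
  simp only [h2] at h1
  rw [intervalIntegral.integral_const_mul] at h1
  have hgc : Continuous fun t => g (uu 1 t) :=
    hg.continuousOn.comp_continuous (continuous_uu one_pos) (uu_one_mem' hR hV)
  have h3 : ∫ t in (0 : ℝ)..1, g (uu 1 t) * circ 1 t ^ (k : ℤ) =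
      ∫ t in (0 : ℝ)..1, g (uu 1 t) * cs k t := by
    simp only [circ_one_pow_nat, mul_add]
    rw [intervalIntegral.integral_add]
    · have h4 : ∫ t in (0 : ℝ)..1, g (uu 1 t) * ((sn k t : ℂ) * Complex.I) = 0 := by
        refine integral_odd (fun t => ?_) fun t => ?_
        · rw [uu_add_one, sn_add_one]
        · rw [uu_neg, sn_neg]
          push_cast
          ring
      rw [h4, add_zero]
    · exact (hgc.mul (Complex.continuous_ofReal.comp (continuous_cs k))).intervalIntegrable _ _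
    · exact (hgc.mul ((Complex.continuous_ofReal.comp (continuous_sn k)).mul
        continuous_const)).intervalIntegrable _ _
  rw [← h3, ← h1]
  push_cast
  rw [← mul_assoc, inv_mul_cancel₀ (pow_ne_zero k hRc), one_mul]

theorem avg_pow_neg (k : ℕ) : ∫ t in (0 : ℝ)..1, g (uu R t) * circ 1 t ^ (-(k : ℤ)) =
    (R ^ k : ℝ) * ∫ t in (0 : ℝ)..1, g (uu 1 t) * cs k t := by
  have hR0 : 0 < R := one_pos.trans_le hR
  have hRc : (R : ℂ) ≠ 0 := by exact_mod_cast hR0.ne'
  have h1 := avg_zpow hVo hR hV hg (-(k : ℤ))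
  have h2 : ∀ t, g (uu R t) * circ R t ^ (-(k : ℤ)) =
      (((R ^ k)⁻¹ : ℝ) : ℂ) * (g (uu R t) * circ 1 t ^ (-(k : ℤ))) := by
    intro t
    rw [circ_eq_mul R t, mul_zpow]
    push_cast
    rw [zpow_neg (R : ℂ), zpow_natCast]
    ring
  simp only [h2] at h1
  rw [intervalIntegral.integral_const_mul] at h1
  have hgc : Continuous fun t => g (uu 1 t) :=
    hg.continuousOn.comp_continuous (continuous_uu one_pos) (uu_one_mem' hR hV)
  have h3 : ∫ t in (0 : ℝ)..1, g (uu 1 t) * circ 1 t ^ (-(k : ℤ)) =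
      ∫ t in (0 : ℝ)..1, g (uu 1 t) * cs k t := by
    simp only [circ_one_pow_neg, mul_sub]
    rw [intervalIntegral.integral_sub]
    · have h4 : ∫ t in (0 : ℝ)..1, g (uu 1 t) * ((sn k t : ℂ) * Complex.I) = 0 := by
        refine integral_odd (fun t => ?_) fun t => ?_
        · rw [uu_add_one, sn_add_one]
        · rw [uu_neg, sn_neg]
          push_cast
          ring
      rw [h4, sub_zero]
    · exact (hgc.mul (Complex.continuous_ofReal.comp (continuous_cs k))).intervalIntegrable _ _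
    · exact (hgc.mul ((Complex.continuous_ofReal.comp (continuous_sn k)).mul
        continuous_const)).intervalIntegrable _ _
  rw [← h3, ← h1]
  push_cast
  rw [← mul_assoc, mul_inv_cancel₀ (pow_ne_zero k hRc), one_mul]

/-- The cosine coefficients on the ellipse. -/
theorem avg_cs (k : ℕ) : ∫ t in (0 : ℝ)..1, g (uu R t) * cs k t =
    (((R ^ k + (R ^ k)⁻¹) / 2 : ℝ) : ℂ) * ∫ t in (0 : ℝ)..1, g (uu 1 t) * cs k t := by
  have hR0 : 0 < R := one_pos.trans_le hR
  have hgc : Continuous fun t => g (uu R t) :=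
    hg.continuousOn.comp_continuous (continuous_uu hR0) (uu_mem hR hV)
  have h1 := avg_pow_nat hVo hR hV hg k
  have h2 := avg_pow_neg hVo hR hV hg k
  have h3 : ∫ t in (0 : ℝ)..1, g (uu R t) * cs k t =
      (2⁻¹ : ℂ) * ((∫ t in (0 : ℝ)..1, g (uu R t) * circ 1 t ^ (k : ℤ)) +
      ∫ t in (0 : ℝ)..1, g (uu R t) * circ 1 t ^ (-(k : ℤ))) := by
    have hc1 : Continuous fun t => g (uu R t) * circ 1 t ^ (k : ℤ) :=
      hgc.mul (continuous_circ_zpow one_pos _)
    have hc2 : Continuous fun t => g (uu R t) * circ 1 t ^ (-(k : ℤ)) :=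
      hgc.mul (continuous_circ_zpow one_pos _)
    rw [← intervalIntegral.integral_add (hc1.intervalIntegrable _ _)
      (hc2.intervalIntegrable _ _), ← intervalIntegral.integral_const_mul]
    refine intervalIntegral.integral_congr fun t _ => ?_
    simp only [circ_one_pow_nat, circ_one_pow_neg]
    ring
  rw [h3, h1, h2]
  push_cast
  ring

/-- The sine coefficients on the ellipse. -/
theorem avg_sn (k : ℕ) : ∫ t in (0 : ℝ)..1, g (uu R t) * sn k t =
    Complex.I * ((((R ^ k - (R ^ k)⁻¹) / 2 : ℝ) : ℂ) *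
      ∫ t in (0 : ℝ)..1, g (uu 1 t) * cs k t) := by
  have hR0 : 0 < R := one_pos.trans_le hR
  have hgc : Continuous fun t => g (uu R t) :=
    hg.continuousOn.comp_continuous (continuous_uu hR0) (uu_mem hR hV)
  have h1 := avg_pow_nat hVo hR hV hg k
  have h2 := avg_pow_neg hVo hR hV hg k
  have h3 : ∫ t in (0 : ℝ)..1, g (uu R t) * sn k t =
      (-Complex.I / 2) * ((∫ t in (0 : ℝ)..1, g (uu R t) * circ 1 t ^ (k : ℤ)) -
      ∫ t in (0 : ℝ)..1, g (uu R t) * circ 1 t ^ (-(k : ℤ))) := by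
    have hc1 : Continuous fun t => g (uu R t) * circ 1 t ^ (k : ℤ) :=
      hgc.mul (continuous_circ_zpow one_pos _)
    have hc2 : Continuous fun t => g (uu R t) * circ 1 t ^ (-(k : ℤ)) :=
      hgc.mul (continuous_circ_zpow one_pos _)
    rw [← intervalIntegral.integral_sub (hc1.intervalIntegrable _ _)
      (hc2.intervalIntegrable _ _), ← intervalIntegral.integral_const_mul]
    refine intervalIntegral.integral_congr fun t _ => ?_
    simp only [circ_one_pow_nat, circ_one_pow_neg]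
    linear_combination (g (uu R t) * sn k t) * Complex.I_mul_I
  rw [h3, h1, h2]
  push_cast
  ring

end

/-- `(R^k + R^(-k)) / 2` -/
noncomputable def ch (R : ℝ) (k : ℕ) : ℝ := (R ^ k + (R ^ k)⁻¹) / 2

/-- `(R^k - R^(-k)) / 2` -/
noncomputable def sh (R : ℝ) (k : ℕ) : ℝ := (R ^ k - (R ^ k)⁻¹) / 2

theorem ch_pos {R : ℝ} (hR : 0 < R) (k : ℕ) : 0 < ch R k := by
  unfold ch
  positivity

theorem sh_pos {R : ℝ} (hR : 1 < R) {k : ℕ} (hk : 1 ≤ k) : 0 < sh R k := by
  unfold sh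
  have h1 : 1 < R ^ k := one_lt_pow₀ hR (by omega)
  have h2 : (R ^ k)⁻¹ < 1 := inv_lt_one_of_one_lt₀ h1
  linarith

theorem int_sum {u : ℕ → ℝ → ℂ} (hu : ∀ k, Continuous (u k)) (c : ℕ → ℂ) (S : Finset ℕ) :
    ∫ t in (0 : ℝ)..1, ∑ k ∈ S, c k * u k t = ∑ k ∈ S, c k * ∫ t in (0 : ℝ)..1, u k t := by
  have h : ∀ k ∈ S, IntervalIntegrable (fun t => c k * u k t) volume 0 1 := fun k _ =>
    ((hu k).intervalIntegrable _ _).const_mul _
  rw [intervalIntegral.integral_finsetSum h]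
  exact Finset.sum_congr rfl fun k _ => intervalIntegral.integral_const_mul _ _

theorem int_add_sum {u : ℕ → ℝ → ℂ} (hu : ∀ k, Continuous (u k)) (c : ℕ → ℂ) (S : Finset ℕ) :
    ∫ t in (0 : ℝ)..1, (u 0 t + ∑ k ∈ S, c k * u k t) =
      (∫ t in (0 : ℝ)..1, u 0 t) + ∑ k ∈ S, c k * ∫ t in (0 : ℝ)..1, u k t := by
  have h : Continuous fun t => ∑ k ∈ S, c k * u k t :=
    continuous_finsetSum _ fun k _ => continuous_const.mul (hu k)
  rw [intervalIntegral.integral_add ((hu 0).intervalIntegrable _ _) (h.intervalIntegrable _ _),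
    int_sum hu]

/-- a trigonometric polynomial -/
noncomputable def bet (a : ℕ → ℝ) (M : ℕ) (t : ℝ) : ℝ := ∑ k ∈ Finset.Icc 1 M, a k * cs k t

/-- the even density -/
noncomputable def f1 (R : ℝ) (a : ℕ → ℝ) (M : ℕ) (t : ℝ) : ℝ :=
  1 + ∑ k ∈ Finset.Icc 1 M, a k / ch R k * cs k t

/-- the odd density -/
noncomputable def f2 (R : ℝ) (a : ℕ → ℝ) (M : ℕ) (t : ℝ) : ℝ :=
  ∑ k ∈ Finset.Icc 1 M, a k / sh R k * sn k t

theorem continuous_bet (a : ℕ → ℝ) (M : ℕ) : Continuous (bet a M) :=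
  continuous_finsetSum _ fun k _ => continuous_const.mul (continuous_cs k)

theorem continuous_f1 (R : ℝ) (a : ℕ → ℝ) (M : ℕ) : Continuous (f1 R a M) :=
  continuous_const.add (continuous_finsetSum _ fun k _ => continuous_const.mul (continuous_cs k))

theorem continuous_f2 (R : ℝ) (a : ℕ → ℝ) (M : ℕ) : Continuous (f2 R a M) :=
  continuous_finsetSum _ fun k _ => continuous_const.mul (continuous_sn k)

section

variable {V : Set ℂ} (hVo : IsOpen V) {R : ℝ} (hR : 1 < R)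
  (hV : ∀ z : ℂ, 1 ≤ ‖z‖ → ‖z‖ ≤ R → z + z⁻¹ ∈ V) {g : ℂ → ℂ} (hg : DifferentiableOn ℂ g V)

include hVo hR hV hg

theorem avg_f1 (a : ℕ → ℝ) (M : ℕ) : ∫ t in (0 : ℝ)..1, g (uu R t) * f1 R a M t =
    ∫ t in (0 : ℝ)..1, g (uu 1 t) * ((1 + bet a M t : ℝ) : ℂ) := by
  have hR0 : 0 < R := by linarith
  have hgc : Continuous fun t => g (uu R t) :=
    hg.continuousOn.comp_continuous (continuous_uu hR0) (uu_mem hR.le hV)
  have hgc1 : Continuous fun t => g (uu 1 t) :=
    hg.continuousOn.comp_continuous (continuous_uu one_pos) (uu_one_mem' hR.le hV)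
  have hi : ∀ k, Continuous (fun t => g (uu R t) * cs k t) := fun k =>
    hgc.mul (Complex.continuous_ofReal.comp (continuous_cs k))
  have hi1 : ∀ k, Continuous (fun t => g (uu 1 t) * cs k t) := fun k =>
    hgc1.mul (Complex.continuous_ofReal.comp (continuous_cs k))
  have h1 : ∀ t, g (uu R t) * f1 R a M t = g (uu R t) * cs 0 t +
      ∑ k ∈ Finset.Icc 1 M, ((a k / ch R k : ℝ) : ℂ) * (g (uu R t) * cs k t) := by
    intro t
    unfold f1
    push_cast
    rw [mul_add, Finset.mul_sum, cs_zero]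
    push_cast
    congr 1
    exact Finset.sum_congr rfl fun k _ => by ring
  have h2 : ∀ t, g (uu 1 t) * ((1 + bet a M t : ℝ) : ℂ) = g (uu 1 t) * cs 0 t +
      ∑ k ∈ Finset.Icc 1 M, ((a k : ℝ) : ℂ) * (g (uu 1 t) * cs k t) := by
    intro t
    unfold bet
    push_cast
    rw [mul_add, Finset.mul_sum, cs_zero]
    push_cast
    congr 1
    exact Finset.sum_congr rfl fun k _ => by ring
  simp only [h1, h2]
  rw [int_add_sum hi fun k => ((a k / ch R k : ℝ) : ℂ),
    int_add_sum hi1 fun k => ((a k : ℝ) : ℂ), avg_cs hVo hR.le hV hg 0]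
  congr 1
  · simp
  · refine Finset.sum_congr rfl fun k _ => ?_
    rw [avg_cs hVo hR.le hV hg k]
    have h3 : ((ch R k : ℝ) : ℂ) ≠ 0 := by exact_mod_cast (ch_pos hR0 k).ne'
    have h4 : (((R ^ k + (R ^ k)⁻¹) / 2 : ℝ) : ℂ) = ((ch R k : ℝ) : ℂ) := rfl
    rw [h4, Complex.ofReal_div, ← mul_assoc, div_mul_cancel₀ _ h3]

theorem avg_f2 (a : ℕ → ℝ) (M : ℕ) : ∫ t in (0 : ℝ)..1, g (uu R t) * f2 R a M t =
    Complex.I * ∫ t in (0 : ℝ)..1, g (uu 1 t) * ((bet a M t : ℝ) : ℂ) := by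
  have hR0 : 0 < R := by linarith
  have hgc : Continuous fun t => g (uu R t) :=
    hg.continuousOn.comp_continuous (continuous_uu hR0) (uu_mem hR.le hV)
  have hgc1 : Continuous fun t => g (uu 1 t) :=
    hg.continuousOn.comp_continuous (continuous_uu one_pos) (uu_one_mem' hR.le hV)
  have hi : ∀ k, Continuous (fun t => g (uu R t) * sn k t) := fun k =>
    hgc.mul (Complex.continuous_ofReal.comp (continuous_sn k))
  have hi1 : ∀ k, Continuous (fun t => g (uu 1 t) * cs k t) := fun k =>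
    hgc1.mul (Complex.continuous_ofReal.comp (continuous_cs k))
  have h1 : ∀ t, g (uu R t) * f2 R a M t =
      ∑ k ∈ Finset.Icc 1 M, ((a k / sh R k : ℝ) : ℂ) * (g (uu R t) * sn k t) := by
    intro t
    unfold f2
    push_cast
    rw [Finset.mul_sum]
    exact Finset.sum_congr rfl fun k _ => by ring
  have h2 : ∀ t, g (uu 1 t) * ((bet a M t : ℝ) : ℂ) =
      ∑ k ∈ Finset.Icc 1 M, ((a k : ℝ) : ℂ) * (g (uu 1 t) * cs k t) := by
    intro t
    unfold bet
    push_cast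
    rw [Finset.mul_sum]
    exact Finset.sum_congr rfl fun k _ => by ring
  simp only [h1, h2]
  rw [int_sum hi fun k => ((a k / sh R k : ℝ) : ℂ), int_sum hi1 fun k => ((a k : ℝ) : ℂ),
    Finset.mul_sum]
  refine Finset.sum_congr rfl fun k hk => ?_
  rw [avg_sn hVo hR.le hV hg k]
  have h3 : ((sh R k : ℝ) : ℂ) ≠ 0 := by
    exact_mod_cast (sh_pos hR (Finset.mem_Icc.1 hk).1).ne'
  have h4 : (((R ^ k - (R ^ k)⁻¹) / 2 : ℝ) : ℂ) = ((sh R k : ℝ) : ℂ) := rfl
  rw [h4, Complex.ofReal_div]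
  field_simp

end

end Pool.Agent.N686.EL
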