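import Pool.Agent.N686.EL.Core
set_option autoImplicit false

/-!
The Goluzin type inequality for finitely many Fourier coefficients.
-/

namespace Pool.Agent.N686.EL

open MeasureTheory Set Filter Topology Metric Polynomial

open Pool.Agent.TH826.MK (circ norm_circ circ_add_one contDiff_circ hasDerivAt_circ circ_eq)

open Pool.Agent.Y775.CC

set_option maxHeartbeats 400000

theorem f1_add_one (q : ℝ) (a : ℕ → ℝ) (M : ℕ) (t : ℝ) : f1 q a M (t + 1) = f1 q a M t := by
  unfold f1
  simp only [cs_add_one]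

theorem f2_add_one (q : ℝ) (a : ℕ → ℝ) (M : ℕ) (t : ℝ) : f2 q a M (t + 1) = f2 q a M t := by
  unfold f2
  simp only [sn_add_one]

theorem int_f1 (q : ℝ) (a : ℕ → ℝ) (M : ℕ) : ∫ t in (0 : ℝ)..1, f1 q a M t = 1 := by
  unfold f1
  have hc : Continuous fun t => ∑ k ∈ Finset.Icc 1 M, a k / ch q k * cs k t :=
    continuous_finsetSum _ fun k _ => continuous_const.mul (continuous_cs k)
  rw [intervalIntegral.integral_add intervalIntegrable_const (hc.intervalIntegrable _ _),
    int_sum_real (fun k => a k / ch q k) _ fun k _ => (continuous_cs k).intervalIntegrable _ _]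
  have h3 : ∑ k ∈ Finset.Icc 1 M, a k / ch q k * ∫ t in (0 : ℝ)..1, cs k t = 0 :=
    Finset.sum_eq_zero fun k hk => by rw [int_cs k (Finset.mem_Icc.1 hk).1, mul_zero]
  rw [h3]
  simp

theorem int_f2 (q : ℝ) (a : ℕ → ℝ) (M : ℕ) : ∫ t in (0 : ℝ)..1, f2 q a M t = 0 := by
  unfold f2
  rw [int_sum_real (fun k => a k / sh q k) _ fun k _ => (continuous_sn k).intervalIntegrable _ _]
  exact Finset.sum_eq_zero fun k _ => by rw [integral_odd (sn_add_one k) (sn_neg k), mul_zero]

theorem cont_pot1 {q : ℝ} (hq : 1 < q) (a : ℕ → ℝ) (M : ℕ) :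
    Continuous fun θ => ∫ t in (0 : ℝ)..1, hh q t θ * f1 q a M t := by
  simp only [pot_f1 hq a M]
  exact continuous_const.add (continuous_finsetSum _ fun k _ =>
    continuous_const.mul (continuous_cs k))

theorem cont_pot2 {q : ℝ} (hq : 1 < q) (a : ℕ → ℝ) (M : ℕ) :
    Continuous fun θ => ∫ t in (0 : ℝ)..1, hh q t θ * f2 q a M t := by
  simp only [pot_f2 hq a M]
  exact continuous_finsetSum _ fun k _ => continuous_const.mul (continuous_sn k)

theorem eA_smul {n : ℕ} (φ : Fin n → ℂ → ℂ) (q : ℝ) (i j : Fin n) (f g : ℝ → ℝ) (c d : ℝ) :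
    eA φ q i j (fun t => c * f t) (fun t => d * g t) = c * d * eA φ q i j f g := by
  unfold eA
  rw [← intervalIntegral.integral_const_mul]
  refine intervalIntegral.integral_congr fun θ _ => ?_
  have h1 : ∀ t, lp φ q i j t θ * (c * f t) = c * (lp φ q i j t θ * f t) := fun t => by ring
  simp only [h1]
  rw [intervalIntegral.integral_const_mul]
  ring

theorem eB_smul (q : ℝ) (f : ℝ → ℝ) (c : ℝ) :
    eB q (fun t => c * f t) = c ^ 2 * eB q f := by
  unfold eB
  rw [← intervalIntegral.integral_const_mul]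
  refine intervalIntegral.integral_congr fun θ _ => ?_
  have h1 : ∀ t, hh q t θ * (c * f t) = c * (hh q t θ * f t) := fun t => by ring
  simp only [h1]
  rw [intervalIntegral.integral_const_mul]
  ring

/-- the loss -/
noncomputable def loss (q : ℝ) (a : ℕ → ℝ) (M : ℕ) : ℝ :=
  ∑ k ∈ Finset.Icc 1 M, a k ^ 2 * (2 / (k * (q ^ (2 * k) - (q ^ (2 * k))⁻¹)))

section

variable {G : ℂ[X]} {n : ℕ} {V : Set ℂ} {φ : Fin n → ℂ → ℂ} (H : Branches G V φ) {q : ℝ}
  (hq : 1 < q) (hV : ∀ z : ℂ, 1 ≤ ‖z‖ → ‖z‖ ≤ q → z + z⁻¹ ∈ V)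

include H

theorem lp_symm (i j : Fin n) (t θ : ℝ) : lp φ 1 i j t θ = lp φ 1 j i θ t := by
  unfold lp
  rw [psi_comm H i j]

theorem continuous_lp_one1 (i j : Fin n) (θ : ℝ) : Continuous fun t => lp φ 1 i j t θ := by
  have h1 : Continuous fun t : ℝ => ((θ, t) : ℝ × ℝ) := continuous_const.prodMk continuous_id
  have h2 := (continuous_lp_one H i j).comp h1
  exact h2

theorem continuous_lp_one_int (i j : Fin n) {f : ℝ → ℝ} (hf : Continuous f) :
    Continuous fun θ => ∫ t in (0 : ℝ)..1, lp φ 1 i j t θ * f t := by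
  have h3 : Continuous (Function.uncurry fun θ t => lp φ 1 i j t θ * f t) :=
    (continuous_lp_one H i j).mul (hf.comp continuous_snd)
  exact intervalIntegral.continuous_parametric_intervalIntegral_of_continuous'
    (μ := volume) h3 0 1

/-- Symmetry of the smooth part. -/
theorem eA_symm (i j : Fin n) {f g : ℝ → ℝ} (hf : Continuous f) (hg : Continuous g) :
    eA φ 1 i j f g = eA φ 1 j i g f := by
  unfold eA
  have h1 : ∀ θ, (∫ t in (0 : ℝ)..1, lp φ 1 i j t θ * f t) * g θ =
      ∫ t in (0 : ℝ)..1, lp φ 1 i j t θ * f t * g θ := fun θ => by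
    rw [intervalIntegral.integral_mul_const]
  have h2 : ∀ t, (∫ θ in (0 : ℝ)..1, lp φ 1 j i θ t * g θ) * f t =
      ∫ θ in (0 : ℝ)..1, lp φ 1 i j t θ * f t * g θ := fun t => by
    rw [← intervalIntegral.integral_mul_const]
    refine intervalIntegral.integral_congr fun θ _ => ?_
    rw [lp_symm H j i]
    ring
  simp only [h1, h2]
  refine swap_cont (F := fun θ t => lp φ 1 i j t θ * f t * g θ) ?_
  exact ((continuous_lp_one H i j).mul (hf.comp continuous_snd)).mul (hg.comp continuous_fst)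

theorem eA_add_left (i j : Fin n) {f f' g : ℝ → ℝ} (hf : Continuous f) (hf' : Continuous f')
    (hg : Continuous g) :
    eA φ 1 i j (fun t => f t + f' t) g = eA φ 1 i j f g + eA φ 1 i j f' g := by
  unfold eA
  have hj1 : IntervalIntegrable (fun θ => (∫ t in (0 : ℝ)..1, lp φ 1 i j t θ * f t) * g θ)
      volume 0 1 := ((continuous_lp_one_int H i j hf).mul hg).intervalIntegrable _ _
  have hj2 : IntervalIntegrable (fun θ => (∫ t in (0 : ℝ)..1, lp φ 1 i j t θ * f' t) * g θ)
      volume 0 1 := ((continuous_lp_one_int H i j hf').mul hg).intervalIntegrable _ _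
  rw [← intervalIntegral.integral_add hj1 hj2]
  refine intervalIntegral.integral_congr fun θ _ => ?_
  have hi1 : IntervalIntegrable (fun t => lp φ 1 i j t θ * f t) volume 0 1 :=
    ((continuous_lp_one1 H i j θ).mul hf).intervalIntegrable _ _
  have hi2 : IntervalIntegrable (fun t => lp φ 1 i j t θ * f' t) volume 0 1 :=
    ((continuous_lp_one1 H i j θ).mul hf').intervalIntegrable _ _
  have h1 : ∀ t, lp φ 1 i j t θ * (f t + f' t) = lp φ 1 i j t θ * f t + lp φ 1 i j t θ * f' t :=
    fun t => by ring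
  simp only [h1]
  rw [intervalIntegral.integral_add hi1 hi2]
  ring

theorem eA_add_right (i j : Fin n) {f g g' : ℝ → ℝ} (hf : Continuous f) (hg : Continuous g)
    (hg' : Continuous g') :
    eA φ 1 i j f (fun t => g t + g' t) = eA φ 1 i j f g + eA φ 1 i j f g' := by
  have hc : Continuous fun t => g t + g' t := hg.add hg'
  rw [eA_symm H i j hf hc, eA_add_left H j i hg hg' hf, ← eA_symm H i j hf hg,
    ← eA_symm H i j hf hg']

omit H in
theorem eA_one (i j : Fin n) (g : ℝ → ℝ) :
    eA φ 1 i j (fun _ => 1) g = ∫ θ in (0 : ℝ)..1, Jm φ i j θ * g θ := by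
  unfold eA Jm lp
  simp only [mul_one]

include hq hV

/-- **The inequality for finitely many coefficients.** -/
theorem core (c : Fin n → ℝ) (hc : ∑ i, c i = 0) (a : Fin n → ℕ → ℝ) (M : ℕ) :
    ∑ j, ∑ i, c i * c j * ∫ θ in (0 : ℝ)..1, Jm φ i j θ * (1 + 2 * bet (a j) M θ) ≤
      -∑ i, c i ^ 2 * (Real.log q - loss q (a i) M) := by
  have hVo := H.isOpen
  -- the two energy inequalities
  have E1 := energy_le H hq hV (f := fun i t => c i * f1 q (a i) M t)
    (fun i => continuous_const.mul (continuous_f1 q (a i) M))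
    (fun i t => by rw [f1_add_one])
    (by
      have h1 : ∀ i, ∫ t in (0 : ℝ)..1, c i * f1 q (a i) M t = c i := fun i => by
        rw [intervalIntegral.integral_const_mul, int_f1, mul_one]
      simp only [h1]
      exact hc)
    (fun i => by
      have h1 : ∀ θ, ∫ t in (0 : ℝ)..1, hh q t θ * (c i * f1 q (a i) M t) =
          c i * ∫ t in (0 : ℝ)..1, hh q t θ * f1 q (a i) M t := fun θ => by
        rw [← intervalIntegral.integral_const_mul]
        exact intervalIntegral.integral_congr fun t _ => by ring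
      simp only [h1]
      exact continuous_const.mul (cont_pot1 hq (a i) M))
  have E2 := energy_le H hq hV (f := fun i t => c i * f2 q (a i) M t)
    (fun i => continuous_const.mul (continuous_f2 q (a i) M))
    (fun i t => by rw [f2_add_one])
    (by
      have h1 : ∀ i, ∫ t in (0 : ℝ)..1, c i * f2 q (a i) M t = 0 := fun i => by
        rw [intervalIntegral.integral_const_mul, int_f2, mul_zero]
      simp only [h1]
      simp)
    (fun i => by
      have h1 : ∀ θ, ∫ t in (0 : ℝ)..1, hh q t θ * (c i * f2 q (a i) M t) =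
          c i * ∫ t in (0 : ℝ)..1, hh q t θ * f2 q (a i) M t := fun θ => by
        rw [← intervalIntegral.integral_const_mul]
        exact intervalIntegral.integral_congr fun t _ => by ring
      simp only [h1]
      exact continuous_const.mul (cont_pot2 hq (a i) M))
  simp only [eA_smul, eB_smul] at E1 E2
  -- the smooth parts
  have hb : ∀ i, Continuous (bet (a i) M) := fun i => continuous_bet (a i) M
  have h1b : ∀ i, Continuous fun t => 1 + bet (a i) M t := fun i => continuous_const.add (hb i)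
  have A1 : ∀ i j, eA φ q i j (f1 q (a i) M) (f1 q (a j) M) =
      eA φ 1 i j (fun t => 1 + bet (a i) M t) (fun t => 1 + bet (a j) M t) := by
    intro i j
    rw [eA_eq H hq hV i j (continuous_f1 q (a i) M) (continuous_f1 q (a j) M) (h1b i) (h1b j)
      (r := 1) (by simp) (rep_f1 hVo hq hV (a i) M) (rep_f1 hVo hq hV (a j) M), one_mul]
  have A2 : ∀ i j, eA φ q i j (f2 q (a i) M) (f2 q (a j) M) =
      -eA φ 1 i j (bet (a i) M) (bet (a j) M) := by
    intro i j
    rw [eA_eq H hq hV i j (continuous_f2 q (a i) M) (continuous_f2 q (a j) M) (hb i) (hb j)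
      (r := -1) (by simp) (rep_f2 hVo hq hV (a i) M) (rep_f2 hVo hq hV (a j) M)]
    ring
  have h1c : Continuous fun _ : ℝ => (1 : ℝ) := continuous_const
  have A3 : ∀ i j, eA φ q i j (f1 q (a i) M) (f1 q (a j) M) +
      eA φ q i j (f2 q (a i) M) (f2 q (a j) M) =
      (∫ θ in (0 : ℝ)..1, Jm φ i j θ * 1) + (∫ θ in (0 : ℝ)..1, Jm φ i j θ * bet (a j) M θ) +
      ∫ θ in (0 : ℝ)..1, Jm φ j i θ * bet (a i) M θ := by
    intro i j
    rw [A1, A2, eA_add_left H i j h1c (hb i) (h1b j), eA_add_right H i j h1c h1c (hb j),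
      eA_add_right H i j (hb i) h1c (hb j), eA_one i j, eA_one i j,
      eA_symm H i j (hb i) h1c, eA_one j i]
    ring
  have hB : ∀ i, eB q (f1 q (a i) M) + eB q (f2 q (a i) M) = Real.log q - loss q (a i) M :=
    fun i => energy_add hq (a i) M
  -- summation
  set P : Fin n → Fin n → ℝ := fun i j => ∫ θ in (0 : ℝ)..1, Jm φ i j θ * 1 with hP
  set Q : Fin n → Fin n → ℝ := fun i j => ∫ θ in (0 : ℝ)..1, Jm φ i j θ * bet (a j) M θ with hQ
  have hJ : ∀ i j, Continuous (Jm φ i j) := continuous_Jm H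
  have S0 : ∀ i j, ∫ θ in (0 : ℝ)..1, Jm φ i j θ * (1 + 2 * bet (a j) M θ) =
      P i j + 2 * Q i j := by
    intro i j
    have h2 : ∀ θ, Jm φ i j θ * (1 + 2 * bet (a j) M θ) =
        Jm φ i j θ * 1 + 2 * (Jm φ i j θ * bet (a j) M θ) := fun θ => by ring
    have hj1 : IntervalIntegrable (fun θ => Jm φ i j θ * 1) volume 0 1 :=
      ((hJ i j).mul h1c).intervalIntegrable _ _
    have hj2 : IntervalIntegrable (fun θ => 2 * (Jm φ i j θ * bet (a j) M θ)) volume 0 1 :=
      (((hJ i j).mul (hb j)).intervalIntegrable _ _).const_mul _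
    simp only [h2]
    rw [intervalIntegral.integral_add hj1 hj2, intervalIntegral.integral_const_mul]
  have S1 : ∑ j, ∑ i, c i * c j * (P i j + 2 * Q i j) =
      (∑ j, ∑ i, c i * c j * eA φ q i j (f1 q (a i) M) (f1 q (a j) M)) +
      ∑ j, ∑ i, c i * c j * eA φ q i j (f2 q (a i) M) (f2 q (a j) M) := by
    have h3 : (∑ j, ∑ i, c i * c j * eA φ q i j (f1 q (a i) M) (f1 q (a j) M)) +
      ∑ j, ∑ i, c i * c j * eA φ q i j (f2 q (a i) M) (f2 q (a j) M) =
      ∑ j, ∑ i, (c i * c j * (P i j + Q i j) + c i * c j * Q j i) := by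
      rw [← Finset.sum_add_distrib]
      refine Finset.sum_congr rfl fun j _ => ?_
      rw [← Finset.sum_add_distrib]
      refine Finset.sum_congr rfl fun i _ => ?_
      have h4 := A3 i j
      have h5 : c i * c j * eA φ q i j (f1 q (a i) M) (f1 q (a j) M) +
          c i * c j * eA φ q i j (f2 q (a i) M) (f2 q (a j) M) =
          c i * c j * (eA φ q i j (f1 q (a i) M) (f1 q (a j) M) +
          eA φ q i j (f2 q (a i) M) (f2 q (a j) M)) := by ring
      rw [h5, h4]
      simp only [hP, hQ]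
      ring
    rw [h3]
    simp only [Finset.sum_add_distrib]
    have h4 : ∑ j, ∑ i, c i * c j * Q j i = ∑ j, ∑ i, c i * c j * Q i j := by
      rw [Finset.sum_comm]
      exact Finset.sum_congr rfl fun j _ => Finset.sum_congr rfl fun i _ => by ring
    rw [h4, ← Finset.sum_add_distrib]
    refine Finset.sum_congr rfl fun j _ => ?_
    rw [← Finset.sum_add_distrib]
    exact Finset.sum_congr rfl fun i _ => by ring
  have S2 : ∑ i, c i ^ 2 * (Real.log q - loss q (a i) M) =
      (∑ i, c i ^ 2 * eB q (f1 q (a i) M)) + ∑ i, c i ^ 2 * eB q (f2 q (a i) M) := by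
    rw [← Finset.sum_add_distrib]
    refine Finset.sum_congr rfl fun i _ => ?_
    rw [← hB i]
    ring
  simp only [S0]
  rw [S1, S2]
  linarith

end

end Pool.Agent.N686.EL
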