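import Pool.Agent.N686.EL.Lim
set_option autoImplicit false

/-!
The estimate of the loss.
-/

namespace Pool.Agent.N686.EL

open Set Filter Topology

set_option maxHeartbeats 400000

theorem hasSum_log43 : HasSum (fun l : ℕ => (1 / 4 : ℝ) ^ (l + 1) / (l + 1)) (Real.log (4 / 3)) := by
  have h := Real.hasSum_pow_div_log_of_abs_lt_one (x := (1 / 4 : ℝ)) (by
    rw [abs_of_pos (by norm_num)]
    norm_num)
  have e : -Real.log (1 - 1 / 4) = Real.log (4 / 3) := by
    rw [← Real.log_inv]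
    norm_num
  rwa [e] at h

theorem term_le {q : ℝ} (hq : 1 < q) {D l : ℕ} (hD : 0 < D) (hl : 0 < l) (hqD : 2 ≤ q ^ D)
    {x : ℝ} (hx : |x| ≤ 1) :
    x ^ 2 * (2 / (((D * l : ℕ) : ℝ) * (q ^ (2 * (D * l)) - (q ^ (2 * (D * l)))⁻¹))) ≤
      (32 / 15) / D * ((1 / 4 : ℝ) ^ l / l) := by
  have hD' : (0 : ℝ) < D := by exact_mod_cast hD
  have hl' : (0 : ℝ) < l := by exact_mod_cast hl
  set u : ℝ := q ^ (2 * (D * l)) with hu
  have h1 : (4 : ℝ) ^ l ≤ u := by
    have e : u = ((q ^ D) ^ 2) ^ l := by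
      rw [hu, ← pow_mul, ← pow_mul]
      congr 1
      ring
    rw [e]
    refine pow_le_pow_left₀ (by norm_num) ?_ l
    nlinarith
  have h4 : (4 : ℝ) ≤ 4 ^ l := by
    calc (4 : ℝ) = 4 ^ 1 := by norm_num
      _ ≤ 4 ^ l := pow_le_pow_right₀ (by norm_num) hl
  have hu4 : 4 ≤ u := h4.trans h1
  have hu0 : 0 < u := by linarith
  have h2 : (15 / 16) * u ≤ u - u⁻¹ := by
    have h5 : u⁻¹ ≤ u / 16 := by
      rw [inv_eq_one_div, div_le_div_iff₀ hu0 (by norm_num)]
      nlinarith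
    linarith
  have h3 : (15 / 16) * (4 : ℝ) ^ l ≤ u - u⁻¹ := by
    refine le_trans ?_ h2
    exact mul_le_mul_of_nonneg_left h1 (by norm_num)
  have hx2 : x ^ 2 ≤ 1 := by
    rw [← sq_abs]
    nlinarith [abs_nonneg x]
  have h40 : (0 : ℝ) < 4 ^ l := by positivity
  have hden : 0 < ((D * l : ℕ) : ℝ) * (u - u⁻¹) := by
    push_cast
    have : 0 < u - u⁻¹ := lt_of_lt_of_le (by positivity) h3
    positivity
  calc x ^ 2 * (2 / (((D * l : ℕ) : ℝ) * (u - u⁻¹))) ≤ 1 * (2 / (((D * l : ℕ) : ℝ) * (u - u⁻¹))) :=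
        mul_le_mul_of_nonneg_right hx2 (by positivity)
    _ = 2 / (((D * l : ℕ) : ℝ) * (u - u⁻¹)) := one_mul _
    _ ≤ 2 / (((D * l : ℕ) : ℝ) * ((15 / 16) * (4 : ℝ) ^ l)) := by
        refine div_le_div_of_nonneg_left (by norm_num) ?_ ?_
        · push_cast
          positivity
        · exact mul_le_mul_of_nonneg_left h3 (by positivity)
    _ = (32 / 15) / D * ((1 / 4 : ℝ) ^ l / l) := by
        push_cast
        rw [one_div, inv_pow]
        field_simp
        norm_num

theorem loss_le {q : ℝ} (hq : 1 < q) {D : ℕ} (hD : 0 < D) (hqD : 2 ≤ q ^ D) {a : ℕ → ℝ}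
    (ha1 : ∀ k, |a k| ≤ 1) (ha0 : ∀ k, ¬ D ∣ k → a k = 0) (M : ℕ) :
    loss q a M ≤ (32 / 15) / D * Real.log (4 / 3) := by
  classical
  set g : ℕ → ℝ := fun k => if D ∣ k ∧ k ≠ 0 then
    (32 / 15) / D * ((1 / 4 : ℝ) ^ (k / D) / ((k / D : ℕ) : ℝ)) else 0 with hg
  have hg0 : ∀ k, 0 ≤ g k := by
    intro k
    simp only [hg]
    split_ifs
    · positivity
    · exact le_rfl
  have hle : ∀ k ∈ Finset.Icc 1 M,
      a k ^ 2 * (2 / (k * (q ^ (2 * k) - (q ^ (2 * k))⁻¹))) ≤ g k := by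
    intro k hk
    have hk1 : k ≠ 0 := by
      have := (Finset.mem_Icc.1 hk).1
      omega
    by_cases hDk : D ∣ k
    · obtain ⟨l, rfl⟩ := hDk
      have hl : 0 < l := Nat.pos_of_ne_zero fun h => hk1 (by rw [h, mul_zero])
      simp only [hg]
      rw [if_pos ⟨dvd_mul_right D l, hk1⟩, Nat.mul_div_cancel_left l hD]
      exact term_le hq hD hl hqD (ha1 _)
    · rw [ha0 k hDk]
      simp only [ne_eq, OfNat.ofNat_ne_zero, not_false_eq_true, zero_pow, zero_mul]
      exact hg0 k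
  have hinj : Function.Injective fun l : ℕ => D * (l + 1) := by
    intro a b hab
    have h := Nat.eq_of_mul_eq_mul_left hD hab
    omega
  have hsum : HasSum g ((32 / 15) / D * Real.log (4 / 3)) := by
    refine (Function.Injective.hasSum_iff hinj ?_).1 ?_
    · intro k hk
      simp only [hg]
      rw [if_neg]
      rintro ⟨⟨l, rfl⟩, h0⟩
      apply hk
      have hl : l ≠ 0 := fun h => h0 (by rw [h, mul_zero])
      exact ⟨l - 1, by
        simp only
        congr 1
        omega⟩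
    · have h := hasSum_log43.mul_left ((32 / 15) / (D : ℝ))
      refine h.congr_fun fun l => ?_
      simp only [hg, Function.comp]
      rw [if_pos ⟨dvd_mul_right D (l + 1), mul_ne_zero hD.ne' (Nat.succ_ne_zero l)⟩,
        Nat.mul_div_cancel_left (l + 1) hD]
      push_cast
      ring
  unfold loss
  refine (Finset.sum_le_sum hle).trans ?_
  exact sum_le_hasSum _ (fun k _ => hg0 k) hsum

theorem log_lt : (32 / 15 : ℝ) * Real.log (4 / 3) < Real.log 2 := by
  have h1 : 32 * Real.log (4 / 3) < 15 * Real.log 2 := by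
    have e1 : 32 * Real.log (4 / 3) = Real.log ((4 / 3) ^ 32) := by
      rw [Real.log_pow]
      push_cast
      ring
    have e2 : 15 * Real.log 2 = Real.log (2 ^ 15) := by
      rw [Real.log_pow]
      push_cast
      ring
    rw [e1, e2]
    exact Real.log_lt_log (by positivity) (by norm_num)
  linarith

theorem loss_lt {q : ℝ} (hq : 1 < q) {D : ℕ} (hD : 0 < D) (hqD : 2 ≤ q ^ D) :
    (32 / 15) / D * Real.log (4 / 3) < Real.log q := by
  have hD' : (0 : ℝ) < D := by exact_mod_cast hD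
  have h1 : Real.log 2 ≤ D * Real.log q := by
    rw [← Real.log_pow]
    exact Real.log_le_log (by norm_num) hqD
  have h2 := log_lt
  have h3 : (32 / 15) / D * Real.log (4 / 3) = ((32 / 15) * Real.log (4 / 3)) / D := by ring
  rw [h3, div_lt_iff₀ hD']
  linarith

end Pool.Agent.N686.EL
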