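import Pool.Agent.N686.EL.Cont
set_option autoImplicit false

/-!
Logarithms of the two-variable functions `φ_i(s) - φ_j(t)`, `(φ_i(s) - φ_i(t)) / (s - t)`.
-/

namespace Pool.Agent.N686.EL

open MeasureTheory Set Filter Topology Polynomial

open Pool.Agent.Y775.CC

/-- continuous logarithms of differentiable functions are differentiable -/
theorem diff_of_exp {V : Set ℂ} (hVo : IsOpen V) {g ψ : ℂ → ℂ} (hgc : ContinuousOn g V)
    (hψ : DifferentiableOn ℂ ψ V) (hg : ∀ u ∈ V, Complex.exp (g u) = ψ u) :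
    DifferentiableOn ℂ g V := by
  intro u hu
  have hψ0 : ψ u ≠ 0 := by
    rw [← hg u hu]
    exact Complex.exp_ne_zero _
  have hgu : ContinuousAt g u := hgc.continuousAt (hVo.mem_nhds hu)
  have hψu : DifferentiableAt ℂ ψ u := hψ.differentiableAt (hVo.mem_nhds hu)
  have h1 : ∀ᶠ y in 𝓝 u, g y = g u + Complex.log (ψ y / ψ u) := by
    have h2 : ∀ᶠ y in 𝓝 u, ‖g y - g u‖ < 3 := by
      have h3 : ContinuousAt (fun y => ‖g y - g u‖) u := (hgu.sub continuousAt_const).norm
      refine h3.eventually_lt continuousAt_const ?_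
      simp
    filter_upwards [h2, hVo.mem_nhds hu] with y hy hyV
    have h4 : ψ y / ψ u = Complex.exp (g y - g u) := by
      rw [Complex.exp_sub, hg y hyV, hg u hu]
    have h7 := Complex.abs_im_le_norm (g y - g u)
    have h8 := Real.pi_gt_three
    have h9 := abs_lt.1 (h7.trans_lt hy)
    rw [h4, Complex.log_exp (by linarith) (by linarith)]
    ring
  have h2 : DifferentiableAt ℂ (fun y => g u + Complex.log (ψ y / ψ u)) u := by
    refine DifferentiableAt.const_add _ ?_
    refine DifferentiableAt.clog (hψu.div_const _) ?_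
    rw [div_self hψ0]
    simp
  exact (h2.congr_of_eventuallyEq h1).differentiableWithinAt

theorem dslope_symm (f : ℂ → ℂ) (a b : ℂ) : dslope f a b = dslope f b a := by
  by_cases h : a = b
  · rw [h]
  · rw [dslope_of_ne f (Ne.symm h), dslope_of_ne f h, slope_comm]

theorem continuousOn_dslope2 {V : Set ℂ} (hVo : IsOpen V) {f : ℂ → ℂ}
    (hf : DifferentiableOn ℂ f V) :
    ContinuousOn (fun p : ℂ × ℂ => dslope f p.2 p.1) (V ×ˢ V) := by
  rintro ⟨s, t⟩ ⟨hs, ht⟩
  have hs' : s ∈ V := hs
  have ht' : t ∈ V := ht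
  refine ContinuousAt.continuousWithinAt ?_
  by_cases h : s = t
  · subst h
    have han : AnalyticAt ℂ f s := hf.analyticAt (hVo.mem_nhds hs')
    have hst : HasStrictDerivAt f (deriv f s) s := han.hasStrictDerivAt
    have hdc : ContinuousAt (deriv f) s :=
      ((hf.deriv hVo).continuousOn).continuousAt (hVo.mem_nhds hs')
    rw [Metric.continuousAt_iff]
    intro ε hε
    have h1 := hst.isLittleO.def (half_pos hε)
    rw [Metric.eventually_nhds_iff] at h1
    obtain ⟨δ₁, hδ₁, h1⟩ := h1
    obtain ⟨δ₂, hδ₂, h2⟩ := Metric.continuousAt_iff.1 hdc ε hε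
    refine ⟨min δ₁ δ₂, lt_min hδ₁ hδ₂, ?_⟩
    rintro ⟨x, y⟩ hxy
    have hval : dslope f s s = deriv f s := dslope_same f s
    simp only
    rw [hval]
    by_cases hne : x = y
    · subst hne
      rw [dslope_same]
      refine h2 ?_
      have h3 : dist x s ≤ dist (x, x) (s, s) := by
        rw [Prod.dist_eq]
        exact le_max_left _ _
      exact h3.trans_lt (hxy.trans_le (min_le_right _ _))
    · have h3 := h1 (hxy.trans_le (min_le_left _ _))
      simp only at h3
      rw [dslope_of_ne f hne, dist_eq_norm]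
      have hn : x - y ≠ 0 := sub_ne_zero.2 hne
      have e : slope f y x - deriv f s = (x - y)⁻¹ * (f x - f y - (x - y) • deriv f s) := by
        rw [slope_def_field, smul_eq_mul]
        field_simp
      have h4 : ‖f x - f y - (x - y) • deriv f s‖ ≤ ε / 2 * ‖x - y‖ := by
        simpa using h3
      rw [e, norm_mul, norm_inv]
      have hn' : 0 < ‖x - y‖ := norm_pos_iff.2 hn
      calc ‖x - y‖⁻¹ * ‖f x - f y - (x - y) • deriv f s‖ ≤ ‖x - y‖⁻¹ * (ε / 2 * ‖x - y‖) :=
            mul_le_mul_of_nonneg_left h4 (inv_nonneg.2 hn'.le)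
        _ = ε / 2 := by field_simp
        _ < ε := half_lt_self hε
  · have hfs : ContinuousAt (fun p : ℂ × ℂ => f p.1) (s, t) :=
      ContinuousAt.comp (f := Prod.fst) (g := f) (x := (s, t))
        (hf.continuousOn.continuousAt (hVo.mem_nhds hs')) continuousAt_fst
    have hft : ContinuousAt (fun p : ℂ × ℂ => f p.2) (s, t) :=
      ContinuousAt.comp (f := Prod.snd) (g := f) (x := (s, t))
        (hf.continuousOn.continuousAt (hVo.mem_nhds ht')) continuousAt_snd
    have h1 : ContinuousAt (fun p : ℂ × ℂ => (f p.1 - f p.2) / (p.1 - p.2)) (s, t) := by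
      refine ContinuousAt.div (hfs.sub hft) (continuousAt_fst.sub continuousAt_snd) ?_
      exact sub_ne_zero.2 h
    refine h1.congr ?_
    have h2 : ∀ᶠ p : ℂ × ℂ in 𝓝 (s, t), p.1 ≠ p.2 :=
      (isOpen_ne_fun continuous_fst continuous_snd).mem_nhds h
    filter_upwards [h2] with p hp
    rw [dslope_of_ne f hp, slope_def_field]

section

variable {G : ℂ[X]} {n : ℕ} {V : Set ℂ} {φ : Fin n → ℂ → ℂ} (H : Branches G V φ)

include H

theorem continuousOn_psi2 (i j : Fin n) :
    ContinuousOn (fun p : ℂ × ℂ => psi φ i j p.2 p.1) (V ×ˢ V) := by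
  by_cases h : i = j
  · subst h
    simp only [psi_self]
    exact continuousOn_dslope2 H.isOpen (H.differentiableOn i)
  · simp only [psi_ne h]
    exact ((H.continuousOn i).comp continuousOn_fst fun p hp => hp.1).sub
      ((H.continuousOn j).comp continuousOn_snd fun p hp => hp.2)

theorem differentiableOn_psi' (i j : Fin n) {u : ℂ} (hu : u ∈ V) :
    DifferentiableOn ℂ (fun v => psi φ i j v u) V := by
  by_cases h : i = j
  · subst h
    have e : (fun v => psi φ i i v u) = dslope (φ i) u := funext fun v => by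
      rw [psi_self, dslope_symm]
    rw [e]
    exact (Complex.differentiableOn_dslope (H.isOpen.mem_nhds hu)).2 (H.differentiableOn i)
  · have e : (fun v => psi φ i j v u) = fun v => φ i u - φ j v := funext fun v => psi_ne h v u
    rw [e]
    exact (H.differentiableOn j).const_sub _

theorem psi_comm (i j : Fin n) (u v : ℂ) : ‖psi φ i j v u‖ = ‖psi φ j i u v‖ := by
  by_cases h : i = j
  · subst h
    rw [psi_self, psi_self, dslope_symm]
  · rw [psi_ne h, psi_ne (Ne.symm h), norm_sub_rev]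

theorem exists_log2 (i j : Fin n) : ∃ A : ℂ → ℂ → ℂ,
    ContinuousOn (fun p : ℂ × ℂ => A p.1 p.2) (V ×ˢ V) ∧
    (∀ s ∈ V, ∀ t ∈ V, (A s t).re = Real.log ‖psi φ i j t s‖) ∧
    (∀ t ∈ V, DifferentiableOn ℂ (fun s => A s t) V) ∧
    (∀ s ∈ V, DifferentiableOn ℂ (fun t => A s t) V) := by
  have h0V : (0 : ℂ) ∈ V := by simpa using H.mem 0 (by norm_num)
  have hsc : IsSimplyConnected (V ×ˢ V) := by
    have hc : Convex ℝ (V ×ˢ V) := H.convex.prod H.convex
    have : ContractibleSpace ((V ×ˢ V : Set (ℂ × ℂ))) := hc.contractibleSpace ⟨(0, 0), h0V, h0V⟩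
    exact SimplyConnectedSpace.ofContractible _
  obtain ⟨B, hBc, hB⟩ := Complex.exists_continuousOn_eqOn_exp_comp hsc
    (H.isOpen.prod H.isOpen) (continuousOn_psi2 H i j) (by
      rintro ⟨⟨s, t⟩, ⟨hs, ht⟩, h⟩
      exact psi_ne_zero H i j ht hs h)
  have hexp : ∀ s ∈ V, ∀ t ∈ V, Complex.exp (B (s, t)) = psi φ i j t s := fun s hs t ht =>
    hB (⟨hs, ht⟩ : (s, t) ∈ V ×ˢ V)
  refine ⟨fun s t => B (s, t), hBc, fun s hs t ht => ?_, fun t ht => ?_, fun s hs => ?_⟩
  · rw [← hexp s hs t ht, Complex.norm_exp, Real.log_exp]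
  · refine diff_of_exp H.isOpen ?_ (differentiableOn_psi H i j ht) fun s hs => hexp s hs t ht
    exact hBc.comp (continuousOn_id.prodMk continuousOn_const) fun s hs => ⟨hs, ht⟩
  · refine diff_of_exp H.isOpen ?_ (differentiableOn_psi' H i j hs) fun t ht => hexp s hs t ht
    exact hBc.comp (continuousOn_const.prodMk continuousOn_id) fun t ht => ⟨hs, ht⟩

end

end Pool.Agent.N686.EL
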