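import Pool.Agent.N686.EL.Ker3
import Pool.Agent.N686.EL.Log2
import Pool.Agent.Y775.CC.Neg
set_option autoImplicit false

/-!
The logarithmic energy of real densities of total mass zero on the images of an ellipse under the
branches.
-/

namespace Pool.Agent.N686.EL

open MeasureTheory Set Filter Topology Metric Polynomial

open Pool.Agent.TH826.MK (circ norm_circ circ_add_one contDiff_circ hasDerivAt_circ circ_eq)

open Pool.Agent.Y775.CC

section abstract

variable {Ω : Type*} [MeasurableSpace Ω] {P : Measure Ω} [IsFiniteMeasure P]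

variable {f : Ω → ℝ} {X : Ω → ℂ}

theorem hE_nonneg (hf : BM f) (hX : BMC X) {s : ℝ} (hs : 0 < s) : 0 ≤ hE P f X s := by
  obtain ⟨h1, h2⟩ := hE_eq (P := P) hf hX hs
  rw [h1]
  refine setIntegral_nonneg measurableSet_Ioi fun t ht => ?_
  exact mul_nonneg (Real.exp_pos _).le (gE_nonneg hf hX (le_of_lt ht))

theorem lE_nonpos (hf : BM f) (hX : BMC X) (h0 : ∫ ω, f ω ∂P = 0) {s : ℝ} (hs : 0 < s) :
    lE P f X s ≤ 0 := by
  have hmono : MonotoneOn (lE P f X) (Ioi 0) := by
    refine monotoneOn_of_deriv_nonneg (convex_Ioi 0) (fun s hs =>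
      (hasDerivAt_lE hf hX hs).continuousAt.continuousWithinAt) (fun s hs => ?_) fun s hs => ?_
    · rw [interior_Ioi] at hs
      exact (hasDerivAt_lE hf hX hs).differentiableAt.differentiableWithinAt
    · rw [interior_Ioi] at hs
      rw [(hasDerivAt_lE hf hX hs).deriv]
      exact hE_nonneg hf hX hs
  obtain ⟨K, hK⟩ := exists_lE_le (P := P) hf hX h0
  have hlim : Tendsto (fun s : ℝ => K / s) atTop (𝓝 0) := tendsto_const_nhds.div_atTop tendsto_id
  refine ge_of_tendsto hlim ?_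
  filter_upwards [eventually_gt_atTop (max s 1)] with s' hs'
  have h1 : s < s' := (le_max_left _ _).trans_lt hs'
  have h2 : 1 < s' := (le_max_right _ _).trans_lt hs'
  have h4 := hmono hs (show s' ∈ Ioi (0 : ℝ) by rw [mem_Ioi]; linarith) h1.le
  exact h4.trans ((le_abs_self _).trans (hK s' h2.le))

end abstract

section pairs

variable {n : ℕ} {f : Fin n → ℝ → ℝ} {X : Fin n → ℝ → ℂ}

theorem bm_fin (hf : ∀ i, Continuous (f i)) (hb : ∀ i, ∃ C, ∀ t, |f i t| ≤ C) :
    BM fun ω : Fin n × ℝ => f ω.1 ω.2 := by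
  choose C hC using hb
  refine ⟨?_, ∑ i, |C i|, Finset.sum_nonneg fun i _ => abs_nonneg _, fun ω => ?_⟩
  · have h1 : Measurable fun p : ℝ × Fin n => f p.2 p.1 :=
      measurable_from_prod_countable_left fun i => (hf i).measurable
    exact h1.comp measurable_swap
  · refine ((hC ω.1 ω.2).trans (le_abs_self _)).trans ?_
    exact Finset.single_le_sum (f := fun i => |C i|) (fun i _ => abs_nonneg _)
      (Finset.mem_univ ω.1)

theorem bmc_fin (hX : ∀ i, Continuous (X i)) (hb : ∀ i, ∃ C : ℝ, ∀ t, ‖X i t‖ ≤ C) :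
    BMC fun ω : Fin n × ℝ => X ω.1 ω.2 := by
  choose C hC using hb
  refine ⟨?_, ∑ i, |C i|, Finset.sum_nonneg fun i _ => abs_nonneg _, fun ω => ?_⟩
  · have h1 : Measurable fun p : ℝ × Fin n => X p.2 p.1 :=
      measurable_from_prod_countable_left fun i => (hX i).measurable
    exact h1.comp measurable_swap
  · refine ((hC ω.1 ω.2).trans (le_abs_self _)).trans ?_
    exact Finset.single_le_sum (f := fun i => |C i|) (fun i _ => abs_nonneg _)
      (Finset.mem_univ ω.1)

theorem cont_kernel {X Y : ℝ → ℂ} (hX : Continuous X) (hY : Continuous Y) {s : ℝ} (hs : 0 < s) :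
    Continuous fun p : ℝ × ℝ => Real.log (s + ‖X p.2 - Y p.1‖ ^ 2) := by
  refine Continuous.log (continuous_const.add ((Continuous.norm ?_).pow 2)) fun p => ?_
  · exact (hX.comp continuous_snd).sub (hY.comp continuous_fst)
  · positivity

theorem lE_fin (hf : ∀ i, Continuous (f i)) (hb : ∀ i, ∃ C, ∀ t, |f i t| ≤ C)
    (hX : ∀ i, Continuous (X i)) (hXb : ∀ i, ∃ C : ℝ, ∀ t, ‖X i t‖ ≤ C) {s : ℝ} (hs : 0 < s) :
    lE (Pn n) (fun ω => f ω.1 ω.2) (fun ω => X ω.1 ω.2) s = ∑ j, ∑ i,
      ∫ θ in (0 : ℝ)..1, (∫ t in (0 : ℝ)..1, Real.log (s + ‖X i t - X j θ‖ ^ 2) * f i t) *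
        f j θ := by
  have hF := bm_fin hf hb
  have hX' := bmc_fin hX hXb
  have hr0 : ∀ p : (Fin n × ℝ) × (Fin n × ℝ), 0 ≤ ‖X p.1.1 p.1.2 - X p.2.1 p.2.2‖ ^ 2 :=
    fun p => by positivity
  have hg : BM fun p : (Fin n × ℝ) × (Fin n × ℝ) => f p.1.1 p.1.2 * f p.2.1 p.2.2 *
      Real.log (s + ‖X p.1.1 p.1.2 - X p.2.1 p.2.2‖ ^ 2) :=
    (bm_ff hF).mul (bm_log hX'.dist hr0 hs)
  have hint := hg.integrable (P := (Pn n).prod (Pn n))
  unfold lE
  rw [integral_prod _ hint, integral_Pn hint.integral_prod_left]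
  refine Finset.sum_congr rfl fun j _ => ?_
  have h1 : ∀ θ : ℝ, ∫ ω', f j θ * f ω'.1 ω'.2 *
      Real.log (s + ‖X j θ - X ω'.1 ω'.2‖ ^ 2) ∂(Pn n) =
      ∑ i, (∫ t in (0 : ℝ)..1, Real.log (s + ‖X i t - X j θ‖ ^ 2) * f i t) * f j θ := by
    intro θ
    have hg1 : BM fun ω' : Fin n × ℝ => f j θ * f ω'.1 ω'.2 *
        Real.log (s + ‖X j θ - X ω'.1 ω'.2‖ ^ 2) := by
      obtain ⟨C, hC0, hC⟩ := hg.bdd
      exact ⟨hg.meas.comp (measurable_prodMk_left (x := (j, θ))), C, hC0,
        fun ω' => hC ((j, θ), ω')⟩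
    rw [integral_Pn hg1.integrable]
    refine Finset.sum_congr rfl fun i _ => ?_
    rw [← intervalIntegral.integral_mul_const]
    refine intervalIntegral.integral_congr fun t _ => ?_
    simp only
    rw [norm_sub_rev]
    ring
  simp only [h1]
  rw [intervalIntegral.integral_finsetSum]
  intro i _
  have h2 : Continuous fun θ => (∫ t in (0 : ℝ)..1,
      Real.log (s + ‖X i t - X j θ‖ ^ 2) * f i t) * f j θ := by
    refine Continuous.mul ?_ (hf j)
    have h3 : Continuous (Function.uncurry fun θ t =>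
        Real.log (s + ‖X i t - X j θ‖ ^ 2) * f i t) :=
      (cont_kernel (hX i) (hX j) hs).mul ((hf i).comp continuous_snd)
    exact intervalIntegral.continuous_parametric_intervalIntegral_of_continuous'
      (μ := volume) h3 0 1
  exact h2.intervalIntegrable _ _

theorem abs_log_le {s r D : ℝ} (hs : 0 < s) (hs1 : s ≤ 1) (hr : 0 < r) (hD : r ^ 2 ≤ D) :
    |Real.log (s + r ^ 2)| ≤ 2 * |Real.log r| + Real.log (1 + D) := by
  have hr2 : 0 < r ^ 2 := by positivity
  have h1 : Real.log (s + r ^ 2) ≤ Real.log (1 + D) :=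
    Real.log_le_log (by linarith) (by linarith)
  have h2 : 2 * Real.log r ≤ Real.log (s + r ^ 2) := by
    have h3 : 2 * Real.log r = Real.log (r ^ 2) := by
      rw [Real.log_pow]
      push_cast
      ring
    rw [h3]
    exact Real.log_le_log hr2 (by linarith)
  have h3 : 0 ≤ Real.log (1 + D) := Real.log_nonneg (by linarith)
  have h4 := neg_abs_le (Real.log r)
  have h5 := abs_nonneg (Real.log r)
  rw [abs_le]
  constructor <;> linarith

/-- The limit of the regularised kernels. -/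
theorem lim_pair {X Y : ℝ → ℂ} (hX : Continuous X) (hY : Continuous Y) {D : ℝ}
    (hD : ∀ t θ, ‖X t - Y θ‖ ^ 2 ≤ D) {f g : ℝ → ℝ} (hf : Continuous f) (hg : Continuous g)
    {B : ℝ} (hfB : ∀ t, |f t| ≤ B) (hgB : ∀ t, |g t| ≤ B)
    (ha : ∀ θ, ∀ᵐ t : ℝ, X t ≠ Y θ)
    (hb : ∀ θ, IntervalIntegrable (fun t => Real.log ‖X t - Y θ‖) volume 0 1) {C : ℝ}
    (hc : ∀ θ ∈ Icc (0 : ℝ) 1, ∫ t in (0 : ℝ)..1, |Real.log ‖X t - Y θ‖| ≤ C) :
    Tendsto (fun s : ℝ => ∫ θ in (0 : ℝ)..1, (∫ t in (0 : ℝ)..1,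
      Real.log (s + ‖X t - Y θ‖ ^ 2) * f t) * g θ) (𝓝[>] 0)
      (𝓝 (∫ θ in (0 : ℝ)..1, (∫ t in (0 : ℝ)..1, 2 * Real.log ‖X t - Y θ‖ * f t) * g θ)) := by
  have hB : 0 ≤ B := (abs_nonneg _).trans (hfB 0)
  have hs01 : ∀ᶠ s : ℝ in 𝓝[>] 0, s ∈ Ioc (0 : ℝ) 1 := Ioc_mem_nhdsGT one_pos
  -- the pointwise bound
  have hbd : ∀ θ, ∀ᵐ t : ℝ, ∀ s ∈ Ioc (0 : ℝ) 1,
      |Real.log (s + ‖X t - Y θ‖ ^ 2) * f t| ≤
        (2 * |Real.log ‖X t - Y θ‖| + Real.log (1 + D)) * B := by
    intro θ
    filter_upwards [ha θ] with t ht s hs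
    have h1 : 0 < ‖X t - Y θ‖ := norm_pos_iff.2 (sub_ne_zero.2 ht)
    rw [abs_mul]
    refine mul_le_mul (abs_log_le hs.1 hs.2 h1 (hD t θ)) (hfB t) (abs_nonneg _) ?_
    have h2 : 0 ≤ Real.log (1 + D) :=
      Real.log_nonneg (by nlinarith [hD t θ, sq_nonneg ‖X t - Y θ‖])
    positivity
  have hbint : ∀ θ, IntervalIntegrable (fun t => (2 * |Real.log ‖X t - Y θ‖| +
      Real.log (1 + D)) * B) volume 0 1 := fun θ =>
    (((hb θ).abs.const_mul 2).add intervalIntegrable_const).mul_const B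
  have hcontK : ∀ s : ℝ, 0 < s → Continuous (Function.uncurry fun θ t =>
      Real.log (s + ‖X t - Y θ‖ ^ 2) * f t) := fun s hs =>
    (cont_kernel hX hY hs).mul (hf.comp continuous_snd)
  have hcontI : ∀ s : ℝ, 0 < s → Continuous fun θ => ∫ t in (0 : ℝ)..1,
      Real.log (s + ‖X t - Y θ‖ ^ 2) * f t := fun s hs =>
    intervalIntegral.continuous_parametric_intervalIntegral_of_continuous'
      (μ := volume) (hcontK s hs) 0 1
  refine intervalIntegral.tendsto_integral_filter_of_dominated_convergence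
    (fun _ => (2 * C + Real.log (1 + D)) * B * B) ?_ ?_ intervalIntegrable_const ?_
  · filter_upwards [hs01] with s hs
    exact ((hcontI s hs.1).mul hg).aestronglyMeasurable
  · filter_upwards [hs01] with s hs
    refine Eventually.of_forall fun θ hθ => ?_
    rw [uIoc_of_le zero_le_one] at hθ
    rw [Real.norm_eq_abs, abs_mul]
    have h1 : |∫ t in (0 : ℝ)..1, Real.log (s + ‖X t - Y θ‖ ^ 2) * f t| ≤
        (2 * C + Real.log (1 + D)) * B := by
      have h2 : |∫ t in (0 : ℝ)..1, Real.log (s + ‖X t - Y θ‖ ^ 2) * f t| ≤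
          ∫ t in (0 : ℝ)..1, (2 * |Real.log ‖X t - Y θ‖| + Real.log (1 + D)) * B := by
        have h3 := intervalIntegral.norm_integral_le_of_norm_le (μ := volume)
          (f := fun t => Real.log (s + ‖X t - Y θ‖ ^ 2) * f t) (zero_le_one (α := ℝ)) (by
            filter_upwards [hbd θ] with t ht _
            rw [Real.norm_eq_abs]
            exact ht s hs) (hbint θ)
        exact h3
      refine h2.trans ?_
      rw [intervalIntegral.integral_mul_const, intervalIntegral.integral_add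
        ((hb θ).abs.const_mul 2) intervalIntegrable_const, intervalIntegral.integral_const_mul]
      simp only [intervalIntegral.integral_const, sub_zero, one_smul]
      refine mul_le_mul_of_nonneg_right ?_ hB
      have := hc θ ⟨hθ.1.le, hθ.2⟩
      linarith
    exact mul_le_mul h1 (hgB θ) (abs_nonneg _) ((abs_nonneg _).trans h1)
  · refine Eventually.of_forall fun θ _ => ?_
    refine Tendsto.mul_const _ ?_
    refine intervalIntegral.tendsto_integral_filter_of_dominated_convergence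
      (fun t => (2 * |Real.log ‖X t - Y θ‖| + Real.log (1 + D)) * B) ?_ ?_ (hbint θ) ?_
    · filter_upwards [hs01] with s hs
      have h1 : Continuous fun t => Real.log (s + ‖X t - Y θ‖ ^ 2) * f t :=
        (hcontK s hs.1).comp (continuous_const.prodMk continuous_id : Continuous fun t : ℝ => (θ, t))
      exact h1.aestronglyMeasurable
    · filter_upwards [hs01] with s hs
      filter_upwards [hbd θ] with t ht _
      rw [Real.norm_eq_abs]
      exact ht s hs
    · filter_upwards [ha θ] with t ht _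
      refine Tendsto.mul_const _ ?_
      have h1 : ‖X t - Y θ‖ ≠ 0 := norm_ne_zero_iff.2 (sub_ne_zero.2 ht)
      have h2 : 2 * Real.log ‖X t - Y θ‖ = Real.log (0 + ‖X t - Y θ‖ ^ 2) := by
        rw [zero_add, Real.log_pow]
        push_cast
        ring
      rw [h2]
      have h3 : ContinuousAt (fun s : ℝ => Real.log (s + ‖X t - Y θ‖ ^ 2)) 0 := by
        refine ContinuousAt.log (continuousAt_id.add continuousAt_const) ?_
        simp only [zero_add]
        positivity
      exact h3.tendsto.mono_left nhdsWithin_le_nhds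

end pairs

end Pool.Agent.N686.EL
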