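import Pool.Agent.N686.EL.Ener
set_option autoImplicit false

/-!
The logarithmic energy of real densities of total mass zero on the images of an ellipse under the
branches.
-/

namespace Pool.Agent.N686.EL

open MeasureTheory Set Filter Topology Metric Polynomial

open Pool.Agent.TH826.MK (circ norm_circ circ_add_one contDiff_circ hasDerivAt_circ circ_eq)

open Pool.Agent.Y775.CC

set_option maxHeartbeats 400000

theorem uu_sub_ne {q : ℝ} (hq : 1 < q) {t θ : ℝ} (h : circ 1 (θ - t) ≠ 1) :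
    uu q t ≠ uu q θ := by
  have hq0 : 0 < q := by linarith
  intro h1
  set z := circ q t with hz
  set w := circ q θ with hw
  have hz0 : z ≠ 0 := circ_ne_zero hq0 t
  have hw0 : w ≠ 0 := circ_ne_zero hq0 θ
  have h2 : z + z⁻¹ = w + w⁻¹ := h1
  have h3 : (z - w) * (z * w - 1) = 0 := by
    field_simp at h2
    linear_combination h2
  rcases mul_eq_zero.1 h3 with h4 | h4
  · apply h
    have h5 : z = w := sub_eq_zero.1 h4
    rw [hz, hw, circ_eq_mul q t, circ_eq_mul q θ] at h5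
    have hqc : (q : ℂ) ≠ 0 := by exact_mod_cast hq0.ne'
    have h6 : circ 1 t = circ 1 θ := mul_left_cancel₀ hqc h5
    have h7 : circ 1 θ = circ 1 t * circ 1 (θ - t) := by
      rw [← circ_add]
      congr 1
      ring
    rw [← h6] at h7
    exact (mul_left_cancel₀ (circ_ne_zero one_pos t) (by rw [mul_one]; exact h7)).symm
  · have h5 := congrArg norm (sub_eq_zero.1 h4)
    rw [norm_mul, hz, hw, norm_circ hq0.le, norm_circ hq0.le, norm_one] at h5
    nlinarith

/-- bounded by periodicity -/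
theorem bdd_of_periodic {E : Type*} [NormedAddCommGroup E] {f : ℝ → E} (hc : Continuous f)
    (hp : ∀ t, f (t + 1) = f t) : ∃ C : ℝ, ∀ t, ‖f t‖ ≤ C := by
  obtain ⟨C, hC⟩ := (isCompact_Icc (a := (0 : ℝ)) (b := 1)).exists_bound_of_continuousOn
    hc.continuousOn
  refine ⟨C, fun t => ?_⟩
  have h1 := (show Function.Periodic f 1 from hp).sub_zsmul_eq ⌊t⌋ (x := t)
  rw [← h1]
  refine hC _ ⟨?_, ?_⟩
  · simp only [zsmul_eq_mul, mul_one]
    have := Int.floor_le t
    linarith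
  · simp only [zsmul_eq_mul, mul_one]
    have := Int.lt_floor_add_one t
    linarith

theorem int_abs_hh_le {q : ℝ} (hq : 1 < q) (θ : ℝ) : ∫ t in (0 : ℝ)..1, |hh q t θ| ≤
    |Real.log q| + (∫ t in (0 : ℝ)..1, |lg 1 t|) + ∫ t in (0 : ℝ)..1, |lg (q ^ 2)⁻¹ t| := by
  have h1 : ∫ t in (0 : ℝ)..1, |lg 1 t| = ∫ t in (0 : ℝ)..1, |lg 1 (θ - t)| :=
    (int_sub_shift (f := fun t => |lg 1 t|) (fun t => by rw [lg_add_one]) θ).symm
  have h2 : ∫ t in (0 : ℝ)..1, |lg (q ^ 2)⁻¹ t| = ∫ t in (0 : ℝ)..1, |lg (q ^ 2)⁻¹ (t + θ)| :=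
    (int_add_shift (f := fun t => |lg (q ^ 2)⁻¹ t|) (fun t => by rw [lg_add_one]) θ).symm
  have hi1 : IntervalIntegrable (fun _ : ℝ => |Real.log q|) volume 0 1 := intervalIntegrable_const
  have hi2 : IntervalIntegrable (fun t => |lg 1 (θ - t)|) volume 0 1 := (ii_one θ).abs
  have hi3 : IntervalIntegrable (fun t => |lg (q ^ 2)⁻¹ (t + θ)|) volume 0 1 :=
    ((ii_two hq θ).intervalIntegrable _ _).abs
  have h3 : ∫ t in (0 : ℝ)..1, (|Real.log q| + |lg 1 (θ - t)| + |lg (q ^ 2)⁻¹ (t + θ)|) =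
      |Real.log q| + (∫ t in (0 : ℝ)..1, |lg 1 t|) + ∫ t in (0 : ℝ)..1, |lg (q ^ 2)⁻¹ t| := by
    rw [h1, h2, intervalIntegral.integral_add (hi1.add hi2) hi3,
      intervalIntegral.integral_add hi1 hi2]
    simp
  rw [← h3]
  refine intervalIntegral.integral_mono_ae zero_le_one (ii_hh hq θ).abs
    ((hi1.add hi2).add hi3) ?_
  filter_upwards [ae_hh hq θ] with t ht
  rw [ht]
  exact (abs_add_le _ _).trans (add_le_add (abs_add_le _ _) le_rfl)

section

variable {G : ℂ[X]} {n : ℕ} {V : Set ℂ} {φ : Fin n → ℂ → ℂ} (H : Branches G V φ) {q : ℝ}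
  (hq : 1 < q) (hV : ∀ z : ℂ, 1 ≤ ‖z‖ → ‖z‖ ≤ q → z + z⁻¹ ∈ V)

/-- `log |psi|` on the ellipse -/
noncomputable def lp (φ : Fin n → ℂ → ℂ) (q : ℝ) (i j : Fin n) (t θ : ℝ) : ℝ :=
  Real.log ‖psi φ i j (uu q θ) (uu q t)‖

include H hq hV

theorem continuous_lp (i j : Fin n) : Continuous fun p : ℝ × ℝ => lp φ q i j p.2 p.1 := by
  have hq0 : 0 < q := by linarith
  have hm := uu_mem hq.le hV
  obtain ⟨A, hA, hre, -, -⟩ := exists_log2 H i j
  have h1 : Continuous fun p : ℝ × ℝ => A (uu q p.2) (uu q p.1) :=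
    hA.comp_continuous (f := fun p : ℝ × ℝ => (uu q p.2, uu q p.1))
      (((continuous_uu hq0).comp continuous_snd).prodMk ((continuous_uu hq0).comp continuous_fst))
      fun p => ⟨hm _, hm _⟩
  have h2 : (fun p : ℝ × ℝ => lp φ q i j p.2 p.1) = fun p => (A (uu q p.2) (uu q p.1)).re := by
    funext p
    rw [hre _ (hm _) _ (hm _)]
    rfl
  rw [h2]
  exact Complex.continuous_re.comp h1

theorem log_sub_eq (i j : Fin n) {t θ : ℝ} (h : circ 1 (θ - t) ≠ 1) :
    Real.log ‖φ i (uu q t) - φ j (uu q θ)‖ = lp φ q i j t θ + if i = j then hh q t θ else 0 := by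
  have hm := uu_mem hq.le hV
  unfold lp
  by_cases hij : i = j
  · subst hij
    rw [if_pos rfl, psi_self]
    have h1 := sub_smul_dslope (φ i) (uu q θ) (uu q t)
    rw [smul_eq_mul] at h1
    have h2 : uu q t - uu q θ ≠ 0 := sub_ne_zero.2 (uu_sub_ne hq h)
    have h3 : dslope (φ i) (uu q θ) (uu q t) ≠ 0 := by
      have := psi_ne_zero H i i (hm θ) (hm t)
      rwa [psi_self] at this
    rw [← h1, norm_mul, Real.log_mul (norm_ne_zero_iff.2 h2) (norm_ne_zero_iff.2 h3), add_comm]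
    rfl
  · rw [if_neg hij, add_zero, psi_ne hij]

theorem ne_ae (i j : Fin n) (θ : ℝ) : ∀ᵐ t : ℝ, φ i (uu q t) ≠ φ j (uu q θ) := by
  have hm := uu_mem hq.le hV
  filter_upwards [ae_shift θ] with t ht h
  exact uu_sub_ne hq ht (H.eq_of_eq (hm t) (hm θ) h).2

theorem continuous_lp1 (i j : Fin n) (θ : ℝ) : Continuous fun t => lp φ q i j t θ := by
  have h1 : Continuous fun t : ℝ => ((θ, t) : ℝ × ℝ) := continuous_const.prodMk continuous_id
  have h2 := (continuous_lp H hq hV i j).comp h1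
  exact h2

theorem ae_log_sub (i j : Fin n) (θ : ℝ) : ∀ᵐ t : ℝ,
    Real.log ‖φ i (uu q t) - φ j (uu q θ)‖ =
      lp φ q i j t θ + if i = j then hh q t θ else 0 := by
  filter_upwards [ae_shift θ] with t ht
  exact log_sub_eq H hq hV i j ht

omit H hV in
theorem ii_delta (i j : Fin n) (θ : ℝ) : IntervalIntegrable
    (fun t => if i = j then hh q t θ else 0) volume 0 1 := by
  by_cases hij : i = j
  · simp only [if_pos hij]
    exact ii_hh hq θ
  · simp only [if_neg hij]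
    exact intervalIntegrable_const

theorem ii_log_sub (i j : Fin n) (θ : ℝ) : IntervalIntegrable
    (fun t => Real.log ‖φ i (uu q t) - φ j (uu q θ)‖) volume 0 1 := by
  have h1 : IntervalIntegrable (fun t => lp φ q i j t θ + if i = j then hh q t θ else 0)
      volume 0 1 :=
    ((continuous_lp1 H hq hV i j θ).intervalIntegrable _ _).add (ii_delta hq i j θ)
  refine h1.congr_ae (ae_restrict_of_ae ?_)
  filter_upwards [ae_log_sub H hq hV i j θ] with t ht
  exact ht.symm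

theorem continuous_phi (i : Fin n) : Continuous fun t => φ i (uu q t) :=
  (H.continuousOn i).comp_continuous (continuous_uu (by linarith)) (uu_mem hq.le hV)

theorem bdd_phi (i : Fin n) : ∃ C : ℝ, ∀ t, ‖φ i (uu q t)‖ ≤ C :=
  bdd_of_periodic (continuous_phi H hq hV i) fun t => by rw [uu_add_one]

/-- a bound for the mean of the logarithm -/
theorem int_abs_log_le (i j : Fin n) : ∃ C : ℝ, ∀ θ ∈ Icc (0 : ℝ) 1,
    ∫ t in (0 : ℝ)..1, |Real.log ‖φ i (uu q t) - φ j (uu q θ)‖| ≤ C := by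
  obtain ⟨L, hL⟩ := (isCompact_Icc.prod isCompact_Icc : IsCompact
    (Icc (0 : ℝ) 1 ×ˢ Icc (0 : ℝ) 1)).exists_bound_of_continuousOn
    (continuous_lp H hq hV i j).continuousOn
  refine ⟨L + (|Real.log q| + (∫ t in (0 : ℝ)..1, |lg 1 t|) +
    ∫ t in (0 : ℝ)..1, |lg (q ^ 2)⁻¹ t|), fun θ hθ => ?_⟩
  have h1 : ∫ t in (0 : ℝ)..1, |Real.log ‖φ i (uu q t) - φ j (uu q θ)‖| ≤
      ∫ t in (0 : ℝ)..1, (L + |hh q t θ|) := by
    refine intervalIntegral.integral_mono_ae_restrict zero_le_one (ii_log_sub H hq hV i j θ).abs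
      (intervalIntegrable_const.add (ii_hh hq θ).abs) ?_
    filter_upwards [ae_restrict_of_ae (ae_log_sub H hq hV i j θ),
      ae_restrict_mem measurableSet_Icc] with t ht htm
    rw [ht]
    have h2 : |lp φ q i j t θ| ≤ L := hL (θ, t) ⟨hθ, htm⟩
    refine (abs_add_le _ _).trans (add_le_add h2 ?_)
    split_ifs
    · exact le_rfl
    · rw [abs_zero]
      exact abs_nonneg _
  refine h1.trans ?_
  rw [intervalIntegral.integral_add intervalIntegrable_const (ii_hh hq θ).abs]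
  simp only [intervalIntegral.integral_const, sub_zero, one_smul]
  exact add_le_add le_rfl (int_abs_hh_le hq θ)

theorem lim_phi (i j : Fin n) {f g : ℝ → ℝ} (hf : Continuous f) (hg : Continuous g)
    {B : ℝ} (hfB : ∀ t, |f t| ≤ B) (hgB : ∀ t, |g t| ≤ B) :
    Tendsto (fun s : ℝ => ∫ θ in (0 : ℝ)..1, (∫ t in (0 : ℝ)..1,
      Real.log (s + ‖φ i (uu q t) - φ j (uu q θ)‖ ^ 2) * f t) * g θ) (𝓝[>] 0)
      (𝓝 (∫ θ in (0 : ℝ)..1, (∫ t in (0 : ℝ)..1,
        2 * Real.log ‖φ i (uu q t) - φ j (uu q θ)‖ * f t) * g θ)) := by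
  obtain ⟨Ci, hCi⟩ := bdd_phi H hq hV i
  obtain ⟨Cj, hCj⟩ := bdd_phi H hq hV j
  obtain ⟨C, hC⟩ := int_abs_log_le H hq hV i j
  have hD : ∀ t θ : ℝ, ‖φ i (uu q t) - φ j (uu q θ)‖ ^ 2 ≤ (Ci + Cj) ^ 2 := fun t θ =>
    pow_le_pow_left₀ (norm_nonneg _) ((norm_sub_le _ _).trans (add_le_add (hCi t) (hCj θ))) 2
  exact lim_pair (X := fun t => φ i (uu q t)) (Y := fun t => φ j (uu q t))
    (continuous_phi H hq hV i) (continuous_phi H hq hV j) hD hf hg hfB hgB
    (ne_ae H hq hV i j) (ii_log_sub H hq hV i j) hC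

theorem continuous_lp_int (i j : Fin n) {f : ℝ → ℝ} (hf : Continuous f) :
    Continuous fun θ => ∫ t in (0 : ℝ)..1, lp φ q i j t θ * f t := by
  have h3 : Continuous (Function.uncurry fun θ t => lp φ q i j t θ * f t) :=
    (continuous_lp H hq hV i j).mul (hf.comp continuous_snd)
  exact intervalIntegral.continuous_parametric_intervalIntegral_of_continuous'
    (μ := volume) h3 0 1

theorem inner_dec (i j : Fin n) {f : ℝ → ℝ} (hf : Continuous f) (θ : ℝ) :
    ∫ t in (0 : ℝ)..1, 2 * Real.log ‖φ i (uu q t) - φ j (uu q θ)‖ * f t =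
      2 * (∫ t in (0 : ℝ)..1, lp φ q i j t θ * f t) +
      2 * ∫ t in (0 : ℝ)..1, (if i = j then hh q t θ else 0) * f t := by
  have hi1 : IntervalIntegrable (fun t => 2 * (lp φ q i j t θ * f t)) volume 0 1 :=
    (((continuous_lp1 H hq hV i j θ).mul hf).intervalIntegrable _ _).const_mul _
  have hi2 : IntervalIntegrable (fun t => 2 * ((if i = j then hh q t θ else 0) * f t))
      volume 0 1 := ((ii_delta hq i j θ).mul_continuousOn hf.continuousOn).const_mul _
  rw [← intervalIntegral.integral_const_mul, ← intervalIntegral.integral_const_mul,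
    ← intervalIntegral.integral_add hi1 hi2]
  refine intervalIntegral.integral_congr_ae ?_
  filter_upwards [ae_log_sub H hq hV i j θ] with t ht _
  rw [ht]
  ring

end

end Pool.Agent.N686.EL
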