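import Pool.Agent.N686.EL.Core2
set_option autoImplicit false

/-!
Fourier inversion for even functions.
-/

namespace Pool.Agent.N686.EL

open MeasureTheory Set Filter Topology Metric Polynomial

open Pool.Agent.TH826.MK (circ norm_circ circ_add_one contDiff_circ hasDerivAt_circ circ_eq)

open Pool.Agent.Y775.CC

set_option maxHeartbeats 400000

/-- Fourier inversion for an even function with rapidly decreasing coefficients. -/
theorem fourier_even {h : ℝ → ℝ} (hc : Continuous h) (hp : ∀ t, h (t + 1) = h t)
    (he : ∀ t, h (-t) = h t) {C r : ℝ} (hr0 : 0 ≤ r) (hr : r < 1)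
    (hdec : ∀ k : ℕ, |∫ t in (0 : ℝ)..1, h t * cs k t| ≤ C * r ^ k) (x : ℝ) :
    Tendsto (fun M : ℕ => (∫ t in (0 : ℝ)..1, h t * cs 0 t) +
      2 * ∑ k ∈ Finset.Icc 1 M, (∫ t in (0 : ℝ)..1, h t * cs k t) * cs k x) atTop (𝓝 (h x)) := by
  have hper : Function.Periodic (fun t : ℝ => (h t : ℂ)) 1 := fun t => by
    simp only
    rw [hp]
  set F : C(UnitAddCircle, ℂ) :=
    ⟨hper.lift, continuous_coinduced_dom.mpr (Complex.continuous_ofReal.comp hc)⟩ with hF
  have hFx : ∀ t : ℝ, F (t : UnitAddCircle) = (h t : ℂ) := fun t => rfl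
  have hco : ∀ k : ℕ, fourierCoeff F (k : ℤ) = ((∫ t in (0 : ℝ)..1, h t * cs k t : ℝ) : ℂ) ∧
      fourierCoeff F (-(k : ℤ)) = ((∫ t in (0 : ℝ)..1, h t * cs k t : ℝ) : ℂ) := by
    intro k
    have hs : ∫ t in (0 : ℝ)..1, (h t : ℂ) * ((sn k t : ℂ) * Complex.I) = 0 := by
      refine integral_odd (fun t => ?_) fun t => ?_
      · rw [hp, sn_add_one]
      · rw [he, sn_neg]
        push_cast
        ring
    have hcs : ∫ t in (0 : ℝ)..1, (h t : ℂ) * (cs k t : ℂ) =
        ((∫ t in (0 : ℝ)..1, h t * cs k t : ℝ) : ℂ) := by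
      rw [← intervalIntegral.integral_ofReal]
      refine intervalIntegral.integral_congr fun t _ => ?_
      push_cast
      ring
    have hic : IntervalIntegrable (fun t => (h t : ℂ) * (cs k t : ℂ)) volume 0 1 :=
      ((Complex.continuous_ofReal.comp hc).mul
        (Complex.continuous_ofReal.comp (continuous_cs k))).intervalIntegrable _ _
    have his : IntervalIntegrable (fun t => (h t : ℂ) * ((sn k t : ℂ) * Complex.I)) volume 0 1 :=
      ((Complex.continuous_ofReal.comp hc).mul
        ((Complex.continuous_ofReal.comp (continuous_sn k)).mul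
          continuous_const)).intervalIntegrable _ _
    constructor
    · rw [fourierCoeff_eq_intervalIntegral F (k : ℤ) 0]
      have e1 : ∀ t : ℝ, fourier (-(k : ℤ)) (t : UnitAddCircle) • F (t : UnitAddCircle) =
          (h t : ℂ) * (cs k t : ℂ) - (h t : ℂ) * ((sn k t : ℂ) * Complex.I) := by
        intro t
        rw [hFx, fourier_coe_apply, smul_eq_mul]
        have e2 : Complex.exp (2 * Real.pi * Complex.I * ((-(k : ℤ) : ℤ) : ℂ) * t / ((1 : ℝ) : ℂ)) =
            circ 1 t ^ (-(k : ℤ)) := by
          rw [circ_zpow]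
          push_cast
          rw [one_zpow, one_mul, div_one]
          congr 1
          ring
        rw [e2, circ_one_pow_neg]
        ring
      simp only [zero_add, e1]
      rw [intervalIntegral.integral_sub hic his, hs, sub_zero, hcs]
      simp
    · rw [fourierCoeff_eq_intervalIntegral F (-(k : ℤ)) 0]
      have e1 : ∀ t : ℝ, fourier (-(-(k : ℤ))) (t : UnitAddCircle) • F (t : UnitAddCircle) =
          (h t : ℂ) * (cs k t : ℂ) + (h t : ℂ) * ((sn k t : ℂ) * Complex.I) := by
        intro t
        rw [neg_neg, hFx, fourier_coe_apply, smul_eq_mul]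
        have e2 : Complex.exp (2 * Real.pi * Complex.I * ((k : ℤ) : ℂ) * t / ((1 : ℝ) : ℂ)) =
            circ 1 t ^ (k : ℤ) := by
          rw [circ_zpow]
          push_cast
          rw [one_zpow, one_mul, div_one]
          congr 1
          ring
        rw [e2, circ_one_pow_nat]
        ring
      simp only [zero_add, e1]
      rw [intervalIntegral.integral_add hic his, hs, add_zero, hcs]
      simp
  have hC : 0 ≤ C := by
    have := (abs_nonneg _).trans (hdec 0)
    simpa using this
  have hsummable : Summable fun k : ℕ => C * r ^ k :=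
    (summable_geometric_of_lt_one hr0 hr).mul_left C
  have hsum : Summable (fourierCoeff F) := by
    refine Summable.of_nat_of_neg ?_ ?_
    · refine Summable.of_norm_bounded hsummable fun k => ?_
      rw [(hco k).1, Complex.norm_real]
      exact hdec k
    · refine Summable.of_norm_bounded hsummable fun k => ?_
      rw [(hco k).2, Complex.norm_real]
      exact hdec k
  have h1 := has_pointwise_sum_fourier_series_of_summable hsum (x : UnitAddCircle)
  have h2 := h1.nat_add_neg
  have e3 : ∀ k : ℕ, fourierCoeff F (k : ℤ) • fourier (k : ℤ) (x : UnitAddCircle) +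
      fourierCoeff F (-(k : ℤ)) • fourier (-(k : ℤ)) (x : UnitAddCircle) =
      ((2 * ((∫ t in (0 : ℝ)..1, h t * cs k t) * cs k x) : ℝ) : ℂ) := by
    intro k
    rw [(hco k).1, (hco k).2, fourier_coe_apply, fourier_coe_apply]
    have e4 : Complex.exp (2 * Real.pi * Complex.I * ((k : ℤ) : ℂ) * x / ((1 : ℝ) : ℂ)) =
        circ 1 x ^ (k : ℤ) := by
      rw [circ_zpow]
      push_cast
      rw [one_zpow, one_mul, div_one]
      congr 1
      ring
    have e5 : Complex.exp (2 * Real.pi * Complex.I * ((-(k : ℤ) : ℤ) : ℂ) * x / ((1 : ℝ) : ℂ)) =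
        circ 1 x ^ (-(k : ℤ)) := by
      rw [circ_zpow]
      push_cast
      rw [one_zpow, one_mul, div_one]
      congr 1
      ring
    rw [e4, e5, circ_one_pow_nat, circ_one_pow_neg, smul_eq_mul, smul_eq_mul]
    push_cast
    ring
  have e6 : fourierCoeff F 0 • fourier 0 (x : UnitAddCircle) =
      ((∫ t in (0 : ℝ)..1, h t * cs 0 t : ℝ) : ℂ) := by
    have := (hco 0).1
    rw [Nat.cast_zero] at this
    rw [this, fourier_zero, smul_eq_mul, mul_one]
  simp only [e3] at h2
  rw [e6, hFx, ← Complex.ofReal_add] at h2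
  have h3 := Complex.hasSum_re h2
  simp only [Complex.ofReal_re] at h3
  have h4 := h3.tendsto_sum_nat
  have h5 := (h4.comp (tendsto_add_atTop_nat 1)).sub_const (∫ t in (0 : ℝ)..1, h t * cs 0 t)
  rw [add_sub_cancel_right] at h5
  refine h5.congr fun M => ?_
  simp only [Function.comp]
  have h6 : Finset.range (M + 1) = insert 0 (Finset.Icc 1 M) := by
    ext k
    simp only [Finset.mem_range, Finset.mem_insert, Finset.mem_Icc]
    omega
  rw [h6, Finset.sum_insert (by simp), ← Finset.mul_sum]
  rw [cs_zero x]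
  ring

end Pool.Agent.N686.EL
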