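import Pool.Agent.N686.DI.Int2
set_option autoImplicit false

/-!
The critical values of polynomials with distinct integral roots lie outside of the ellipse.
-/

namespace Pool.Agent.N686.EL

open Polynomial

open Pool.Agent.N686.DI

set_option maxHeartbeats 400000

theorem two_norm_le (v : ℂ) : 2 * ‖v‖ ≤ ‖v - 2‖ + ‖v + 2‖ := by
  have e : (2 : ℂ) * v = (v - 2) + (v + 2) := by ring
  calc 2 * ‖v‖ = ‖(2 : ℂ) * v‖ := by rw [norm_mul]; norm_num
    _ ≤ ‖v - 2‖ + ‖v + 2‖ := by rw [e]; exact norm_add_le _ _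

theorem three_sqrt_lt : 3 * √2 < 17 / 4 := by
  have h : √2 < 17 / 12 := by
    rw [Real.sqrt_lt' (by norm_num)]
    norm_num
  linarith

/-- For `F = m ∏ (x - b_i)`, with different integers `b_i`, all critical values lie outside of the
ellipse `|v - 2| + |v + 2| = 3 √2`, if `|m| (b_i - b_j) ≥ 17` for some `i, j`, or if `m ≠ 0` and
there are at least six roots. -/
theorem crit_outside_int {g : ℕ} (m : ℤ) (b : Fin (g + 1) → ℤ) (hb : Function.Injective b)
    (h : (∃ i j, 17 ≤ |m| * (b i - b j)) ∨ (m ≠ 0 ∧ 5 ≤ g)) (s : ℚ →+* ℂ) (x : ℂ)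
    (hx : (derivative (C (m : ℚ) * ∏ i, (X - C (b i : ℚ)))).eval₂ s x = 0) :
    3 * √2 < ‖(C (m : ℚ) * ∏ i, (X - C (b i : ℚ))).eval₂ s x - 2‖ +
      ‖(C (m : ℚ) * ∏ i, (X - C (b i : ℚ))).eval₂ s x + 2‖ := by
  have hm0 : m ≠ 0 := by
    rcases h with ⟨i, j, h⟩ | h
    · rintro rfl
      simp at h
    · exact h.1
  have hmap : (∏ i, (X - C (b i : ℚ))).map s = ∏ i, (X - C (b i : ℂ)) := by
    rw [Polynomial.map_prod]
    refine Finset.prod_congr rfl fun i _ => ?_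
    rw [Polynomial.map_sub, Polynomial.map_X, Polynomial.map_C, map_intCast]
  have hev : (C (m : ℚ) * ∏ i, (X - C (b i : ℚ))).eval₂ s x = m * ∏ i, (x - (b i : ℂ)) := by
    rw [eval₂_mul, eval₂_C, map_intCast, ← eval_map, hmap, eval_prod]
    simp
  have hcrit : (derivative (∏ i, (X - C (b i : ℂ)))).eval x = 0 := by
    rw [derivative_C_mul, eval₂_mul, eval₂_C, map_intCast, ← eval_map, ← derivative_map,
      hmap] at hx
    exact (mul_eq_zero.1 hx).resolve_left (by exact_mod_cast hm0)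
  rw [hev]
  refine lt_of_lt_of_le three_sqrt_lt (le_trans ?_ (two_norm_le _))
  rw [norm_mul, Complex.norm_intCast]
  have habs : ((|m| : ℤ) : ℝ) = |(m : ℝ)| := by push_cast; rfl
  rcases h with ⟨i, j, h⟩ | ⟨-, hg⟩
  · have h1 := crit_int_eighth b hb hcrit i j
    have h2 : (17 : ℝ) ≤ |(m : ℝ)| * ((b i - b j : ℤ) : ℝ) := by
      rw [← habs]
      exact_mod_cast h
    have h3 := mul_le_mul_of_nonneg_left h1 (abs_nonneg (m : ℝ))
    have h4 : |(m : ℝ)| * (((b i - b j : ℤ) : ℝ) / 8) = (|(m : ℝ)| * ((b i - b j : ℤ) : ℝ)) / 8 := by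
      ring
    rw [h4] at h3
    linarith
  · have h1 := (mm_ge_six (by omega : 6 ≤ g + 1)).trans (crit_int (Nat.succ_pos g) b hb hcrit)
    have h2 : (1 : ℝ) ≤ |(m : ℝ)| := by
      rw [← habs]
      exact_mod_cast Int.one_le_abs hm0
    have h3 : (0 : ℝ) ≤ ‖∏ i, (x - (b i : ℂ))‖ := norm_nonneg _
    nlinarith

end Pool.Agent.N686.EL
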