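import Pool.Agent.N686.EL.Cont
set_option autoImplicit false

/-!
The Fourier coefficients of `log |1 - a e^{2πit}|`, `0 ≤ a ≤ 1`.
-/

namespace Pool.Agent.N686.EL

open MeasureTheory Set Filter Topology Metric

open Pool.Agent.TH826.MK (circ norm_circ circ_add_one contDiff_circ hasDerivAt_circ circ_eq)

open Pool.Agent.Y775.CC

/-- `log |1 - a e^{2πit}|` -/
noncomputable def lg (a t : ℝ) : ℝ := Real.log ‖1 - (a : ℂ) * circ 1 t‖

theorem lg_add_one (a t : ℝ) : lg a (t + 1) = lg a t := by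
  unfold lg
  rw [circ_add_one]

theorem circ_one_neg (t : ℝ) : circ 1 (-t) = (starRingEnd ℂ) (circ 1 t) := by
  unfold circ
  rw [map_mul, Complex.conj_ofReal, ← Complex.exp_conj]
  congr 2
  rw [map_mul, map_mul, map_mul, Complex.conj_ofReal, Complex.conj_ofReal, Complex.conj_I]
  have h2 : (starRingEnd ℂ) 2 = 2 := Complex.conj_ofNat 2
  rw [h2]
  push_cast
  ring

theorem lg_neg (a t : ℝ) : lg a (-t) = lg a t := by
  unfold lg
  rw [circ_one_neg]
  have e : (1 : ℂ) - (a : ℂ) * (starRingEnd ℂ) (circ 1 t) =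
      (starRingEnd ℂ) (1 - (a : ℂ) * circ 1 t) := by
    simp
  rw [e, Complex.norm_conj]

theorem continuous_lg {a : ℝ} (h0 : 0 ≤ a) (h1 : a < 1) : Continuous (lg a) := by
  unfold lg
  refine Continuous.log (Continuous.norm (continuous_const.sub (continuous_const.mul
    (contDiff_circ 1 (n := 0)).continuous))) fun t => ?_
  intro h
  have h2 : (a : ℂ) * circ 1 t = 1 := (sub_eq_zero.1 (norm_eq_zero.1 h)).symm
  have h3 := congrArg norm h2
  rw [norm_mul, norm_circ zero_le_one, mul_one, Complex.norm_real, Real.norm_eq_abs,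
    abs_of_nonneg h0, norm_one] at h3
  linarith

theorem intervalIntegrable_lg_one (a b : ℝ) : IntervalIntegrable (lg 1) volume a b := by
  have h1 : IntervalIntegrable (lg 1) volume 0 1 := by
    have h := circleIntegrable_log_norm_sub_const (a := 1) (c := 0) 1
    have h2 : IntervalIntegrable (fun θ => Real.log ‖circleMap 0 1 θ - 1‖) volume 0
        (2 * Real.pi) := h
    have h3 := h2.comp_mul_left (c := 2 * Real.pi)
    have e1 : (0 : ℝ) / (2 * Real.pi) = 0 := by simp
    have e2 : (2 * Real.pi) / (2 * Real.pi) = 1 := div_self (by positivity)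
    rw [e1, e2] at h3
    refine h3.congr fun t _ => ?_
    unfold lg
    rw [circ_eq, norm_sub_rev]
    simp
  exact (show Function.Periodic (lg 1) 1 from lg_add_one 1).intervalIntegrable₀ one_ne_zero h1 a b

theorem intervalIntegrable_lg {a : ℝ} (h0 : 0 ≤ a) (h1 : a ≤ 1) (b c : ℝ) :
    IntervalIntegrable (lg a) volume b c := by
  rcases h1.lt_or_eq with h | h
  · exact (continuous_lg h0 h).intervalIntegrable _ _
  · rw [h]
    exact intervalIntegrable_lg_one b c

theorem int_mul_cs (j k : ℕ) (hj : 1 ≤ j) :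
    ∫ t in (0 : ℝ)..1, cs j t * cs k t = if j = k then 1 / 2 else 0 := by
  have h1 : ∀ m : ℤ, ∫ t in (0 : ℝ)..1, Real.cos (2 * Real.pi * m * t) = if m = 0 then 1 else 0 := by
    intro m
    by_cases hm : m = 0
    · simp [hm]
    · rw [if_neg hm]
      have hm' : (2 * Real.pi * m : ℝ) ≠ 0 := by
        have : (m : ℝ) ≠ 0 := by exact_mod_cast hm
        positivity
      rw [intervalIntegral.integral_comp_mul_left (fun x => Real.cos x) hm', integral_cos]
      have e : 2 * Real.pi * m * 1 = (m : ℤ) * (2 * Real.pi) := by push_cast; ring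
      rw [e, mul_zero, Real.sin_zero]
      have e2 : Real.sin ((m : ℤ) * (2 * Real.pi)) = 0 := by
        have := Real.sin_add_int_mul_two_pi 0 m
        simpa using this
      rw [e2]
      simp
  have h2 : ∀ t, cs j t * cs k t = (1 / 2) * Real.cos (2 * Real.pi * ((j : ℤ) - (k : ℤ) : ℤ) * t) +
      (1 / 2) * Real.cos (2 * Real.pi * ((j : ℤ) + (k : ℤ) : ℤ) * t) := by
    intro t
    unfold cs
    have e1 : 2 * Real.pi * (((j : ℤ) - (k : ℤ) : ℤ) : ℝ) * t =
        2 * Real.pi * j * t - 2 * Real.pi * k * t := by push_cast; ring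
    have e2 : 2 * Real.pi * (((j : ℤ) + (k : ℤ) : ℤ) : ℝ) * t =
        2 * Real.pi * j * t + 2 * Real.pi * k * t := by push_cast; ring
    rw [e1, e2, Real.cos_sub, Real.cos_add]
    ring
  simp only [h2]
  rw [intervalIntegral.integral_add, intervalIntegral.integral_const_mul,
    intervalIntegral.integral_const_mul, h1, h1]
  · have h3 : ((j : ℤ) + (k : ℤ)) ≠ 0 := by omega
    rw [if_neg h3]
    by_cases h : j = k
    · subst h
      simp
    · have h4 : ((j : ℤ) - (k : ℤ)) ≠ 0 := by omega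
      rw [if_neg h4, if_neg h]
      simp
  · exact (Continuous.intervalIntegrable (by fun_prop) _ _)
  · exact (Continuous.intervalIntegrable (by fun_prop) _ _)

theorem hasSum_lg {a : ℝ} (h0 : 0 ≤ a) (h1 : a < 1) (t : ℝ) :
    HasSum (fun j : ℕ => a ^ j / j * cs j t) (-lg a t) := by
  have hn : ‖(a : ℂ) * circ 1 t‖ < 1 := by
    rw [norm_mul, norm_circ zero_le_one, mul_one, Complex.norm_real, Real.norm_eq_abs,
      abs_of_nonneg h0]
    exact h1
  have h := Complex.hasSum_re (Complex.hasSum_taylorSeries_neg_log hn)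
  have e1 : (-Complex.log (1 - (a : ℂ) * circ 1 t)).re = -lg a t := by
    unfold lg
    rw [Complex.neg_re, Complex.log_re]
  rw [e1] at h
  convert h using 2 with j
  have e2 : ((a : ℂ) * circ 1 t) ^ j / j =
      ((a ^ j / j : ℝ) : ℂ) * ((cs j t : ℂ) + (sn j t : ℂ) * Complex.I) := by
    rw [mul_pow, ← circ_one_pow_nat, zpow_natCast]
    push_cast
    ring
  rw [e2, Complex.re_ofReal_mul]
  simp

/-- The cosine coefficients for `a < 1`. -/
theorem int_lg_cs_lt {a : ℝ} (h0 : 0 ≤ a) (h1 : a < 1) (k : ℕ) (hk : 1 ≤ k) :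
    ∫ t in (0 : ℝ)..1, lg a t * cs k t = -(a ^ k / (2 * k)) := by
  set f : ℕ → C(ℝ, ℝ) := fun j => ⟨fun t => a ^ j / j * cs j t * cs k t, by
    exact (continuous_const.mul (continuous_cs j)).mul (continuous_cs k)⟩ with hf
  have hsum : Summable fun j => ‖(f j).restrict
      (⟨uIcc (0 : ℝ) 1, isCompact_uIcc⟩ : TopologicalSpace.Compacts ℝ)‖ := by
    refine Summable.of_nonneg_of_le (fun j => norm_nonneg _) (fun j => ?_)
      (summable_geometric_of_lt_one h0 h1)
    rw [ContinuousMap.norm_le _ (pow_nonneg h0 j)]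
    rintro ⟨t, ht⟩
    change ‖a ^ j / j * cs j t * cs k t‖ ≤ a ^ j
    rw [norm_mul, norm_mul]
    have h2 : ‖cs j t‖ ≤ 1 := Real.abs_cos_le_one _
    have h3 : ‖cs k t‖ ≤ 1 := Real.abs_cos_le_one _
    have h4 : ‖a ^ j / j‖ ≤ a ^ j := by
      rw [Real.norm_eq_abs, abs_of_nonneg (by positivity)]
      rcases Nat.eq_zero_or_pos j with hj | hj
      · subst hj
        simp
      · refine div_le_self (pow_nonneg h0 j) ?_
        exact_mod_cast hj
    calc ‖a ^ j / j‖ * ‖cs j t‖ * ‖cs k t‖ ≤ a ^ j * 1 * 1 := by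
          refine mul_le_mul (mul_le_mul h4 h2 (norm_nonneg _) (pow_nonneg h0 j)) h3
            (norm_nonneg _) (by positivity)
      _ = a ^ j := by ring
  have h := intervalIntegral.hasSum_intervalIntegral_of_summable_norm (a := (0 : ℝ)) (b := 1) hsum
  have e1 : ∀ t, ∑' j, f j t = -(lg a t * cs k t) := by
    intro t
    have h2 := (hasSum_lg h0 h1 t).mul_right (cs k t)
    rw [← neg_mul]
    exact h2.tsum_eq
  have e2 : ∀ j, ∫ t in (0 : ℝ)..1, f j t = if j = k then a ^ k / (2 * k) else 0 := by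
    intro j
    change ∫ t in (0 : ℝ)..1, a ^ j / j * cs j t * cs k t = _
    simp only [mul_assoc]
    rw [intervalIntegral.integral_const_mul]
    rcases Nat.eq_zero_or_pos j with hj | hj
    · subst hj
      rw [if_neg (by omega)]
      simp
    · rw [int_mul_cs j k hj]
      split_ifs with hjk
      · subst hjk
        field_simp
      · ring
  simp only [e1, e2] at h
  rw [intervalIntegral.integral_neg] at h
  have h3 := h.unique (hasSum_ite_eq k (a ^ k / (2 * k)))
  linarith

theorem abs_lg_le {a t : ℝ} (h0 : 0 ≤ a) (h1 : a ≤ 1) (ht : circ 1 t ≠ 1) :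
    |lg a t| ≤ |lg 1 t| + Real.log 2 := by
  have hn1 : ‖circ 1 t‖ = 1 := norm_circ zero_le_one t
  have h2 : 0 < ‖1 - circ 1 t‖ := norm_pos_iff.2 (sub_ne_zero.2 (Ne.symm ht))
  have h3 : 1 - a ≤ ‖1 - (a : ℂ) * circ 1 t‖ := by
    have h4 := norm_sub_norm_le (1 : ℂ) ((a : ℂ) * circ 1 t)
    rw [norm_mul, hn1, mul_one, norm_one, Complex.norm_real, Real.norm_eq_abs,
      abs_of_nonneg h0] at h4
    exact h4
  have h4 : ‖1 - circ 1 t‖ ≤ ‖1 - (a : ℂ) * circ 1 t‖ + (1 - a) := by
    have e : 1 - circ 1 t = (1 - (a : ℂ) * circ 1 t) - ((1 - a : ℝ) : ℂ) * circ 1 t := by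
      push_cast
      ring
    rw [e]
    refine (norm_sub_le _ _).trans (le_of_eq ?_)
    rw [norm_mul, hn1, mul_one, Complex.norm_real, Real.norm_eq_abs,
      abs_of_nonneg (by linarith : 0 ≤ 1 - a)]
  have h5 : ‖1 - circ 1 t‖ / 2 ≤ ‖1 - (a : ℂ) * circ 1 t‖ := by linarith
  have h6 : ‖1 - (a : ℂ) * circ 1 t‖ ≤ 2 := by
    refine (norm_sub_le _ _).trans ?_
    rw [norm_mul, hn1, mul_one, norm_one, Complex.norm_real, Real.norm_eq_abs,
      abs_of_nonneg h0]
    linarith
  have h7 : 0 < ‖1 - (a : ℂ) * circ 1 t‖ := lt_of_lt_of_le (by positivity) h5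
  have e1 : lg 1 t = Real.log ‖1 - circ 1 t‖ := by
    unfold lg
    simp
  have h8 : lg a t ≤ Real.log 2 := Real.log_le_log h7 h6
  have h9 : lg 1 t - Real.log 2 ≤ lg a t := by
    rw [e1, ← Real.log_div h2.ne' two_ne_zero]
    exact Real.log_le_log (by positivity) h5
  have h10 : 0 < Real.log 2 := Real.log_pos one_lt_two
  have h11 := neg_abs_le (lg 1 t)
  have h12 := abs_nonneg (lg 1 t)
  rw [abs_le]
  constructor <;> linarith

theorem ae_circ_ne_one : ∀ᵐ t : ℝ, circ 1 t ≠ 1 := by
  have h : {t : ℝ | ¬circ 1 t ≠ 1}.Countable := by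
    refine (Set.countable_range (fun m : ℤ => (m : ℝ))).mono fun t ht => ?_
    simp only [ne_eq, not_not, mem_ofPred_eq] at ht
    unfold circ at ht
    rw [Complex.ofReal_one, one_mul, Complex.exp_eq_one_iff] at ht
    obtain ⟨m, hm⟩ := ht
    refine ⟨m, ?_⟩
    have hne : (2 * (Real.pi : ℂ) * Complex.I) ≠ 0 := Complex.two_pi_I_ne_zero
    have h2 : (t : ℂ) = m := by
      apply mul_left_cancel₀ hne
      rw [hm]
      ring
    have h3 : (t : ℂ) = ((m : ℝ) : ℂ) := by
      rw [h2]
      simp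
    exact (Complex.ofReal_injective h3).symm
  exact h.measure_zero _

/-- The cosine coefficients. -/
theorem int_lg_cs {a : ℝ} (h0 : 0 ≤ a) (h1 : a ≤ 1) (k : ℕ) (hk : 1 ≤ k) :
    ∫ t in (0 : ℝ)..1, lg a t * cs k t = -(a ^ k / (2 * k)) := by
  rcases h1.lt_or_eq with h | h
  · exact int_lg_cs_lt h0 h k hk
  subst h
  have hlim : Tendsto (fun a : ℝ => ∫ t in (0 : ℝ)..1, lg a t * cs k t) (𝓝[<] 1)
      (𝓝 (∫ t in (0 : ℝ)..1, lg 1 t * cs k t)) := by
    refine intervalIntegral.tendsto_integral_filter_of_dominated_convergence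
      (fun t => |lg 1 t| + Real.log 2) ?_ ?_ ?_ ?_
    · filter_upwards [Ico_mem_nhdsLT (zero_lt_one (α := ℝ))] with a ha
      exact ((continuous_lg ha.1 ha.2).mul (continuous_cs k)).aestronglyMeasurable
    · filter_upwards [Ico_mem_nhdsLT (zero_lt_one (α := ℝ))] with a ha
      filter_upwards [ae_circ_ne_one] with t ht _
      rw [Real.norm_eq_abs, abs_mul]
      have h2 : |cs k t| ≤ 1 := Real.abs_cos_le_one _
      calc |lg a t| * |cs k t| ≤ |lg a t| * 1 := mul_le_mul_of_nonneg_left h2 (abs_nonneg _)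
        _ = |lg a t| := mul_one _
        _ ≤ _ := abs_lg_le ha.1 ha.2.le ht
    · exact (intervalIntegrable_lg_one 0 1).abs.add intervalIntegrable_const
    · filter_upwards [ae_circ_ne_one] with t ht _
      refine Tendsto.mul_const _ ?_
      have hc : ContinuousAt (fun a : ℝ => lg a t) 1 := by
        unfold lg
        refine ContinuousAt.log ?_ ?_
        · exact (continuousAt_const.sub (Complex.continuous_ofReal.continuousAt.mul
            continuousAt_const)).norm
        · have h2 : (1 : ℂ) - ((1 : ℝ) : ℂ) * circ 1 t ≠ 0 := by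
            rw [Complex.ofReal_one, one_mul]
            exact sub_ne_zero.2 (Ne.symm ht)
          exact norm_ne_zero_iff.2 h2
      exact hc.tendsto.mono_left nhdsWithin_le_nhds
  have hlim2 : Tendsto (fun a : ℝ => ∫ t in (0 : ℝ)..1, lg a t * cs k t) (𝓝[<] 1)
      (𝓝 (-((1 : ℝ) ^ k / (2 * k)))) := by
    have hc : ContinuousAt (fun a : ℝ => -(a ^ k / (2 * k))) 1 := by fun_prop
    refine (hc.tendsto.mono_left nhdsWithin_le_nhds).congr' ?_
    filter_upwards [Ico_mem_nhdsLT (zero_lt_one (α := ℝ))] with a ha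
    exact (int_lg_cs_lt ha.1 ha.2 k hk).symm
  exact tendsto_nhds_unique hlim hlim2

theorem int_lg_sn (a : ℝ) (k : ℕ) : ∫ t in (0 : ℝ)..1, lg a t * sn k t = 0 := by
  refine integral_odd (fun t => ?_) fun t => ?_
  · rw [lg_add_one, sn_add_one]
  · rw [lg_neg, sn_neg, mul_neg]

theorem int_lg {a : ℝ} (h0 : 0 ≤ a) (h1 : a ≤ 1) : ∫ t in (0 : ℝ)..1, lg a t = 0 := by
  rcases h0.eq_or_lt with h | h
  · subst h
    unfold lg
    simp
  · have h2 := avg_circ_sub (R := a⁻¹) (inv_pos.2 h) (a := 1) (by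
      rw [norm_one]
      exact (one_le_inv₀ h).2 h1)
    have h3 : ∀ t, lg a t = Real.log ‖1 - (a : ℂ) * circ 1 (-t)‖ := fun t => by
      rw [← lg_neg]
      rfl
    have hac : (a : ℂ) ≠ 0 := by exact_mod_cast h.ne'
    have h4 : ∀ᵐ t : ℝ, t ∈ uIoc (0 : ℝ) 1 → lg a t = Real.log a + Real.log ‖circ a⁻¹ (-t) - 1‖ +
        0 := by
      filter_upwards [ae_circ_ne_one] with t ht _
      have e : 1 - (a : ℂ) * circ 1 t = (a : ℂ) * circ 1 t * (circ a⁻¹ (-t) - 1) := by
        rw [circ_eq_mul a⁻¹, circ_one_neg]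
        have h5 : circ 1 t * (starRingEnd ℂ) (circ 1 t) = 1 := by
          rw [Complex.mul_conj, Complex.normSq_eq_norm_sq, norm_circ zero_le_one]
          simp
        push_cast
        linear_combination (-(a : ℂ) * (a : ℂ)⁻¹) * h5 - mul_inv_cancel₀ hac
      have hne : circ a⁻¹ (-t) - 1 ≠ 0 := by
        intro h6
        apply ht
        have h7 : circ a⁻¹ (-t) = 1 := sub_eq_zero.1 h6
        have h8 := congrArg norm h7
        rw [norm_circ (inv_nonneg.2 h0), norm_one] at h8
        rw [h8] at h7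
        rw [circ_one_neg] at h7
        have h9 := congrArg (starRingEnd ℂ) h7
        simpa using h9
      unfold lg
      rw [e, norm_mul, norm_mul, norm_circ zero_le_one, mul_one, Complex.norm_real,
        Real.norm_eq_abs, abs_of_pos h, Real.log_mul h.ne' (norm_ne_zero_iff.2 hne), add_zero]
    rw [intervalIntegral.integral_congr_ae h4]
    simp only [add_zero]
    have hint : IntervalIntegrable (fun t => Real.log ‖circ a⁻¹ (-t) - 1‖) volume 0 1 := by
      have h5 := (intervalIntegrable_lg h0 h1 0 1).sub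
        (intervalIntegrable_const (μ := volume) (a := (0 : ℝ)) (b := 1) (c := Real.log a))
      refine h5.congr_ae ?_
      have h6 := (ae_restrict_iff' (measurableSet_uIoc (a := (0 : ℝ)) (b := 1))).2 h4
      filter_upwards [h6] with t ht
      rw [ht]
      ring
    rw [intervalIntegral.integral_add intervalIntegrable_const hint]
    have h5 : ∫ t in (0 : ℝ)..1, Real.log ‖circ a⁻¹ (-t) - 1‖ =
        ∫ t in (0 : ℝ)..1, Real.log ‖circ a⁻¹ t - 1‖ := by
      rw [intervalIntegral.integral_comp_neg (fun t => Real.log ‖circ a⁻¹ t - 1‖)]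
      have h6 : Function.Periodic (fun t => Real.log ‖circ a⁻¹ t - 1‖) 1 := fun t => by
        simp only [circ_add_one]
      have h7 := h6.intervalIntegral_add_eq (-1) 0
      simpa using h7
    rw [h5, h2, Real.log_inv]
    simp

end Pool.Agent.N686.EL
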