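import Pool.Agent.N686.EL.Ker
set_option autoImplicit false

/-!
The logarithmic energy of trigonometric densities on an ellipse.
-/

namespace Pool.Agent.N686.EL

open MeasureTheory Set Filter Topology Metric

open Pool.Agent.TH826.MK (circ norm_circ circ_add_one contDiff_circ hasDerivAt_circ circ_eq)

open Pool.Agent.Y775.CC

theorem int_sub_shift {E : Type*} [NormedAddCommGroup E] [NormedSpace ℝ E] {f : ℝ → E}
    (hp : ∀ t, f (t + 1) = f t) (θ : ℝ) :
    ∫ t in (0 : ℝ)..1, f (θ - t) = ∫ t in (0 : ℝ)..1, f t := by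
  rw [intervalIntegral.integral_comp_sub_left]
  have h3 := (show Function.Periodic f 1 from hp).intervalIntegral_add_eq (θ - 1) 0
  simpa using h3

theorem int_add_shift {E : Type*} [NormedAddCommGroup E] [NormedSpace ℝ E] {f : ℝ → E}
    (hp : ∀ t, f (t + 1) = f t) (θ : ℝ) :
    ∫ t in (0 : ℝ)..1, f (t + θ) = ∫ t in (0 : ℝ)..1, f t := by
  rw [intervalIntegral.integral_comp_add_right]
  have h3 := (show Function.Periodic f 1 from hp).intervalIntegral_add_eq θ 0
  rw [zero_add, add_comm]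
  simpa using h3

/-- the logarithmic kernel on the ellipse -/
noncomputable def hh (q t θ : ℝ) : ℝ := Real.log ‖uu q t - uu q θ‖

theorem circ_add (s t : ℝ) : circ 1 (s + t) = circ 1 s * circ 1 t := by
  unfold circ
  push_cast
  rw [one_mul, one_mul, one_mul, ← Complex.exp_add]
  congr 1
  ring

theorem hh_eq {q : ℝ} (hq : 1 < q) {t θ : ℝ} (h : circ 1 (θ - t) ≠ 1) :
    hh q t θ = Real.log q + lg 1 (θ - t) + lg (q ^ 2)⁻¹ (t + θ) := by
  have hq0 : 0 < q := by linarith
  have hqc : (q : ℂ) ≠ 0 := by exact_mod_cast hq0.ne'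
  have hc : circ 1 t ≠ 0 := circ_ne_zero one_pos t
  have hw : circ 1 θ = circ 1 t * circ 1 (θ - t) := by
    rw [← circ_add]
    congr 1
    ring
  have hinv : ∀ s, circ 1 (-s) = (circ 1 s)⁻¹ := by
    intro s
    have h1 := circ_add s (-s)
    have h0 : circ 1 0 = 1 := by
      unfold circ
      simp
    rw [add_neg_cancel, h0] at h1
    exact eq_inv_of_mul_eq_one_right h1.symm
  have e : uu q t - uu q θ = (q : ℂ) * circ 1 t * (1 - circ 1 (θ - t)) *
      (1 - (((q ^ 2)⁻¹ : ℝ) : ℂ) * circ 1 (-(t + θ))) := by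
    unfold uu
    rw [circ_eq_mul q t, circ_eq_mul q θ, hinv, circ_add t θ, hw]
    have hc2 : circ 1 (θ - t) ≠ 0 := circ_ne_zero one_pos _
    push_cast
    field_simp
    ring
  have h1 : ‖1 - circ 1 (θ - t)‖ ≠ 0 := norm_ne_zero_iff.2 (sub_ne_zero.2 (Ne.symm h))
  have h2 : ‖1 - (((q ^ 2)⁻¹ : ℝ) : ℂ) * circ 1 (-(t + θ))‖ ≠ 0 := by
    rw [norm_ne_zero_iff]
    intro h3
    have h4 := congrArg norm (sub_eq_zero.1 h3)
    rw [norm_mul, norm_circ zero_le_one, mul_one, norm_one, Complex.norm_real, Real.norm_eq_abs,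
      abs_of_nonneg (by positivity)] at h4
    have h5 : (q ^ 2)⁻¹ < 1 := inv_lt_one_of_one_lt₀ (one_lt_pow₀ hq two_ne_zero)
    linarith
  unfold hh
  rw [e, norm_mul, norm_mul, norm_mul, norm_circ zero_le_one, mul_one, Complex.norm_real,
    Real.norm_eq_abs, abs_of_pos hq0, Real.log_mul (mul_ne_zero hq0.ne' h1) h2,
    Real.log_mul hq0.ne' h1, ← lg_neg _ (t + θ)]
  unfold lg
  simp

theorem ae_shift (θ : ℝ) : ∀ᵐ t : ℝ, circ 1 (θ - t) ≠ 1 :=
  (quasiMeasurePreserving_sub_left volume θ).ae ae_circ_ne_one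

theorem ae_hh {q : ℝ} (hq : 1 < q) (θ : ℝ) : ∀ᵐ t : ℝ,
    hh q t θ = Real.log q + lg 1 (θ - t) + lg (q ^ 2)⁻¹ (t + θ) := by
  filter_upwards [ae_shift θ] with t ht
  exact hh_eq hq ht

theorem q2_nonneg {q : ℝ} (hq : 1 < q) : 0 ≤ (q ^ 2)⁻¹ := by positivity

theorem q2_le {q : ℝ} (hq : 1 < q) : (q ^ 2)⁻¹ < 1 :=
  inv_lt_one_of_one_lt₀ (one_lt_pow₀ hq two_ne_zero)

theorem ii_one (θ : ℝ) : IntervalIntegrable (fun t => lg 1 (θ - t)) volume 0 1 := by
  have h := (intervalIntegrable_lg_one (θ - 0) (θ - 1)).comp_sub_left θ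
  simpa using h

theorem ii_two {q : ℝ} (hq : 1 < q) (θ : ℝ) :
    Continuous fun t => lg (q ^ 2)⁻¹ (t + θ) :=
  (continuous_lg (q2_nonneg hq) (q2_le hq)).comp (continuous_id.add continuous_const)

theorem ii_hh {q : ℝ} (hq : 1 < q) (θ : ℝ) :
    IntervalIntegrable (fun t => hh q t θ) volume 0 1 := by
  have h1 : IntervalIntegrable (fun t => Real.log q + lg 1 (θ - t) + lg (q ^ 2)⁻¹ (t + θ))
      volume 0 1 :=
    (intervalIntegrable_const.add (ii_one θ)).add ((ii_two hq θ).intervalIntegrable _ _)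
  refine h1.congr_ae ?_
  refine ae_restrict_of_ae ?_
  filter_upwards [ae_hh hq θ] with t ht
  exact ht.symm

/-- integrals against the kernel -/
theorem int_hh_mul {q : ℝ} (hq : 1 < q) (θ : ℝ) {F : ℝ → ℝ} (hF : Continuous F) :
    ∫ t in (0 : ℝ)..1, hh q t θ * F t = Real.log q * (∫ t in (0 : ℝ)..1, F t) +
      (∫ t in (0 : ℝ)..1, lg 1 (θ - t) * F t) +
      ∫ t in (0 : ℝ)..1, lg (q ^ 2)⁻¹ (t + θ) * F t := by
  have h1 : ∫ t in (0 : ℝ)..1, hh q t θ * F t = ∫ t in (0 : ℝ)..1,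
      (Real.log q * F t + lg 1 (θ - t) * F t + lg (q ^ 2)⁻¹ (t + θ) * F t) := by
    refine intervalIntegral.integral_congr_ae ?_
    filter_upwards [ae_hh hq θ] with t ht _
    rw [ht]
    ring
  have hi1 : IntervalIntegrable (fun t => Real.log q * F t) volume 0 1 :=
    (continuous_const.mul hF).intervalIntegrable _ _
  have hi2 : IntervalIntegrable (fun t => lg 1 (θ - t) * F t) volume 0 1 :=
    (ii_one θ).mul_continuousOn hF.continuousOn
  have hi3 : IntervalIntegrable (fun t => lg (q ^ 2)⁻¹ (t + θ) * F t) volume 0 1 :=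
    ((ii_two hq θ).mul hF).intervalIntegrable _ _
  rw [h1, intervalIntegral.integral_add (hi1.add hi2) hi3,
    intervalIntegral.integral_add hi1 hi2, intervalIntegral.integral_const_mul]

theorem cs_sub (k : ℕ) (s t : ℝ) : cs k (s - t) = cs k s * cs k t + sn k s * sn k t := by
  unfold cs sn
  rw [mul_sub, Real.cos_sub]

theorem sn_sub (k : ℕ) (s t : ℝ) : sn k (s - t) = sn k s * cs k t - cs k s * sn k t := by
  unfold cs sn
  rw [mul_sub, Real.sin_sub]

section coefficients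

variable {a : ℝ} (h0 : 0 ≤ a) (h1 : a ≤ 1) (θ : ℝ)

include h0 h1

theorem ii_cs (k : ℕ) : IntervalIntegrable (fun t => lg a t * cs k t) volume 0 1 :=
  (intervalIntegrable_lg h0 h1 0 1).mul_continuousOn (continuous_cs k).continuousOn

theorem ii_sn (k : ℕ) : IntervalIntegrable (fun t => lg a t * sn k t) volume 0 1 :=
  (intervalIntegrable_lg h0 h1 0 1).mul_continuousOn (continuous_sn k).continuousOn

theorem int_sub_cs (k : ℕ) (hk : 1 ≤ k) :
    ∫ t in (0 : ℝ)..1, lg a (θ - t) * cs k t = -(a ^ k / (2 * k)) * cs k θ := by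
  have h2 := int_sub_shift (f := fun u => lg a u * cs k (θ - u)) (fun t => by
    rw [lg_add_one, show θ - (t + 1) = (θ - t - 1) by ring,
      ← cs_add_one k (θ - t - 1), sub_add_cancel]) θ
  simp only [sub_sub_cancel] at h2
  rw [h2]
  have h3 : ∀ t, lg a t * cs k (θ - t) = cs k θ * (lg a t * cs k t) +
      sn k θ * (lg a t * sn k t) := fun t => by
    rw [cs_sub]
    ring
  simp only [h3]
  rw [intervalIntegral.integral_add ((ii_cs h0 h1 k).const_mul _) ((ii_sn h0 h1 k).const_mul _),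
    intervalIntegral.integral_const_mul, intervalIntegral.integral_const_mul,
    int_lg_cs h0 h1 k hk, int_lg_sn]
  ring

theorem int_sub_sn (k : ℕ) (hk : 1 ≤ k) :
    ∫ t in (0 : ℝ)..1, lg a (θ - t) * sn k t = -(a ^ k / (2 * k)) * sn k θ := by
  have h2 := int_sub_shift (f := fun u => lg a u * sn k (θ - u)) (fun t => by
    rw [lg_add_one, show θ - (t + 1) = (θ - t - 1) by ring,
      ← sn_add_one k (θ - t - 1), sub_add_cancel]) θ
  simp only [sub_sub_cancel] at h2
  rw [h2]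
  have h3 : ∀ t, lg a t * sn k (θ - t) = sn k θ * (lg a t * cs k t) +
      (-cs k θ) * (lg a t * sn k t) := fun t => by
    rw [sn_sub]
    ring
  simp only [h3]
  rw [intervalIntegral.integral_add ((ii_cs h0 h1 k).const_mul _) ((ii_sn h0 h1 k).const_mul _),
    intervalIntegral.integral_const_mul, intervalIntegral.integral_const_mul,
    int_lg_cs h0 h1 k hk, int_lg_sn]
  ring

theorem int_add_cs (k : ℕ) (hk : 1 ≤ k) :
    ∫ t in (0 : ℝ)..1, lg a (t + θ) * cs k t = -(a ^ k / (2 * k)) * cs k θ := by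
  have h2 := int_add_shift (f := fun u => lg a u * cs k (u - θ)) (fun t => by
    rw [lg_add_one, show t + 1 - θ = (t - θ) + 1 by ring, cs_add_one]) θ
  simp only [add_sub_cancel_right] at h2
  rw [h2]
  have h3 : ∀ t, lg a t * cs k (t - θ) = cs k θ * (lg a t * cs k t) +
      sn k θ * (lg a t * sn k t) := fun t => by
    rw [cs_sub]
    ring
  simp only [h3]
  rw [intervalIntegral.integral_add ((ii_cs h0 h1 k).const_mul _) ((ii_sn h0 h1 k).const_mul _),
    intervalIntegral.integral_const_mul, intervalIntegral.integral_const_mul,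
    int_lg_cs h0 h1 k hk, int_lg_sn]
  ring

theorem int_add_sn (k : ℕ) (hk : 1 ≤ k) :
    ∫ t in (0 : ℝ)..1, lg a (t + θ) * sn k t = (a ^ k / (2 * k)) * sn k θ := by
  have h2 := int_add_shift (f := fun u => lg a u * sn k (u - θ)) (fun t => by
    rw [lg_add_one, show t + 1 - θ = (t - θ) + 1 by ring, sn_add_one]) θ
  simp only [add_sub_cancel_right] at h2
  rw [h2]
  have h3 : ∀ t, lg a t * sn k (t - θ) = (-sn k θ) * (lg a t * cs k t) +
      cs k θ * (lg a t * sn k t) := fun t => by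
    rw [sn_sub]
    ring
  simp only [h3]
  rw [intervalIntegral.integral_add ((ii_cs h0 h1 k).const_mul _) ((ii_sn h0 h1 k).const_mul _),
    intervalIntegral.integral_const_mul, intervalIntegral.integral_const_mul,
    int_lg_cs h0 h1 k hk, int_lg_sn]
  ring

end coefficients

theorem int_sub_one {a : ℝ} (h0 : 0 ≤ a) (h1 : a ≤ 1) (θ : ℝ) :
    ∫ t in (0 : ℝ)..1, lg a (θ - t) = 0 := by
  rw [int_sub_shift (fun t => lg_add_one a t) θ, int_lg h0 h1]

theorem int_add_one {a : ℝ} (h0 : 0 ≤ a) (h1 : a ≤ 1) (θ : ℝ) :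
    ∫ t in (0 : ℝ)..1, lg a (t + θ) = 0 := by
  rw [int_add_shift (fun t => lg_add_one a t) θ, int_lg h0 h1]

section pot

variable {q : ℝ} (hq : 1 < q) (θ : ℝ)

include hq

theorem pot_one : ∫ t in (0 : ℝ)..1, hh q t θ = Real.log q := by
  have h := int_hh_mul hq θ (F := fun _ => 1) continuous_const
  simp only [mul_one] at h
  rw [h, int_sub_one zero_le_one le_rfl, int_add_one (q2_nonneg hq) (q2_le hq).le]
  simp

theorem pot_cs (k : ℕ) (hk : 1 ≤ k) : ∫ t in (0 : ℝ)..1, hh q t θ * cs k t =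
    -((1 + ((q ^ 2)⁻¹) ^ k) / (2 * k)) * cs k θ := by
  have h2 : ∫ t in (0 : ℝ)..1, cs k t = 0 := by
    have h3 := int_mul_cs k 0 hk
    rw [if_neg (by omega)] at h3
    simpa [cs_zero] using h3
  rw [int_hh_mul hq θ (continuous_cs k), h2, int_sub_cs zero_le_one le_rfl θ k hk,
    int_add_cs (q2_nonneg hq) (q2_le hq).le θ k hk]
  rw [one_pow]
  ring

theorem pot_sn (k : ℕ) (hk : 1 ≤ k) : ∫ t in (0 : ℝ)..1, hh q t θ * sn k t =
    -((1 - ((q ^ 2)⁻¹) ^ k) / (2 * k)) * sn k θ := by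
  have h2 : ∫ t in (0 : ℝ)..1, sn k t = 0 :=
    integral_odd (sn_add_one k) (sn_neg k)
  rw [int_hh_mul hq θ (continuous_sn k), h2, int_sub_sn zero_le_one le_rfl θ k hk,
    int_add_sn (q2_nonneg hq) (q2_le hq).le θ k hk]
  rw [one_pow]
  ring

end pot

end Pool.Agent.N686.EL
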