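import Pool.Agent.N686.EL.Ker2
set_option autoImplicit false

/-!
The logarithmic energy of trigonometric densities on an ellipse.
-/

namespace Pool.Agent.N686.EL

open MeasureTheory Set Filter Topology Metric

open Pool.Agent.TH826.MK (circ norm_circ circ_add_one contDiff_circ hasDerivAt_circ circ_eq)

open Pool.Agent.Y775.CC

theorem int_mul_sn (j k : ℕ) (hj : 1 ≤ j) (hk : 1 ≤ k) :
    ∫ t in (0 : ℝ)..1, sn j t * sn k t = if j = k then 1 / 2 else 0 := by
  have h1 := int_mul_cs j k hj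
  have h2 : ∀ t, sn j t * sn k t = Real.cos (2 * Real.pi * ((j : ℤ) - (k : ℤ) : ℤ) * t) -
      cs j t * cs k t := by
    intro t
    unfold cs sn
    have e1 : 2 * Real.pi * (((j : ℤ) - (k : ℤ) : ℤ) : ℝ) * t =
        2 * Real.pi * j * t - 2 * Real.pi * k * t := by push_cast; ring
    rw [e1, Real.cos_sub]
    ring
  simp only [h2]
  rw [intervalIntegral.integral_sub, h1]
  · by_cases h : j = k
    · subst h
      simp
      norm_num
    · rw [if_neg h, sub_zero]
      have hm : ((j : ℤ) - (k : ℤ)) ≠ 0 := by omega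
      have hm' : (2 * Real.pi * (((j : ℤ) - (k : ℤ) : ℤ) : ℝ) : ℝ) ≠ 0 := by
        have : ((((j : ℤ) - (k : ℤ) : ℤ)) : ℝ) ≠ 0 := by exact_mod_cast hm
        positivity
      rw [intervalIntegral.integral_comp_mul_left (fun x => Real.cos x) hm', integral_cos]
      have e : 2 * Real.pi * (((j : ℤ) - (k : ℤ) : ℤ) : ℝ) * 1 =
          (((j : ℤ) - (k : ℤ) : ℤ)) * (2 * Real.pi) := by push_cast; ring
      rw [e, mul_zero, Real.sin_zero]
      have e2 : Real.sin ((((j : ℤ) - (k : ℤ) : ℤ)) * (2 * Real.pi)) = 0 := by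
        have := Real.sin_add_int_mul_two_pi 0 ((j : ℤ) - (k : ℤ))
        simpa using this
      rw [e2]
      simp
  · exact (Continuous.intervalIntegrable (by fun_prop) _ _)
  · exact ((continuous_cs j).mul (continuous_cs k)).intervalIntegrable _ _

theorem int_cs (k : ℕ) (hk : 1 ≤ k) : ∫ t in (0 : ℝ)..1, cs k t = 0 := by
  have h3 := int_mul_cs k 0 hk
  rw [if_neg (by omega)] at h3
  simpa [cs_zero] using h3

/-- Orthogonality. -/
theorem orth (u : ℕ → ℝ → ℝ) (hu : ∀ k, Continuous (u k)) (M : ℕ)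
    (ho : ∀ j ∈ Finset.Icc 1 M, ∀ k ∈ Finset.Icc 1 M,
      ∫ t in (0 : ℝ)..1, u j t * u k t = if j = k then 1 / 2 else 0) (α β : ℕ → ℝ) :
    ∫ t in (0 : ℝ)..1, (∑ k ∈ Finset.Icc 1 M, α k * u k t) * (∑ k ∈ Finset.Icc 1 M, β k * u k t) =
      ∑ k ∈ Finset.Icc 1 M, α k * β k / 2 := by
  have h1 : ∀ t, (∑ k ∈ Finset.Icc 1 M, α k * u k t) * (∑ k ∈ Finset.Icc 1 M, β k * u k t) =
      ∑ j ∈ Finset.Icc 1 M, ∑ k ∈ Finset.Icc 1 M, α j * β k * (u j t * u k t) := by
    intro t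
    rw [Finset.sum_mul_sum]
    refine Finset.sum_congr rfl fun j _ => Finset.sum_congr rfl fun k _ => ?_
    ring
  have hi : ∀ j k, IntervalIntegrable (fun t => α j * β k * (u j t * u k t)) volume 0 1 :=
    fun j k => (continuous_const.mul ((hu j).mul (hu k))).intervalIntegrable _ _
  have hi2 : ∀ j ∈ Finset.Icc 1 M, IntervalIntegrable
      (fun t => ∑ k ∈ Finset.Icc 1 M, α j * β k * (u j t * u k t)) volume 0 1 := fun j _ =>
    (continuous_finsetSum _ fun k _ =>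
      continuous_const.mul ((hu j).mul (hu k))).intervalIntegrable _ _
  simp only [h1]
  rw [intervalIntegral.integral_finsetSum hi2]
  refine Finset.sum_congr rfl fun j hj => ?_
  rw [intervalIntegral.integral_finsetSum fun k _ => hi j k]
  rw [Finset.sum_eq_single_of_mem j hj]
  · rw [intervalIntegral.integral_const_mul, ho j hj j hj, if_pos rfl]
    ring
  · intro k hk hkj
    rw [intervalIntegral.integral_const_mul, ho j hj k hk, if_neg (Ne.symm hkj), mul_zero]

theorem int_sum_real {u : ℕ → ℝ → ℝ} (c : ℕ → ℝ) (S : Finset ℕ)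
    (hu : ∀ k ∈ S, IntervalIntegrable (u k) volume 0 1) :
    ∫ t in (0 : ℝ)..1, ∑ k ∈ S, c k * u k t = ∑ k ∈ S, c k * ∫ t in (0 : ℝ)..1, u k t := by
  have h : ∀ k ∈ S, IntervalIntegrable (fun t => c k * u k t) volume 0 1 := fun k hk =>
    (hu k hk).const_mul _
  rw [intervalIntegral.integral_finsetSum h]
  exact Finset.sum_congr rfl fun k _ => intervalIntegral.integral_const_mul _ _

section

variable {q : ℝ} (hq : 1 < q) (a : ℕ → ℝ) (M : ℕ)

include hq

theorem ii_hh_mul (θ : ℝ) {F : ℝ → ℝ} (hF : Continuous F) :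
    IntervalIntegrable (fun t => hh q t θ * F t) volume 0 1 :=
  (ii_hh hq θ).mul_continuousOn hF.continuousOn

theorem pot_f1 (θ : ℝ) : ∫ t in (0 : ℝ)..1, hh q t θ * f1 q a M t =
    Real.log q + ∑ k ∈ Finset.Icc 1 M,
      (-(a k / ch q k * (1 + ((q ^ 2)⁻¹) ^ k) / (2 * k))) * cs k θ := by
  have h1 : ∀ t, hh q t θ * f1 q a M t = hh q t θ +
      ∑ k ∈ Finset.Icc 1 M, a k / ch q k * (hh q t θ * cs k t) := by
    intro t
    unfold f1
    rw [mul_add, mul_one, Finset.mul_sum]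
    congr 1
    exact Finset.sum_congr rfl fun k _ => by ring
  have hi : ∀ k, IntervalIntegrable (fun t => hh q t θ * cs k t) volume 0 1 := fun k =>
    ii_hh_mul hq θ (continuous_cs k)
  have hi2 : IntervalIntegrable (fun t => ∑ k ∈ Finset.Icc 1 M,
      a k / ch q k * (hh q t θ * cs k t)) volume 0 1 := by
    have h := IntervalIntegrable.sum (μ := volume) (a := 0) (b := 1) (Finset.Icc 1 M)
      (f := fun k t => a k / ch q k * (hh q t θ * cs k t)) fun k _ => (hi k).const_mul _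
    refine h.congr fun t _ => ?_
    simp
  simp only [h1]
  rw [intervalIntegral.integral_add (ii_hh hq θ) hi2, pot_one hq θ,
    int_sum_real (fun k => a k / ch q k) _ fun k _ => hi k]
  congr 1
  refine Finset.sum_congr rfl fun k hk => ?_
  rw [pot_cs hq θ k (Finset.mem_Icc.1 hk).1]
  ring

theorem pot_f2 (θ : ℝ) : ∫ t in (0 : ℝ)..1, hh q t θ * f2 q a M t =
    ∑ k ∈ Finset.Icc 1 M, (-(a k / sh q k * (1 - ((q ^ 2)⁻¹) ^ k) / (2 * k))) * sn k θ := by
  have h1 : ∀ t, hh q t θ * f2 q a M t =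
      ∑ k ∈ Finset.Icc 1 M, a k / sh q k * (hh q t θ * sn k t) := by
    intro t
    unfold f2
    rw [Finset.mul_sum]
    exact Finset.sum_congr rfl fun k _ => by ring
  have hi : ∀ k, IntervalIntegrable (fun t => hh q t θ * sn k t) volume 0 1 := fun k =>
    ii_hh_mul hq θ (continuous_sn k)
  simp only [h1]
  rw [int_sum_real (fun k => a k / sh q k) _ fun k _ => hi k]
  refine Finset.sum_congr rfl fun k hk => ?_
  rw [pot_sn hq θ k (Finset.mem_Icc.1 hk).1]
  ring

theorem energy1 : ∫ θ in (0 : ℝ)..1, (∫ t in (0 : ℝ)..1, hh q t θ * f1 q a M t) * f1 q a M θ =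
    Real.log q - ∑ k ∈ Finset.Icc 1 M, (a k / ch q k) ^ 2 * (1 + ((q ^ 2)⁻¹) ^ k) / (4 * k) := by
  simp only [pot_f1 hq a M]
  set γ : ℕ → ℝ := fun k => -(a k / ch q k * (1 + ((q ^ 2)⁻¹) ^ k) / (2 * k)) with hγ
  set β : ℕ → ℝ := fun k => a k / ch q k with hβ
  have h1 : ∀ θ, (Real.log q + ∑ k ∈ Finset.Icc 1 M, γ k * cs k θ) * f1 q a M θ =
      (Real.log q + ∑ k ∈ Finset.Icc 1 M, (γ k + Real.log q * β k) * cs k θ) +
      (∑ k ∈ Finset.Icc 1 M, γ k * cs k θ) * (∑ k ∈ Finset.Icc 1 M, β k * cs k θ) := by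
    intro θ
    have h2 : ∑ k ∈ Finset.Icc 1 M, (γ k + Real.log q * β k) * cs k θ =
        (∑ k ∈ Finset.Icc 1 M, γ k * cs k θ) +
          Real.log q * ∑ k ∈ Finset.Icc 1 M, β k * cs k θ := by
      rw [Finset.mul_sum, ← Finset.sum_add_distrib]
      exact Finset.sum_congr rfl fun k _ => by ring
    rw [h2]
    unfold f1
    ring
  have hc1 : Continuous fun θ => ∑ k ∈ Finset.Icc 1 M, (γ k + Real.log q * β k) * cs k θ :=
    continuous_finsetSum _ fun k _ => continuous_const.mul (continuous_cs k)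
  have hc2 : Continuous fun θ => ∑ k ∈ Finset.Icc 1 M, γ k * cs k θ :=
    continuous_finsetSum _ fun k _ => continuous_const.mul (continuous_cs k)
  have hc3 : Continuous fun θ => ∑ k ∈ Finset.Icc 1 M, β k * cs k θ :=
    continuous_finsetSum _ fun k _ => continuous_const.mul (continuous_cs k)
  have hc4 : Continuous fun θ => Real.log q +
      ∑ k ∈ Finset.Icc 1 M, (γ k + Real.log q * β k) * cs k θ := continuous_const.add hc1
  have hc5 : Continuous fun θ => (∑ k ∈ Finset.Icc 1 M, γ k * cs k θ) *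
      ∑ k ∈ Finset.Icc 1 M, β k * cs k θ := hc2.mul hc3
  refine (intervalIntegral.integral_congr fun θ _ => h1 θ).trans ?_
  rw [intervalIntegral.integral_add (hc4.intervalIntegrable _ _)
    (hc5.intervalIntegrable _ _),
    intervalIntegral.integral_add intervalIntegrable_const (hc1.intervalIntegrable _ _),
    orth cs continuous_cs M (fun j hj k _ => int_mul_cs j k (Finset.mem_Icc.1 hj).1) γ β,
    int_sum_real (fun k => γ k + Real.log q * β k) _ fun k _ =>
      (continuous_cs k).intervalIntegrable _ _]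
  have h3 : ∑ k ∈ Finset.Icc 1 M, (γ k + Real.log q * β k) * ∫ t in (0 : ℝ)..1, cs k t = 0 :=
    Finset.sum_eq_zero fun k hk => by rw [int_cs k (Finset.mem_Icc.1 hk).1, mul_zero]
  rw [h3, sub_eq_add_neg, ← Finset.sum_neg_distrib]
  simp only [intervalIntegral.integral_const, sub_zero, one_smul, add_zero]
  congr 1
  refine Finset.sum_congr rfl fun k _ => ?_
  simp only [hγ, hβ]
  ring

theorem energy2 : ∫ θ in (0 : ℝ)..1, (∫ t in (0 : ℝ)..1, hh q t θ * f2 q a M t) * f2 q a M θ =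
    -∑ k ∈ Finset.Icc 1 M, (a k / sh q k) ^ 2 * (1 - ((q ^ 2)⁻¹) ^ k) / (4 * k) := by
  simp only [pot_f2 hq a M]
  set γ : ℕ → ℝ := fun k => -(a k / sh q k * (1 - ((q ^ 2)⁻¹) ^ k) / (2 * k)) with hγ
  set β : ℕ → ℝ := fun k => a k / sh q k with hβ
  have h1 : ∀ θ, (∑ k ∈ Finset.Icc 1 M, γ k * sn k θ) * f2 q a M θ =
      (∑ k ∈ Finset.Icc 1 M, γ k * sn k θ) * ∑ k ∈ Finset.Icc 1 M, β k * sn k θ := fun θ => rfl
  refine (intervalIntegral.integral_congr fun θ _ => h1 θ).trans ?_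
  rw [orth sn continuous_sn M (fun j hj k hk => int_mul_sn j k (Finset.mem_Icc.1 hj).1
    (Finset.mem_Icc.1 hk).1) γ β, ← Finset.sum_neg_distrib]
  refine Finset.sum_congr rfl fun k _ => ?_
  simp only [hγ, hβ]
  ring

/-- The sum of the energies of the two densities. -/
theorem energy_add : (∫ θ in (0 : ℝ)..1, (∫ t in (0 : ℝ)..1, hh q t θ * f1 q a M t) * f1 q a M θ) +
    ∫ θ in (0 : ℝ)..1, (∫ t in (0 : ℝ)..1, hh q t θ * f2 q a M t) * f2 q a M θ =
    Real.log q - ∑ k ∈ Finset.Icc 1 M, a k ^ 2 * (2 / (k * (q ^ (2 * k) - (q ^ (2 * k))⁻¹))) := by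
  rw [energy1 hq a M, energy2 hq a M]
  have hq0 : 0 < q := by linarith
  have h : ∀ k ∈ Finset.Icc 1 M, a k ^ 2 * (2 / (k * (q ^ (2 * k) - (q ^ (2 * k))⁻¹))) =
      (a k / ch q k) ^ 2 * (1 + ((q ^ 2)⁻¹) ^ k) / (4 * k) +
      (a k / sh q k) ^ 2 * (1 - ((q ^ 2)⁻¹) ^ k) / (4 * k) := by
    intro k hk
    have hk1 := (Finset.mem_Icc.1 hk).1
    have hk0 : (k : ℝ) ≠ 0 := by
      have : k ≠ 0 := by omega
      exact_mod_cast this
    set x : ℝ := q ^ k with hx
    have hx1 : 1 < x := one_lt_pow₀ hq (by omega)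
    have hx0 : 0 < x := by linarith
    have e1 : q ^ (2 * k) = x ^ 2 := by rw [hx, ← pow_mul, mul_comm]
    have e2 : ((q ^ 2)⁻¹) ^ k = (x ^ 2)⁻¹ := by rw [inv_pow, ← pow_mul, e1]
    have e3 : ch q k = (x + x⁻¹) / 2 := rfl
    have e4 : sh q k = (x - x⁻¹) / 2 := rfl
    rw [e1, e2, e3, e4]
    have h2 : x ^ 2 - 1 ≠ 0 := by nlinarith
    have h3 : x ^ 2 + 1 ≠ 0 := by positivity
    have h4 : x ^ 4 - 1 ≠ 0 := by
      have : x ^ 4 - 1 = (x ^ 2 - 1) * (x ^ 2 + 1) := by ring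
      rw [this]
      exact mul_ne_zero h2 h3
    have h5 : x - x⁻¹ = (x ^ 2 - 1) / x := by field_simp
    have h6 : x + x⁻¹ = (x ^ 2 + 1) / x := by field_simp
    have h7 : x ^ 2 - (x ^ 2)⁻¹ = (x ^ 2 - 1) * (x ^ 2 + 1) / x ^ 2 := by
      field_simp
      ring
    rw [h5, h6, h7]
    field_simp
    ring
  rw [Finset.sum_congr rfl h, Finset.sum_add_distrib]
  ring

end

end Pool.Agent.N686.EL
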