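import Pool.Agent.N686.EL.Loops
set_option autoImplicit false

/-!
The criterion for all solutions of `C_N(F(x)) = κ`, with an explicit level `N`.
-/

namespace Pool.Agent.N686.EL

open Polynomial MeasureTheory Set

open Pool.Agent.TH826.MK (Torus symb circ norm_circ contDiff_circ circ_add_one KQ Unramified)

open Pool.Agent.TH826.HD (PRing POpen pent toP pcst pDel)

open Pool.Agent.Y775.CC

open Pool.Agent.N686.PF (Rm sum_Rm sum_Rm' form_sub exists_choice exists_angle circ_pow_shift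
  eval_map_comp eval_cheb comp_ne_zero)

set_option maxHeartbeats 400000

section

variable {G : ℂ[X]} {n : ℕ} {V : Set ℂ} {φ : Fin n → ℂ → ℂ} (H : Branches G V φ)
  {q : ℝ} (hq : 1 < q) (hV : ∀ z : ℂ, 1 ≤ ‖z‖ → ‖z‖ ≤ q → z + z⁻¹ ∈ V)

include H hq hV

/-- The averages over `N` equally spaced points. -/
theorem neg_Rm {N : ℕ} (hN : 0 < N) (hqN : 2 ≤ q ^ N) (a : ℝ) (c : Fin n → ℝ)
    (hc : ∃ i j, c i ≠ c j) : ∑ i, ∑ j, c i * c j * Rm φ N a i j < 0 := by
  obtain ⟨i₀, j₀, hij⟩ := hc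
  have hn : (n : ℝ) ≠ 0 := by
    have := i₀.pos
    exact_mod_cast this.ne'
  have hNr : (N : ℝ) ≠ 0 := by exact_mod_cast hN.ne'
  set m : ℝ := (∑ i, c i) / n with hm
  set d : Fin n → ℝ := fun i => c i - m with hd
  have hdsum : ∑ i, d i = 0 := by
    simp only [hd, Finset.sum_sub_distrib, Finset.sum_const, Finset.card_univ, Fintype.card_fin,
      nsmul_eq_mul]
    rw [hm]
    field_simp
    ring
  have hd0 : d ≠ 0 := by
    intro h
    have e1 := congrFun h i₀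
    have e2 := congrFun h j₀
    simp only [hd, Pi.zero_apply] at e1 e2
    exact hij (by linarith)
  rw [← form_sub (sum_Rm H N a) (sum_Rm' H N a) c m]
  have h1 := neg_avg H hq hV hN hqN (r := N) (fun _ _ => (N : ℝ)⁻¹)
    (fun _ l => a + (l : ℕ) / N) (fun _ _ => by positivity) (fun _ => by
      rw [Finset.sum_const, Finset.card_univ, Fintype.card_fin, nsmul_eq_mul,
        mul_inv_cancel₀ hNr]) (fun _ k hk => by
      rw [← Finset.mul_sum, Fin.sum_univ_eq_sum_range (fun l => cs k (a + l / N)),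
        sum_shift hN hk, mul_zero]) d hdsum hd0
  rw [Finset.sum_comm] at h1
  refine lt_of_eq_of_lt ?_ h1
  refine Finset.sum_congr rfl fun i _ => Finset.sum_congr rfl fun j _ => ?_
  rw [← Finset.mul_sum, Fin.sum_univ_eq_sum_range (fun l => Jm φ i j (a + l / N))]
  unfold Rm
  simp only [hd]
  ring

end

variable {K : Type*} [Field K] {s : K →+* ℂ} {F : K[X]}

/-- The special points exist in `K`. -/
theorem exists_point' {G : ℂ[X]} {n : ℕ} {V : Set ℂ} {φ : Fin n → ℂ → ℂ} (H : Branches G V φ)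
    {μ : ℂ} (hG : ∀ x, (F.map s).eval (μ * x) = G.eval x) (hdeg : 0 < F.natDegree) {N : ℕ}
    (hN : 0 < N) {κ : K} {ζ : ℂ} (hζ1 : ‖ζ‖ = 1) (hκ : s κ = ζ + ζ⁻¹)
    (hsplit : ((Chebyshev.C K N).comp F - C κ).Splits) (j : Fin n) {θ : ℝ}
    (hθ : circ 1 θ ^ N = ζ) : ∃ b : K, s b = μ * φ j (uu 1 θ) := by
  have h2 : (((Chebyshev.C K N).comp F - C κ).map s).IsRoot (μ * φ j (uu 1 θ)) := by
    rw [IsRoot.def, eval_map_comp, hG, H.eval_branch _ (H.uu_mem _)]
    have h3 : uu 1 θ = circ 1 θ + (circ 1 θ)⁻¹ := rfl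
    rw [h3, eval_cheb ℂ _ _ (mul_inv_cancel₀ (circ_ne_zero one_pos _)), inv_pow, hθ, hκ, sub_self]
  obtain ⟨b, hb⟩ := hsplit.mem_range_of_isRoot (comp_ne_zero s hdeg hζ1 hκ hN) h2
  exact ⟨b, hb⟩

/-- The criterion for all solutions of `C_N(F(x)) = κ`. -/
theorem crit_level {g : ℕ} (hdeg : F.natDegree = g + 1) {N : ℕ} (hN : 0 < N)
    {q : ℝ} (hq : 1 < q) (hqN : 2 ≤ q ^ N)
    (hcrit : ∀ x : ℂ, (derivative F).eval₂ s x = 0 →
      2 * (q + q⁻¹) < ‖F.eval₂ s x - 2‖ + ‖F.eval₂ s x + 2‖) {κ : K}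
    (hκ : ∃ ζ : ℂ, ‖ζ‖ = 1 ∧ s κ = ζ + ζ⁻¹)
    (hsplit : ((Chebyshev.C K N).comp F - C κ).Splits) :
    ∃ b : Fin (g + 1) → K, (∀ m, (Chebyshev.C K N).eval (F.eval (b m)) = κ) ∧
      ∃ Γ : Fin g → Torus (POpen F b) 1,
        (∀ l θ (y : K), (Γ l).e θ (pcst F b y) = s y) ∧
        (Matrix.of fun l k : Fin g => (Γ l).reg (symb (pent F b k.succ 0))).det ≠ 0 := by
  obtain ⟨ζ, hζ1, hκζ⟩ := hκ
  obtain ⟨μ, G, V, φ, hμ, hG, H, hV⟩ := exists_branches_ellipse (P := F.map s) (n := g + 1)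
    (Nat.succ_pos g) (by rw [natDegree_map, hdeg]) (q := q) hq fun x hx => by
      rw [eval_map]
      exact hcrit x (by rw [← eval_map, ← derivative_map]; exact hx)
  obtain ⟨a, ha⟩ := exists_angle hζ1 hN
  obtain ⟨β, k, hβ⟩ := exists_choice H hN (neg_Rm H hq hV hN hqN a)
  have hθ : ∀ m, circ 1 (a + k m / N) ^ N = ζ := fun m => by rw [circ_pow_shift hN, ha]
  choose b hb using fun m => exists_point' H hG (by omega) hN hζ1 hκζ hsplit (β m) (hθ m)
  have hev : ∀ m, s (F.eval (b m)) = circ 1 (a + k m / N) + (circ 1 (a + k m / N))⁻¹ := by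
    intro m
    rw [← eval₂_hom, ← eval_map, hb, hG, H.eval_branch _ (H.uu_mem _)]
    rfl
  refine ⟨b, fun m => ?_, ?_⟩
  · apply s.injective
    have h1 : s ((Chebyshev.C K N).eval (F.eval (b m))) =
        (Chebyshev.C ℂ N).eval (s (F.eval (b m))) := by
      rw [← Chebyshev.map_C s, eval_map, eval₂_hom]
    rw [h1, hev, eval_cheb ℂ _ _ (mul_inv_cancel₀ (circ_ne_zero one_pos _)), inv_pow, hθ, hκζ]
  · exact exists_loops_reg H hμ hG b β (fun m => a + k m / N) hb hβ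

/-- The same with the ellipse `|v - 2| + |v + 2| = 4 cosh (log 2 / N)`. -/
theorem crit_cosh {g : ℕ} (hdeg : F.natDegree = g + 1) {N : ℕ} (hN : 0 < N)
    (hcrit : ∀ x : ℂ, (derivative F).eval₂ s x = 0 →
      4 * Real.cosh (Real.log 2 / N) < ‖F.eval₂ s x - 2‖ + ‖F.eval₂ s x + 2‖) {κ : K}
    (hκ : ∃ ζ : ℂ, ‖ζ‖ = 1 ∧ s κ = ζ + ζ⁻¹)
    (hsplit : ((Chebyshev.C K N).comp F - C κ).Splits) :
    ∃ b : Fin (g + 1) → K, (∀ m, (Chebyshev.C K N).eval (F.eval (b m)) = κ) ∧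
      ∃ Γ : Fin g → Torus (POpen F b) 1,
        (∀ l θ (y : K), (Γ l).e θ (pcst F b y) = s y) ∧
        (Matrix.of fun l k : Fin g => (Γ l).reg (symb (pent F b k.succ 0))).det ≠ 0 := by
  have hNr : (0 : ℝ) < N := by exact_mod_cast hN
  have hlog : 0 < Real.log 2 / N := div_pos (Real.log_pos one_lt_two) hNr
  refine crit_level hdeg hN (q := Real.exp (Real.log 2 / N)) (Real.one_lt_exp_iff.2 hlog) ?_ ?_
    hκ hsplit
  · rw [← Real.exp_nat_mul, mul_div_cancel₀ _ hNr.ne', Real.exp_log two_pos]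
  · intro x hx
    have h1 := hcrit x hx
    rw [Real.cosh_eq, Real.exp_neg] at h1
    have h2 : 4 * ((Real.exp (Real.log 2 / N) + (Real.exp (Real.log 2 / N))⁻¹) / 2) =
        2 * (Real.exp (Real.log 2 / N) + (Real.exp (Real.log 2 / N))⁻¹) := by ring
    rw [h2] at h1
    exact h1

/-- If there are no critical values in `[-2, 2]`, the levels `N ≥ N₀` satisfy the condition. -/
theorem exists_level (hdeg : 0 < F.natDegree)
    (hcrit : ∀ x : ℂ, (derivative F).eval₂ s x = 0 →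
      4 < ‖F.eval₂ s x - 2‖ + ‖F.eval₂ s x + 2‖) :
    ∃ N₀ : ℕ, ∀ N : ℕ, N₀ ≤ N → ∀ x : ℂ, (derivative F).eval₂ s x = 0 →
      4 * Real.cosh (Real.log 2 / N) < ‖F.eval₂ s x - 2‖ + ‖F.eval₂ s x + 2‖ := by
  have hfin := finite_crit (G := F.map s) (by rw [natDegree_map]; exact hdeg)
  have h1 : Filter.Tendsto (fun N : ℕ => 4 * Real.cosh (Real.log 2 / N)) Filter.atTop
      (nhds 4) := by
    have h2 : Filter.Tendsto (fun N : ℕ => Real.log 2 / N) Filter.atTop (nhds 0) :=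
      tendsto_const_div_atTop_nhds_zero_nat _
    have h3 := (Real.continuous_cosh.tendsto 0).comp h2
    rw [Real.cosh_zero] at h3
    simpa using h3.const_mul 4
  have h4 : ∀ᶠ N : ℕ in Filter.atTop, ∀ v ∈ (fun x => (F.map s).eval x) ''
      {x | (derivative (F.map s)).eval x = 0},
      4 * Real.cosh (Real.log 2 / N) < ‖v - 2‖ + ‖v + 2‖ := by
    rw [hfin.eventually_all]
    rintro _ ⟨x, hx, rfl⟩
    refine h1.eventually_lt_const ?_
    have h5 := hcrit x (by rw [← eval_map, ← derivative_map]; exact hx)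
    simp only [eval_map]
    exact h5
  obtain ⟨N₀, h6⟩ := Filter.eventually_atTop.1 h4
  refine ⟨N₀, fun N hN x hx => ?_⟩
  have h7 := h6 N hN _ ⟨x, by
    show (derivative (F.map s)).eval x = 0
    rw [derivative_map, eval_map]
    exact hx, rfl⟩
  simp only [eval_map] at h7
  exact h7

end Pool.Agent.N686.EL
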