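import Pool.Agent.N686.EL.Four
set_option autoImplicit false

/-!
The Goluzin type inequality.
-/

namespace Pool.Agent.N686.EL

open MeasureTheory Set Filter Topology Metric Polynomial

open Pool.Agent.TH826.MK (circ norm_circ circ_add_one contDiff_circ hasDerivAt_circ circ_eq)

open Pool.Agent.Y775.CC

set_option maxHeartbeats 400000

theorem rep_one {V : Set ℂ} (hVo : IsOpen V) {q : ℝ} (hq : 1 < q)
    (hV : ∀ z : ℂ, 1 ≤ ‖z‖ → ‖z‖ ≤ q → z + z⁻¹ ∈ V) :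
    Rep V q (fun _ => 1) (fun _ => 1) 1 := by
  intro g hg
  have h := avg_cs hVo hq.le hV hg 0
  simp only [cs_zero] at h
  rw [h]
  simp

theorem rep_cs {V : Set ℂ} (hVo : IsOpen V) {q : ℝ} (hq : 1 < q)
    (hV : ∀ z : ℂ, 1 ≤ ‖z‖ → ‖z‖ ≤ q → z + z⁻¹ ∈ V) (k : ℕ) :
    Rep V q (cs k) (cs k) ((ch q k : ℝ) : ℂ) := by
  intro g hg
  exact avg_cs hVo hq.le hV hg k

section

variable {G : ℂ[X]} {n : ℕ} {V : Set ℂ} {φ : Fin n → ℂ → ℂ} (H : Branches G V φ)

include H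

theorem Jm_add_one (i j : Fin n) (θ : ℝ) : Jm φ i j (θ + 1) = Jm φ i j θ := by
  unfold Jm
  rw [uu_add_one]

theorem Jm_neg (i j : Fin n) (θ : ℝ) : Jm φ i j (-θ) = Jm φ i j θ := by
  unfold Jm
  rw [uu_neg]

variable {q : ℝ} (hq : 1 < q) (hV : ∀ z : ℂ, 1 ≤ ‖z‖ → ‖z‖ ≤ q → z + z⁻¹ ∈ V)

include hq hV

/-- Exponential decrease of the coefficients. -/
theorem coef_dec (i j : Fin n) : ∃ C : ℝ, ∀ k : ℕ,
    |∫ θ in (0 : ℝ)..1, Jm φ i j θ * cs k θ| ≤ C * (q⁻¹) ^ k := by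
  have hq0 : 0 < q := by linarith
  obtain ⟨L, hL⟩ := (isCompact_Icc.prod isCompact_Icc : IsCompact
    (Icc (0 : ℝ) 1 ×ˢ Icc (0 : ℝ) 1)).exists_bound_of_continuousOn
    (continuous_lp H hq hV i j).continuousOn
  have hL' : ∀ t ∈ Icc (0 : ℝ) 1, ∀ θ ∈ Icc (0 : ℝ) 1, ‖lp φ q i j t θ‖ ≤ L := fun t ht θ hθ =>
    hL (θ, t) ⟨hθ, ht⟩
  have hL0 : 0 ≤ L := (norm_nonneg _).trans (hL' 0 ⟨le_rfl, zero_le_one⟩ 0 ⟨le_rfl, zero_le_one⟩)
  refine ⟨2 * L, fun k => ?_⟩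
  have h1 := eA_eq H hq hV i j (f := fun _ => 1) (g := cs k) (F := fun _ => 1) (F' := cs k)
    continuous_const (continuous_cs k) continuous_const (continuous_cs k) (r := ch q k)
    (one_mul _) (rep_one H.isOpen hq hV) (rep_cs H.isOpen hq hV k)
  rw [eA_one i j] at h1
  have h2 : ‖eA φ q i j (fun _ => 1) (cs k)‖ ≤ L := by
    unfold eA
    have h3 := intervalIntegral.norm_integral_le_of_norm_le_const (a := (0 : ℝ)) (b := 1)
      (C := L) (f := fun θ => (∫ t in (0 : ℝ)..1, lp φ q i j t θ * 1) * cs k θ) fun θ hθ => by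
        rw [uIoc_of_le zero_le_one] at hθ
        have h4 : ‖∫ t in (0 : ℝ)..1, lp φ q i j t θ * 1‖ ≤ L := by
          have h5 := intervalIntegral.norm_integral_le_of_norm_le_const (a := (0 : ℝ)) (b := 1)
            (C := L) (f := fun t => lp φ q i j t θ * 1) fun t ht => by
              rw [uIoc_of_le zero_le_one] at ht
              rw [mul_one]
              exact hL' t ⟨ht.1.le, ht.2⟩ θ ⟨hθ.1.le, hθ.2⟩
          simpa using h5
        rw [norm_mul]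
        have h6 : ‖cs k θ‖ ≤ 1 := Real.abs_cos_le_one _
        calc ‖∫ t in (0 : ℝ)..1, lp φ q i j t θ * 1‖ * ‖cs k θ‖ ≤ L * 1 :=
              mul_le_mul h4 h6 (norm_nonneg _) hL0
          _ = L := mul_one L
    simpa using h3
  rw [h1, norm_mul, Real.norm_eq_abs, Real.norm_eq_abs, abs_of_pos (ch_pos hq0 k)] at h2
  have h7 : q ^ k / 2 ≤ ch q k := by
    unfold ch
    have : 0 < (q ^ k)⁻¹ := by positivity
    linarith
  have h8 : 0 < q ^ k := by positivity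
  have h9 := (mul_le_mul_of_nonneg_right h7 (abs_nonneg
    (∫ θ in (0 : ℝ)..1, Jm φ i j θ * cs k θ))).trans h2
  rw [inv_pow]
  rw [← div_eq_mul_inv, le_div_iff₀ h8]
  linarith

/-- Convergence for an average of point evaluations. -/
theorem lim_point (i j : Fin n) {r : ℕ} (p θ : Fin r → ℝ) (hp : ∑ l, p l = 1) :
    Tendsto (fun M : ℕ => ∫ x in (0 : ℝ)..1, Jm φ i j x *
      (1 + 2 * bet (fun k => ∑ l, p l * cs k (θ l)) M x)) atTop
      (𝓝 (∑ l, p l * Jm φ i j (θ l))) := by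
  have hq0 : 0 < q := by linarith
  obtain ⟨C, hC⟩ := coef_dec H hq hV i j
  have hJ : Continuous (Jm φ i j) := continuous_Jm H i j
  have h1 : ∀ l, Tendsto (fun M : ℕ => p l * ((∫ t in (0 : ℝ)..1, Jm φ i j t * cs 0 t) +
      2 * ∑ k ∈ Finset.Icc 1 M, (∫ t in (0 : ℝ)..1, Jm φ i j t * cs k t) * cs k (θ l))) atTop
      (𝓝 (p l * Jm φ i j (θ l))) := fun l =>
    (fourier_even hJ (Jm_add_one H i j) (Jm_neg H i j) (inv_nonneg.2 hq0.le)
      (inv_lt_one_of_one_lt₀ hq) hC (θ l)).const_mul _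
  have h2 := tendsto_finsetSum (Finset.univ : Finset (Fin r)) fun l _ => h1 l
  refine h2.congr fun M => ?_
  have h3 : ∀ x, Jm φ i j x * (1 + 2 * bet (fun k => ∑ l, p l * cs k (θ l)) M x) =
      Jm φ i j x * cs 0 x + 2 * ∑ k ∈ Finset.Icc 1 M,
        (∑ l, p l * cs k (θ l)) * (Jm φ i j x * cs k x) := by
    intro x
    unfold bet
    have h5 : Jm φ i j x * ∑ k ∈ Finset.Icc 1 M, (∑ l, p l * cs k (θ l)) * cs k x =
        ∑ k ∈ Finset.Icc 1 M, (∑ l, p l * cs k (θ l)) * (Jm φ i j x * cs k x) := by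
      rw [Finset.mul_sum]
      exact Finset.sum_congr rfl fun k _ => by ring
    rw [← h5, cs_zero]
    ring
  have hi : ∀ k, IntervalIntegrable (fun x => Jm φ i j x * cs k x) volume 0 1 := fun k =>
    (hJ.mul (continuous_cs k)).intervalIntegrable _ _
  have hsc : Continuous fun x => ∑ k ∈ Finset.Icc 1 M,
      (∑ l, p l * cs k (θ l)) * (Jm φ i j x * cs k x) :=
    continuous_finsetSum _ fun k _ => continuous_const.mul (hJ.mul (continuous_cs k))
  have hsi : IntervalIntegrable (fun x => 2 * ∑ k ∈ Finset.Icc 1 M,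
      (∑ l, p l * cs k (θ l)) * (Jm φ i j x * cs k x)) volume 0 1 :=
    (hsc.intervalIntegrable _ _).const_mul _
  simp only [h3]
  rw [intervalIntegral.integral_add (hi 0) hsi, intervalIntegral.integral_const_mul,
    int_sum_real (fun k => ∑ l, p l * cs k (θ l)) _ fun k _ => hi k]
  simp only [mul_add, Finset.sum_add_distrib]
  rw [← Finset.sum_mul, hp, one_mul]
  congr 1
  have h4 : ∀ l, p l * (2 * ∑ k ∈ Finset.Icc 1 M,
      (∫ t in (0 : ℝ)..1, Jm φ i j t * cs k t) * cs k (θ l)) =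
      2 * ∑ k ∈ Finset.Icc 1 M, p l * cs k (θ l) * ∫ t in (0 : ℝ)..1, Jm φ i j t * cs k t := by
    intro l
    rw [mul_left_comm, Finset.mul_sum]
    congr 1
    exact Finset.sum_congr rfl fun k _ => by ring
  simp only [h4]
  rw [← Finset.mul_sum, Finset.sum_comm]
  congr 1
  refine Finset.sum_congr rfl fun k _ => ?_
  rw [Finset.sum_mul]

/-- **The inequality.** -/
theorem ineq (c : Fin n → ℝ) (hc : ∑ i, c i = 0) {r : ℕ} (p θ : Fin n → Fin r → ℝ)
    (hp : ∀ j, ∑ l, p j l = 1) {T : ℝ}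
    (hT : ∀ i M, loss q (fun k => ∑ l, p i l * cs k (θ i l)) M ≤ T) :
    ∑ j, ∑ i, c i * c j * ∑ l, p j l * Jm φ i j (θ j l) ≤
      -(Real.log q - T) * ∑ i, c i ^ 2 := by
  have h1 : Tendsto (fun M : ℕ => ∑ j, ∑ i, c i * c j * ∫ x in (0 : ℝ)..1, Jm φ i j x *
      (1 + 2 * bet (fun k => ∑ l, p j l * cs k (θ j l)) M x)) atTop
      (𝓝 (∑ j, ∑ i, c i * c j * ∑ l, p j l * Jm φ i j (θ j l))) :=
    tendsto_finsetSum _ fun j _ => tendsto_finsetSum _ fun i _ =>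
      (lim_point H hq hV i j (p j) (θ j) (hp j)).const_mul _
  refine le_of_tendsto' h1 fun M => ?_
  refine (core H hq hV c hc (fun i k => ∑ l, p i l * cs k (θ i l)) M).trans ?_
  rw [neg_mul, neg_le_neg_iff, Finset.mul_sum]
  refine Finset.sum_le_sum fun i _ => ?_
  have h2 := hT i M
  have h3 : 0 ≤ c i ^ 2 := sq_nonneg _
  nlinarith

end

end Pool.Agent.N686.EL
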