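import Pool.Agent.N686.EL.Neg
import Pool.Agent.N686.EL.Br
import Pool.Agent.N686.PF.Main
set_option autoImplicit false

/-!
The regulators on the loops, for polynomials with an arbitrary leading coefficient, and the
criteria.
-/

namespace Pool.Agent.N686.EL

open Polynomial MeasureTheory Set

open Pool.Agent.TH826.MK (Torus symb circ norm_circ contDiff_circ circ_add_one KQ Unramified)

open Pool.Agent.TH826.HD (PRing POpen pent toP pcst pDel)

open Pool.Agent.TH826.UH (pr NZ nz_circ ld_circ PtS mkS mkS_e mkS_reg pr_mul)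

open Pool.Agent.Y775.CC

open Pool.Agent.N686.PF (pr_loop)

set_option maxHeartbeats 400000

variable {K : Type*} [Field K] {s : K →+* ℂ} {F : K[X]}

theorem pr_loop_mul {G : ℂ[X]} {n : ℕ} {V : Set ℂ} {φ : Fin n → ℂ → ℂ} (H : Branches G V φ)
    {R : ℝ} (hR : 1 < R) (hV : ∀ z : ℂ, 1 ≤ ‖z‖ → ‖z‖ ≤ R → z + z⁻¹ ∈ V) (i j : Fin n) (b : ℝ)
    {m : ℂ} (hm : m ≠ 0) :
    pr (circ R) (fun t => m * φ i (uu R t) - m * φ j (uu 1 b)) =
      pr (circ R) (fun _ => m) + -(2 * Real.pi) * Jm φ i j b := by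
  have hR0 : 0 < R := by linarith
  have e : (fun t => m * φ i (uu R t) - m * φ j (uu 1 b)) =
      fun t => m * (φ i (uu R t) - φ j (uu 1 b)) := by
    funext t
    ring
  have hVR : ∀ t, uu R t ∈ V := uu_mem hR.le hV
  have h1 : NZ fun _ : ℝ => m := ⟨contDiff_const, fun _ => hm⟩
  have h2 : NZ fun t => φ i (uu R t) - φ j (uu 1 b) :=
    ⟨(contDiff_branch_uu H hR hV i hR.le le_rfl).sub contDiff_const, fun t h =>
      uu_ne hR _ _ (H.eq_of_eq (hVR t) (H.uu_mem _) (sub_eq_zero.1 h)).2⟩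
  rw [e, pr_mul (nz_circ hR0) h1 h2, pr_loop H hR hV]

/-- The loops and the regulators. -/
theorem exists_loops_reg {g : ℕ} {G : ℂ[X]} {V : Set ℂ} {φ : Fin (g + 1) → ℂ → ℂ}
    (H : Branches G V φ) {μ : ℂ} (hμ : μ ≠ 0) (hG : ∀ x, (F.map s).eval (μ * x) = G.eval x)
    (b : Fin (g + 1) → K) (β : Fin (g + 1) → Fin (g + 1)) (θ : Fin (g + 1) → ℝ)
    (hb : ∀ m, s (b m) = μ * φ (β m) (uu 1 (θ m)))
    (hdet : (Matrix.of fun l k : Fin g => Jm φ l.succ (β k.succ) (θ k.succ) -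
      Jm φ l.succ (β 0) (θ 0)).det ≠ 0) :
    ∃ Γ : Fin g → Torus (POpen F b) 1,
      (∀ l θ (y : K), (Γ l).e θ (pcst F b y) = s y) ∧
      (Matrix.of fun l k : Fin g => (Γ l).reg (symb (pent F b k.succ 0))).det ≠ 0 := by
  obtain ⟨R, hR, hV⟩ := exists_radius' H.isOpen H.mem
  have hR0 : 0 < R := by linarith
  have hz := nz_circ hR0
  have hVR : ∀ t, uu R t ∈ V := uu_mem hR.le hV
  have hev : ∀ i, ∀ u ∈ V, F.eval₂ s (μ * φ i u) = u := fun i u hu => by
    rw [← eval_map, hG]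
    exact H.eval_branch i hu
  have heq : ∀ i t, circ R t ^ 2 - F.eval₂ s (μ * φ i (uu R t)) * circ R t + 1 = 0 := by
    intro i t
    rw [hev i _ (hVR t)]
    have h1 : circ R t * (circ R t)⁻¹ = 1 := mul_inv_cancel₀ (circ_ne_zero hR0 t)
    have h3 : uu R t = circ R t + (circ R t)⁻¹ := rfl
    rw [h3]
    linear_combination -h1
  have hP : ∀ i t, PtS s F b (μ * φ i (uu R t)) (circ R t) := by
    intro i t
    refine ⟨heq i t, fun m h => ?_⟩
    rw [hb m] at h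
    exact uu_ne hR _ _ (H.eq_of_eq (hVR t) (H.uu_mem _) (mul_left_cancel₀ hμ h)).2
  have hX : ∀ i, ContDiff ℝ 2 fun t => μ * φ i (uu R t) := fun i =>
    contDiff_const.mul (contDiff_branch_uu H hR hV i hR.le le_rfl)
  have pX : ∀ i t, μ * φ i (uu R (t + 1)) = μ * φ i (uu R t) := fun i t => by rw [uu_add_one]
  refine ⟨fun l => mkS (hX l.succ) hz.smooth (pX l.succ) (circ_add_one R) (fun t => hP l.succ t),
    fun l θ y => ?_, ?_⟩
  · rw [mkS_e, PtS.evA_pcst]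
  · have e : (Matrix.of fun l k : Fin g => (mkS (hX l.succ) hz.smooth (pX l.succ)
        (circ_add_one R) (fun t => hP l.succ t)).reg (symb (pent F b k.succ 0))) =
        (-(2 * Real.pi)) • Matrix.of fun l k : Fin g => Jm φ l.succ (β k.succ) (θ k.succ) -
          Jm φ l.succ (β 0) (θ 0) := by
      ext l k
      rw [Matrix.of_apply, Matrix.smul_apply, Matrix.of_apply, mkS_reg (hX l.succ) hz]
      simp only [hb]
      rw [pr_loop_mul H hR hV _ _ _ hμ, pr_loop_mul H hR hV _ _ _ hμ, smul_eq_mul]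
      ring
    rw [e, Matrix.det_smul]
    exact mul_ne_zero (pow_ne_zero _ (neg_ne_zero.2 (by positivity))) hdet

/-- The branch and the angle of a point. -/
theorem exists_branch {g : ℕ} {G : ℂ[X]} {V : Set ℂ} {φ : Fin (g + 1) → ℂ → ℂ}
    (H : Branches G V φ) {μ : ℂ} (hμ : μ ≠ 0) (hG : ∀ x, (F.map s).eval (μ * x) = G.eval x)
    {b : K} {θ : ℝ} (hθ : s (F.eval b) = uu 1 θ) : ∃ j, s b = μ * φ j (uu 1 θ) := by
  have h1 : G.eval (μ⁻¹ * s b) = uu 1 θ := by
    rw [← hG, mul_inv_cancel_left₀ hμ, eval_map, eval₂_hom, hθ]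
  have h2 := H.eval_sub_eq (H.uu_mem θ) (μ⁻¹ * s b)
  rw [h1, sub_self] at h2
  obtain ⟨j, -, hj⟩ := Finset.prod_eq_zero_iff.1 h2.symm
  refine ⟨j, ?_⟩
  rw [← sub_eq_zero.1 hj, mul_inv_cancel_left₀ hμ]

/-- Two points on the same branch lie in the same component. -/
theorem comp_eq {g : ℕ} {G : ℂ[X]} {V : Set ℂ} {φ : Fin (g + 1) → ℂ → ℂ}
    (H : Branches G V φ) {μ : ℂ} (hG : ∀ x, (F.map s).eval (μ * x) = G.eval x)
    (j : Fin (g + 1)) (a a' : ℝ) :
    connectedComponentIn {x : ℂ | ∃ t : ℝ, |t| ≤ 2 ∧ F.eval₂ s x = t} (μ * φ j (uu 1 a)) =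
      connectedComponentIn {x : ℂ | ∃ t : ℝ, |t| ≤ 2 ∧ F.eval₂ s x = t} (μ * φ j (uu 1 a')) := by
  set S := {x : ℂ | ∃ t : ℝ, |t| ≤ 2 ∧ F.eval₂ s x = t} with hS
  set U : Set ℂ := Set.range fun t => μ * φ j (uu 1 t) with hU
  have hUc : IsPreconnected U :=
    isPreconnected_range (continuous_const.mul (continuous_branch H j))
  have hUS : U ⊆ S := by
    rintro _ ⟨t, rfl⟩
    refine ⟨2 * Real.cos (2 * Real.pi * t), abs_cos_le t, ?_⟩
    rw [← eval_map, hG, H.eval_branch _ (H.uu_mem _), uu_one]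
  have h1 := hUc.subset_connectedComponentIn (x := μ * φ j (uu 1 a)) ⟨a, rfl⟩ hUS
  exact connectedComponentIn_eq (h1 ⟨a', rfl⟩)

/-- The criterion for given angles. -/
theorem indep_of_angles {g : ℕ} {G : ℂ[X]} {V : Set ℂ} {φ : Fin (g + 1) → ℂ → ℂ}
    (H : Branches G V φ) {μ : ℂ} (hμ : μ ≠ 0) (hG : ∀ x, (F.map s).eval (μ * x) = G.eval x)
    {q : ℝ} (hq : 1 < q) (hV : ∀ z : ℂ, 1 ≤ ‖z‖ → ‖z‖ ≤ q → z + z⁻¹ ∈ V) {D : ℕ} (hD : 0 < D)
    (hqD : 2 ≤ q ^ D) (b : Fin (g + 1) → K) (θ : Fin (g + 1) → ℝ)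
    (h0 : ∀ m k, ¬ D ∣ k → cs k (θ m) = 0) {β : Fin (g + 1) → Fin (g + 1)}
    (hβ : Function.Injective β) (hb : ∀ m, s (b m) = μ * φ (β m) (uu 1 (θ m))) :
    ∃ Γ : Fin g → Torus (POpen F b) 1,
      (∀ l θ (y : K), (Γ l).e θ (pcst F b y) = s y) ∧
      (Matrix.of fun l k : Fin g => (Γ l).reg (symb (pent F b k.succ 0))).det ≠ 0 := by
  have hbij : Function.Bijective β := Finite.injective_iff_bijective.1 hβ
  set e : Fin (g + 1) ≃ Fin (g + 1) := Equiv.ofBijective β hbij with he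
  have heβ : ∀ m, e.symm (β m) = m := fun m => e.symm_apply_apply m
  have h := det_ne_zero H (ψ := fun j => θ (e.symm j)) (fun c hc hc0 =>
    neg_single H hq hV hD hqD (fun j => θ (e.symm j)) (fun i k hk => h0 _ k hk) c hc hc0) hβ
  simp only [heβ] at h
  exact exists_loops_reg H hμ hG b β θ hb h

/-- The sum of distances for real numbers in `[-2, 2]`. -/
theorem dist_real {t : ℝ} (ht : |t| ≤ 2) : ‖(t : ℂ) - 2‖ + ‖(t : ℂ) + 2‖ = 4 := by
  have e1 : (t : ℂ) - 2 = ((t - 2 : ℝ) : ℂ) := by push_cast; ring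
  have e2 : (t : ℂ) + 2 = ((t + 2 : ℝ) : ℂ) := by push_cast; ring
  have h := abs_le.1 ht
  rw [e1, e2, Complex.norm_real, Complex.norm_real, Real.norm_eq_abs, Real.norm_eq_abs,
    abs_of_nonpos (by linarith), abs_of_nonneg (by linarith)]
  ring

theorem cs_quarter {k : ℕ} (hk : ¬ 2 ∣ k) : cs k (1 / 4) = 0 := by
  obtain ⟨m, hm⟩ := Nat.odd_iff.2 (by omega : k % 2 = 1)
  unfold cs
  rw [Real.cos_eq_zero_iff]
  refine ⟨m, ?_⟩
  rw [hm]
  push_cast
  ring

theorem uu_quarter : uu 1 (1 / 4) = 0 := by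
  rw [uu_one]
  have : 2 * Real.pi * (1 / 4) = Real.pi / 2 := by ring
  rw [this, Real.cos_pi_div_two]
  simp

/-- The criterion for arbitrary special points. -/
theorem crit_two {g : ℕ} (hdeg : F.natDegree = g + 1)
    (hcrit : ∀ x : ℂ, (derivative F).eval₂ s x = 0 →
      5 < ‖F.eval₂ s x - 2‖ + ‖F.eval₂ s x + 2‖) (b : Fin (g + 1) → K)
    (hb : ∀ m, ∃ ζ : ℂ, ‖ζ‖ = 1 ∧ s (F.eval (b m)) = ζ + ζ⁻¹)
    (hinj : Function.Injective fun m =>
      connectedComponentIn {x : ℂ | ∃ t : ℝ, |t| ≤ 2 ∧ F.eval₂ s x = t} (s (b m))) :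
    ∃ Γ : Fin g → Torus (POpen F b) 1,
      (∀ l θ (y : K), (Γ l).e θ (pcst F b y) = s y) ∧
      (Matrix.of fun l k : Fin g => (Γ l).reg (symb (pent F b k.succ 0))).det ≠ 0 := by
  obtain ⟨μ, G, V, φ, hμ, hG, H, hV⟩ := exists_branches_ellipse (P := F.map s) (n := g + 1)
    (Nat.succ_pos g) (by rw [natDegree_map, hdeg]) (q := 2) one_lt_two fun x hx => by
      have h1 := hcrit x (by rw [← eval_map, ← derivative_map]; exact hx)
      rw [eval_map]
      norm_num at h1 ⊢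
      exact h1
  have hθ : ∀ m, ∃ θ : ℝ, s (F.eval (b m)) = uu 1 θ := by
    intro m
    obtain ⟨ζ, h1, h2⟩ := hb m
    obtain ⟨θ, h3⟩ := exists_circ h1
    refine ⟨θ, ?_⟩
    rw [h2, ← h3]
    rfl
  choose θ hθ using hθ
  choose β hβ using fun m => exists_branch H hμ hG (hθ m)
  have hβi : Function.Injective β := by
    intro m m' h
    apply hinj
    simp only
    rw [hβ m, hβ m', h]
    exact comp_eq H hG _ _ _
  exact indep_of_angles H hμ hG one_lt_two hV one_pos (by norm_num) b θ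
    (fun m k hk => absurd (one_dvd k) hk) hβi hβ

/-- The criterion for the zeros of `F`. -/
theorem crit_sqrt {g : ℕ} (hdeg : F.natDegree = g + 1)
    (hcrit : ∀ x : ℂ, (derivative F).eval₂ s x = 0 →
      3 * √2 < ‖F.eval₂ s x - 2‖ + ‖F.eval₂ s x + 2‖) (b : Fin (g + 1) → K)
    (hb : ∀ m, F.eval (b m) = 0) (hinj : Function.Injective b) :
    ∃ Γ : Fin g → Torus (POpen F b) 1,
      (∀ l θ (y : K), (Γ l).e θ (pcst F b y) = s y) ∧
      (Matrix.of fun l k : Fin g => (Γ l).reg (symb (pent F b k.succ 0))).det ≠ 0 := by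
  have hq : (1 : ℝ) < √2 := by
    rw [Real.lt_sqrt zero_le_one]
    norm_num
  have hs : 2 * (√2 + (√2)⁻¹) = 3 * √2 := by
    have h1 : √2 * √2 = 2 := Real.mul_self_sqrt (by norm_num)
    have h2 : √2 ≠ 0 := by positivity
    field_simp
    nlinarith
  obtain ⟨μ, G, V, φ, hμ, hG, H, hV⟩ := exists_branches_ellipse (P := F.map s) (n := g + 1)
    (Nat.succ_pos g) (by rw [natDegree_map, hdeg]) (q := √2) hq fun x hx => by
      have h1 := hcrit x (by rw [← eval_map, ← derivative_map]; exact hx)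
      rw [eval_map, hs]
      exact h1
  have hθ : ∀ m, s (F.eval (b m)) = uu 1 (1 / 4) := by
    intro m
    rw [hb, map_zero, uu_quarter]
  choose β hβ using fun m => exists_branch H hμ hG (hθ m)
  have hβi : Function.Injective β := by
    intro m m' h
    apply hinj
    apply s.injective
    rw [hβ m, hβ m', h]
  exact indep_of_angles H hμ hG hq hV two_pos (by
    rw [Real.sq_sqrt (by norm_num)]) b (fun _ => 1 / 4)
    (fun m k hk => cs_quarter hk) hβi hβ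

end Pool.Agent.N686.EL
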