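import Pool.Agent.N686.EL.Crit
import Pool.Agent.N686.PF.Riem
set_option autoImplicit false

/-!
Negativity of the quadratic forms of the averaged point evaluations, and nonvanishing of the
determinants.
-/

namespace Pool.Agent.N686.EL

open Set Filter Topology Polynomial

open Pool.Agent.Y775.CC

open Pool.Agent.TH826.MK (circ norm_circ circ_add_one contDiff_circ hasDerivAt_circ circ_eq)

set_option maxHeartbeats 400000

section

variable {G : ℂ[X]} {n : ℕ} {V : Set ℂ} {φ : Fin n → ℂ → ℂ} (H : Branches G V φ)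
  {q : ℝ} (hq : 1 < q) (hV : ∀ z : ℂ, 1 ≤ ‖z‖ → ‖z‖ ≤ q → z + z⁻¹ ∈ V)

include H hq hV

/-- The quadratic form of averages of point evaluations, whose harmonics vanish outside of the
multiples of `D`, is negative, if `2 ≤ q ^ D`. -/
theorem neg_avg {D : ℕ} (hD : 0 < D) (hqD : 2 ≤ q ^ D) {r : ℕ} (p θ : Fin n → Fin r → ℝ)
    (hp0 : ∀ j l, 0 ≤ p j l) (hp : ∀ j, ∑ l, p j l = 1)
    (h0 : ∀ i k, ¬ D ∣ k → ∑ l, p i l * cs k (θ i l) = 0) (c : Fin n → ℝ)
    (hc : ∑ i, c i = 0) (hc0 : c ≠ 0) :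
    ∑ j, ∑ i, c i * c j * ∑ l, p j l * Jm φ i j (θ j l) < 0 := by
  have h1 : ∀ i k, |∑ l, p i l * cs k (θ i l)| ≤ 1 := by
    intro i k
    calc |∑ l, p i l * cs k (θ i l)| ≤ ∑ l, |p i l * cs k (θ i l)| :=
          Finset.abs_sum_le_sum_abs _ _
      _ ≤ ∑ l, p i l := by
          refine Finset.sum_le_sum fun l _ => ?_
          rw [abs_mul, abs_of_nonneg (hp0 i l)]
          have h2 : |cs k (θ i l)| ≤ 1 := Real.abs_cos_le_one _
          calc p i l * |cs k (θ i l)| ≤ p i l * 1 := mul_le_mul_of_nonneg_left h2 (hp0 i l)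
            _ = p i l := mul_one _
      _ = 1 := hp i
  have h3 := ineq H hq hV c hc p θ hp (T := (32 / 15) / D * Real.log (4 / 3)) fun i M =>
    loss_le hq hD hqD (h1 i) (h0 i) M
  have h4 := loss_lt hq hD hqD
  have h5 : 0 < ∑ i, c i ^ 2 := by
    obtain ⟨i, hi⟩ := Function.ne_iff.1 hc0
    have hi' : c i ≠ 0 := hi
    exact Finset.sum_pos' (fun i _ => sq_nonneg _) ⟨i, Finset.mem_univ i, by positivity⟩
  nlinarith

/-- The case of single points. -/
theorem neg_single {D : ℕ} (hD : 0 < D) (hqD : 2 ≤ q ^ D) (θ : Fin n → ℝ)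
    (h0 : ∀ i k, ¬ D ∣ k → cs k (θ i) = 0) (c : Fin n → ℝ)
    (hc : ∑ i, c i = 0) (hc0 : c ≠ 0) :
    ∑ j, ∑ i, c i * c j * Jm φ i j (θ j) < 0 := by
  have h := neg_avg H hq hV hD hqD (r := 1) (fun _ _ => 1) (fun j _ => θ j)
    (fun _ _ => zero_le_one) (fun _ => by simp) (fun i k hk => by
      simp only [Finset.univ_unique, Finset.sum_singleton, one_mul]
      exact h0 i k hk) c hc hc0
  simpa using h

end

/-- The determinant. -/
theorem det_ne_zero {g : ℕ} {G : ℂ[X]} {V : Set ℂ} {φ : Fin (g + 1) → ℂ → ℂ}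
    (H : Branches G V φ) {ψ : Fin (g + 1) → ℝ}
    (hneg : ∀ c : Fin (g + 1) → ℝ, ∑ i, c i = 0 → c ≠ 0 →
      ∑ j, ∑ i, c i * c j * Jm φ i j (ψ j) < 0)
    {β : Fin (g + 1) → Fin (g + 1)} (hβ : Function.Injective β) :
    (Matrix.of fun l k : Fin g => Jm φ l.succ (β k.succ) (ψ (β k.succ)) -
      Jm φ l.succ (β 0) (ψ (β 0))).det ≠ 0 := by
  classical
  intro hdet
  obtain ⟨v, hv0, hv⟩ := Matrix.exists_mulVec_eq_zero_iff.2 hdet
  have hbij : Function.Bijective β := Finite.injective_iff_bijective.1 hβ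
  set e : Fin (g + 1) ≃ Fin (g + 1) := Equiv.ofBijective β hbij with he
  have heβ : ∀ m, e m = β m := fun m => rfl
  -- the vector
  set d : Fin (g + 1) → ℝ := Fin.cons (-∑ k, v k) v with hd
  have hd0 : ∑ m, d m = 0 := by
    rw [Fin.sum_univ_succ]
    simp [hd]
  set c : Fin (g + 1) → ℝ := fun j => d (e.symm j) with hc
  have hcβ : ∀ m, c (β m) = d m := fun m => by
    simp only [hc]
    rw [← heβ, Equiv.symm_apply_apply]
  have hcsum : ∑ j, c j = 0 := by
    rw [← hd0]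
    exact Equiv.sum_comp e.symm d
  have hc0 : c ≠ 0 := by
    intro h
    apply hv0
    funext k
    have h1 := hcβ k.succ
    rw [h] at h1
    simpa [hd] using h1.symm
  -- the rows
  have hrow : ∀ l : Fin g, ∑ j, Jm φ l.succ j (ψ j) * c j = 0 := by
    intro l
    have h1 := congrFun hv l
    simp only [Matrix.mulVec, dotProduct, Matrix.of_apply, Pi.zero_apply] at h1
    have h2 : ∑ j, Jm φ l.succ j (ψ j) * c j =
        ∑ m, Jm φ l.succ (β m) (ψ (β m)) * d m := by
      rw [← Equiv.sum_comp e]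
      refine Finset.sum_congr rfl fun m _ => ?_
      rw [heβ, hcβ]
    rw [h2, Fin.sum_univ_succ]
    have h3 : d 0 = -∑ k, v k := by simp [hd]
    have h4 : ∀ k : Fin g, d k.succ = v k := fun k => by simp [hd]
    simp only [h4]
    rw [h3]
    simp only [sub_mul, Finset.sum_sub_distrib] at h1
    rw [← Finset.mul_sum] at h1
    linarith
  have hrow0 : ∑ j, Jm φ 0 j (ψ j) * c j = 0 := by
    have h1 : ∑ i, ∑ j, Jm φ i j (ψ j) * c j = 0 := by
      rw [Finset.sum_comm]
      refine Finset.sum_eq_zero fun j _ => ?_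
      rw [← Finset.sum_mul, sum_Jm H, zero_mul]
    rw [Fin.sum_univ_succ, Finset.sum_eq_zero fun l _ => hrow l, add_zero] at h1
    exact h1
  have hall : ∀ i, ∑ j, Jm φ i j (ψ j) * c j = 0 := by
    intro i
    refine Fin.cases hrow0 (fun l => hrow l) i
  have h5 := hneg c hcsum hc0
  have h6 : ∑ j, ∑ i, c i * c j * Jm φ i j (ψ j) = 0 := by
    rw [Finset.sum_comm]
    refine Finset.sum_eq_zero fun i _ => ?_
    have h7 : ∀ j, c i * c j * Jm φ i j (ψ j) = c i * (Jm φ i j (ψ j) * c j) := fun j => by ring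
    simp only [h7]
    rw [← Finset.mul_sum, hall, mul_zero]
  rw [h6] at h5
  exact lt_irrefl _ h5

/-- Sums of a harmonic over equally spaced points. -/
theorem sum_shift {N : ℕ} (hN : 0 < N) {k : ℕ} (hk : ¬ N ∣ k) (a : ℝ) :
    ∑ l ∈ Finset.range N, cs k (a + l / N) = 0 := by
  have hNc : (N : ℂ) ≠ 0 := by exact_mod_cast hN.ne'
  set ω : ℂ := Complex.exp (2 * Real.pi * Complex.I * k / N) with hω
  have h1 : ω ≠ 1 := by
    intro h
    rw [hω, Complex.exp_eq_one_iff] at h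
    obtain ⟨m, hm⟩ := h
    have hpi : (2 * Real.pi * Complex.I : ℂ) ≠ 0 := Complex.two_pi_I_ne_zero
    have h2 : (k : ℂ) = m * N := by
      field_simp at hm
      rw [hm]
      ring
    have h3 : (k : ℤ) = m * N := by exact_mod_cast h2
    apply hk
    have h4 : (N : ℤ) ∣ (k : ℤ) := ⟨m, by rw [h3]; ring⟩
    exact_mod_cast h4
  have h2 : ω ^ N = 1 := by
    rw [hω, ← Complex.exp_nat_mul, Complex.exp_eq_one_iff]
    refine ⟨k, ?_⟩
    push_cast
    field_simp
  have h3 : ∑ l ∈ Finset.range N, ω ^ l = 0 := by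
    have h4 := geom_sum_mul ω N
    rw [h2, sub_self] at h4
    exact (mul_eq_zero.1 h4).resolve_right (sub_ne_zero.2 h1)
  have h5 : ∀ l : ℕ, ((cs k (a + l / N) : ℝ)) =
      (Complex.exp (2 * Real.pi * Complex.I * k * a) * ω ^ l).re := by
    intro l
    rw [hω, ← Complex.exp_nat_mul, ← Complex.exp_add]
    have e : 2 * Real.pi * Complex.I * k * a + l * (2 * Real.pi * Complex.I * k / N) =
        ((2 * Real.pi * k * (a + l / N) : ℝ) : ℂ) * Complex.I := by
      push_cast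
      ring
    rw [e, Complex.exp_ofReal_mul_I_re]
    unfold cs
    congr 1
  simp only [h5]
  rw [← Complex.re_sum, ← Finset.mul_sum, h3, mul_zero, Complex.zero_re]

end Pool.Agent.N686.EL
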